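import Pool.Agent.Tri2.Defs

/-!
# The `C`-trick: `x u ∈ W_{> N}` or `u y ∈ W_{> N}`, `ℓ(u) ≥ 2`: `T_x T_u T_y` has degree `≤ N - 2`

`T_x T_u = T_{xu}` (`len_mul_D`). `C_{xu} T_y` is zero modulo `H_{>N}`. `T_{xu} = C_{xu} - ∑_{a ≠ xu} p_a T_a`, `p_a = C_{xu}(a)`, `ℓ(a) < ℓ(xu)`, `deg p_a ≤ -1`
(`KLBasic_T_eq`, `kl_supp`, `kl_dle`). Let `l ∈ R(u)`; so `l ∈ {i,j}`, `l ∈ R(xu)`, `l ∉ L(y)`, and `C_{xu} T_l = v C_{xu}` (`kl_mul_s`), hence `p_{al} = v p_a` if
`l ∉ R(a)` (`eigen_coeff`). Terms `p_a T_a T_y`: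
* `l ∈ R(a)`: `T_a T_y = T_{al} T_l T_y`, A1S: `-1 + N - 1`.
* `l ∉ R(a)`, `a l ≠ x u`: `deg p_a ≤ -2`, A0S: `-2 + N`.
* `a l = x u`: `a = x (u l)`, `p_a = v^{-1}`; `u l ≠ 1` has a right descent `l'`, `l' ∈ R(a)`, `l' ∉ L(y)`, A1S: `-1 + N - 1`.
`ctrick_right`: `fl` applied to `ctrick_left` for `y⁻¹, u⁻¹, x⁻¹`.
-/

open CoxeterSystem

namespace Pool.Agent.PolyCell

variable {B W : Type*} [Group W] {M : CoxeterMatrix B} {cs : CoxeterSystem M W}
  {C : W → Hk cs} {N : ℕ}

/-- `T_w g` for `w ∈ W_{> N}` from the terms of `C_w` -/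
private theorem CTrick_expand (hC : IsKL cs C) (hI : IdealN cs C N) {w : W} {k : ℤ} {g : Hk cs}
    (hw : Fac cs N w)
    (h : ∀ a, a ≠ w → C w a ≠ 0 → Lat cs C N k (C w a • (T cs a * g))) :
    Lat cs C N k (T cs w * g) := by
  classical
  rw [KLBasic_T_eq cs hC w, sub_mul, Finset.sum_mul]
  refine lat_sub (lat_of_zero _ (hI w hw g).1) (lat_sum _ _ ?_)
  intro a ha
  rw [Finset.mem_erase, Finsupp.mem_support_iff] at ha
  rw [smul_mul_assoc]
  exact h a ha.1 ha.2

/-- a term with a right descent of `a` that is not a left descent of `y` -/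
private theorem CTrick_term {n : ℕ} (h1 : A1S cs C N n) {a y : W} {l : B} {p : LP}
    (hp : dle (-1) p) (hl : cs.IsRightDescent a l) (hy : ¬ cs.IsLeftDescent y l)
    (hn : cs.length a + cs.length y ≤ n) :
    Lat cs C N ((N : ℤ) - 2) (p • (T cs a * T cs y)) := by
  have ex : a * cs.simple l * cs.simple l = a := cs.simple_mul_simple_cancel_right l
  have la := cs.isRightDescent_iff.mp hl
  have nx : ¬ cs.IsRightDescent (a * cs.simple l) l := by
    rw [cs.not_isRightDescent_iff, ex]; omega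
  have Tx : T cs a = T cs (a * cs.simple l) * T cs (cs.simple l) := by
    rw [T_mul_s cs nx, ex]
  rw [Tx]
  have h2 := lat_smul hp (h1 (a * cs.simple l) y l (by omega) nx hy)
  have e : (N : ℤ) - 1 + -1 = (N : ℤ) - 2 := by ring
  rwa [e] at h2

private theorem CTrick_vinv (p q : LP) (h : q = v 1 * p) : p = v (-1) * q := by
  rw [h, ← mul_assoc, ← v_add]
  norm_num [v_zero]

/-- `Lat` is invariant under `fl` -/
private theorem CTrick_lat_fl (hC : IsKL cs C) {k : ℤ} {h : Hk cs} (hh : Lat cs C N k h) :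
    Lat cs C N k (fl cs h) := by
  intro w hw
  rw [co_fl cs hC]
  exact hh w⁻¹ ((le_inv cs).2 hw)

theorem ctrick_left {n : ℕ} (hC : IsKL cs C) (hI : IdealN cs C N) (h0 : A0S cs C N n)
    (h1 : A1S cs C N n) {i j : B} {x y u : W} (hij : i ≠ j) (hx : Rmin cs i j x)
    (hy : Lmin cs i j y) (hu : u ∈ D cs i j) (h2 : 2 ≤ cs.length u) (hF : Fac cs N (x * u))
    (hn : cs.length x + cs.length u + cs.length y ≤ n + 1) :
    Lat cs C N ((N : ℤ) - 2) (T cs x * T cs u * T cs y) := by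
  have hred : Red cs x u := len_mul_D cs hij hx hu
  have hlen : cs.length (x * u) = cs.length x + cs.length u := hred
  rw [T_mul_T cs hred]
  have hly : ∀ l, l = i ∨ l = j → ¬ cs.IsLeftDescent y l := by
    rintro l (rfl | rfl)
    · exact hy.1
    · exact hy.2
  have hu1 : u ≠ 1 := by
    rintro rfl
    rw [cs.length_one] at h2
    omega
  obtain ⟨l, hl⟩ := cs.exists_rightDescent_of_ne_one hu1
  have hlij := rd_of_mem_D cs hij hu hl
  have hlw : cs.IsRightDescent (x * u) l := (rd_mul_D cs hij hlij hx hu).mpr hl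
  have heig := kl_mul_s cs hC hlw
  refine CTrick_expand hC hI hF fun a ha hpa => ?_
  have hla : cs.length a < cs.length (x * u) := by
    rcases kl_supp cs hC hpa with h | h
    · exact absurd h ha
    · exact h
  have hdle := kl_dle cs hC ha
  have hnn : cs.length a + cs.length y ≤ n := by omega
  by_cases hal : cs.IsRightDescent a l
  · exact CTrick_term h1 hdle hal (hly l hlij) hnn
  · by_cases hw : a * cs.simple l = x * u
    · have hul := cs.isRightDescent_iff.mp hl
      have hne : u * cs.simple l ≠ 1 := by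
        intro e
        rw [e, cs.length_one] at hul
        omega
      have hulD : u * cs.simple l ∈ D cs i j := Subgroup.mul_mem _ hu (simple_mem_D hlij)
      obtain ⟨l', hl'⟩ := cs.exists_rightDescent_of_ne_one hne
      have hl'ij := rd_of_mem_D cs hij hulD hl'
      have e : a = x * (u * cs.simple l) := by
        rw [← mul_assoc, ← hw, cs.simple_mul_simple_cancel_right]
      have hal' : cs.IsRightDescent a l' := by
        rw [e]
        exact (rd_mul_D cs hij hl'ij hx hulD).mpr hl'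
      exact CTrick_term h1 hdle hal' (hly l' hl'ij) hnn
    · have e1 := eigen_coeff cs heig hal
      have e2 := CTrick_vinv _ _ e1
      have d1 : dle (-2) (C (x * u) a) := by
        rw [e2]
        have := dle_mul (dle_v (-1)) (kl_dle cs hC hw)
        simpa using this
      have h3 := lat_smul d1 (h0 a y hnn)
      have e : (N : ℤ) + -2 = (N : ℤ) - 2 := by ring
      rwa [e] at h3

theorem ctrick_right {n : ℕ} (hC : IsKL cs C) (hI : IdealN cs C N) (h0 : A0S cs C N n)
    (h1 : A1S cs C N n) {i j : B} {x y u : W} (hij : i ≠ j) (hx : Rmin cs i j x)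
    (hy : Lmin cs i j y) (hu : u ∈ D cs i j) (h2 : 2 ≤ cs.length u) (hF : Fac cs N (u * y))
    (hn : cs.length x + cs.length u + cs.length y ≤ n + 1) :
    Lat cs C N ((N : ℤ) - 2) (T cs x * T cs u * T cs y) := by
  have hx' : Lmin cs i j x⁻¹ :=
    ⟨by rw [cs.isLeftDescent_inv_iff]; exact hx.1, by rw [cs.isLeftDescent_inv_iff]; exact hx.2⟩
  have hy' : Rmin cs i j y⁻¹ :=
    ⟨by rw [cs.isRightDescent_inv_iff]; exact hy.1, by rw [cs.isRightDescent_inv_iff]; exact hy.2⟩
  have hF' : Fac cs N (y⁻¹ * u⁻¹) := by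
    rw [← mul_inv_rev]
    exact (fac_inv cs).2 hF
  have h := ctrick_left hC hI h0 h1 hij hy' hx' (Subgroup.inv_mem _ hu)
    (by rw [cs.length_inv]; exact h2) hF'
    (by rw [cs.length_inv, cs.length_inv, cs.length_inv]; omega)
  have h' := CTrick_lat_fl hC h
  rw [fl_mul, fl_mul, fl_T, fl_T, fl_T, inv_inv, inv_inv, inv_inv, ← mul_assoc] at h'
  exact h'

end Pool.Agent.PolyCell
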