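import Pool.Agent.Tri2.LJunc
import Pool.Agent.Tri2.CTrick

/-!
# The step for D2S from the combinatorial hypothesis `KHyp`

By strong induction on `ℓ(y)` (all `i, j, x, u` with total length `≤ n + 1`):
* `y = 1`: `T_x T_u T_1 = T_{xu}`, `lat_T`, `N ≥ 2`.
* `x u ∈ W_{>N}`: `ctrick_left`; `u y ∈ W_{>N}`: `ctrick_right`.
* otherwise `KHyp`. First alternative: `l ∈ R(u)`, `e ∈ L(y)`, `e ∉ R(xu)`, `l ≠ e`. (`l ∈ {i,j}` (`rd_of_mem_D`), so `l ∉ L(y)`; `l ∈ R(xu)`.) Put `x u = a₂ a`, `y = b b₂` (`decompR`, `decompL` for the pair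
  `{l, e}`): `l ∈ R(a)`, `e ∉ R(a)`, `e ∈ L(b)`, `l ∉ L(b)`, so `a, b ≠ w_{le}`, `ℓ(a), ℓ(b) ≥ 1`, `ℓ(b₂) < ℓ(y)`. `T_x T_u T_y = T_{a₂} T_a T_b T_{b₂}`. Let `L = ℓ(a) + ℓ(b)`, `m = M l e`. If `L ≥ m` and (`L > m` or
  `m > N`): `junc_over` (with `t = l`). Otherwise `L < m` or `L = m ≤ N`: `ab` is reduced (`len_junction`), `T_{a₂} T_{ab} T_{b₂}`, `ℓ(ab) ≥ 2`, `ab ≠ w_T` if `m > N` (as `L < m`): induction
  hypothesis for `b₂`.
  Second alternative: `T_x T_{uy} = T_{x₁} T_a T_b T_{y₁}`, `junc_over` with `t = p`, `L > M p q`. (lengths: `ℓ(x) = ℓ(x₁) + ℓ(a)`, `ℓ(uy) = ℓ(b) + ℓ(y₁)` by `len_mul_D`, `len_D_mul`.)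
-/

open CoxeterSystem

namespace Pool.Agent.PolyCell

variable {B W : Type*} [Group W] {M : CoxeterMatrix B} {cs : CoxeterSystem M W}
  {C : W → Hk cs} {N : ℕ}

theorem d2_step (hM : ∀ i j : B, M i j ≠ 0) (hC : IsKL cs C) (hI : IdealN cs C N) (hN : 2 ≤ N)
    (hK : KHyp cs N) (n : ℕ) (h0 : A0S cs C N n) (h1 : A1S cs C N n) (h2 : D2S cs C N n)
    (hd : DCS cs C N n) : D2S cs C N (n + 1) := by
  have key : ∀ k : ℕ, ∀ ⦃i j : B⦄ ⦃x y u : W⦄, i ≠ j → M i j ≠ 0 → Rmin cs i j x →
      Lmin cs i j y → u ∈ D cs i j → 2 ≤ cs.length u → (N < M i j → u ≠ wT cs i j) →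
      cs.length x + cs.length u + cs.length y ≤ n + 1 → cs.length y = k →
      Lat cs C N ((N : ℤ) - 2) (T cs x * T cs u * T cs y) := by
    intro k
    induction k using Nat.strong_induction_on with
    | _ k ih =>
    intro i j x y u hij hm hx hy hu hu2 hbig hlen hk
    have hxu : Red cs x u := len_mul_D cs hij hx hu
    have huy : Red cs u y := len_D_mul cs hij hy hu
    by_cases hy1 : y = 1
    · subst hy1
      rw [T_mul_T cs hxu, ← one_def' cs, mul_one]
      exact lat_mono (by omega) (lat_T hC _)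
    by_cases hF1 : Fac cs N (x * u)
    · exact ctrick_left hC hI h0 h1 hij hx hy hu hu2 hF1 hlen
    by_cases hF2 : Fac cs N (u * y)
    · exact ctrick_right hC hI h0 h1 hij hx hy hu hu2 hF2 hlen
    rcases hK hij hx hy hu hu2 hbig hF1 hF2 hy1 with
      ⟨l, e, hle, hul, hye, hne⟩ | ⟨p, q, x₁, a, b, y₁, hpq, hx₁, hy₁, ha, hb, ha', hb', hap, hbp,
        hxa, huyb, hML⟩
    · have hlij : l = i ∨ l = j := rd_of_mem_D cs hij hu hul
      have hly : ¬ cs.IsLeftDescent y l := by
        rcases hlij with rfl | rfl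
        · exact hy.1
        · exact hy.2
      have hxul : cs.IsRightDescent (x * u) l := (rd_mul_D cs hij hlij hx hu).2 hul
      obtain ⟨a₂, a, ha₂, haD, hxa⟩ := decompR cs hle (x * u)
      obtain ⟨b, b₂, hb₂, hbD, hyb⟩ := decompL cs hle y
      have hal : cs.IsRightDescent a l := by
        rw [hxa] at hxul
        exact (rd_mul_D cs hle (Or.inl rfl) ha₂ haD).1 hxul
      have hae : ¬ cs.IsRightDescent a e := by
        intro h
        apply hne
        rw [hxa]
        exact (rd_mul_D cs hle (Or.inr rfl) ha₂ haD).2 h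
      have hbe : cs.IsLeftDescent b e := by
        rw [hyb] at hye
        exact (ld_D_mul cs hle (Or.inr rfl) hb₂ hbD).1 hye
      have hbl : ¬ cs.IsLeftDescent b l := by
        intro h
        apply hly
        rw [hyb]
        exact (ld_D_mul cs hle (Or.inl rfl) hb₂ hbD).2 h
      have hmle : M l e ≠ 0 := hM l e
      have haw : a ≠ wT cs l e := by
        rintro rfl
        exact hae (rd_wT cs hle hmle (Or.inr rfl))
      have hbw : b ≠ wT cs l e := by
        rintro rfl
        exact hbl (ld_wT cs hle hmle (Or.inl rfl))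
      have hla : 1 ≤ cs.length a := by
        have : cs.length (a * cs.simple l) < cs.length a := hal
        omega
      have hlb : 1 ≤ cs.length b := by
        have : cs.length (cs.simple e * b) < cs.length b := hbe
        omega
      have hra : Red cs a₂ a := len_mul_D cs hle ha₂ haD
      have hrb : Red cs b b₂ := len_D_mul cs hle hb₂ hbD
      have e1 : cs.length x + cs.length u = cs.length a₂ + cs.length a := by
        have h3 : cs.length (x * u) = cs.length x + cs.length u := hxu
        have h4 : cs.length (a₂ * a) = cs.length a₂ + cs.length a := hra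
        rw [hxa] at h3
        omega
      have e2 : cs.length y = cs.length b + cs.length b₂ := by
        have h4 : cs.length (b * b₂) = cs.length b + cs.length b₂ := hrb
        rw [← hyb] at h4
        exact h4
      have eT : T cs x * T cs u * T cs y = T cs a₂ * T cs a * T cs b * T cs b₂ := by
        rw [T_mul_T cs hxu, hxa, hyb, ← T_mul_T cs hra, ← T_mul_T cs hrb, ← mul_assoc]
      rw [eT]
      by_cases hover : M l e ≤ cs.length a + cs.length b ∧
          (M l e < cs.length a + cs.length b ∨ N < M l e)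
      · exact junc_over hC hI h0 h1 h2 hd hle hmle ha₂ hb₂ haD hbD haw hbw hal hbl hover.1 hover.2
          (by omega)
      · have hLm : cs.length a + cs.length b ≤ M l e := by
          by_contra hcon
          push Not at hcon
          exact hover ⟨hcon.le, Or.inl hcon⟩
        have hab : Red cs a b := len_junction cs hle hmle haD hbD hal hbl hLm
        have hab' : cs.length (a * b) = cs.length a + cs.length b := hab
        rw [mul_assoc (T cs a₂) (T cs a) (T cs b), T_mul_T cs hab]
        refine ih (cs.length b₂) (by omega) hle hmle ha₂ hb₂ (Subgroup.mul_mem _ haD hbD)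
          (by omega) ?_ (by omega) rfl
        intro hNm hw
        have h5 := length_wT cs hle
        rw [← hw, hab'] at h5
        exact hover ⟨h5.ge, Or.inr hNm⟩
    · have hmpq : M p q ≠ 0 := hM p q
      have hra : Red cs x₁ a := len_mul_D cs hpq hx₁ ha
      have hrb : Red cs b y₁ := len_D_mul cs hpq hy₁ hb
      have e1 : cs.length x = cs.length x₁ + cs.length a := by
        have h4 : cs.length (x₁ * a) = cs.length x₁ + cs.length a := hra
        rw [← hxa] at h4
        exact h4
      have e2 : cs.length u + cs.length y = cs.length b + cs.length y₁ := by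
        have h3 : cs.length (u * y) = cs.length u + cs.length y := huy
        have h4 : cs.length (b * y₁) = cs.length b + cs.length y₁ := hrb
        rw [huyb] at h3
        omega
      have eT : T cs x * T cs u * T cs y = T cs x₁ * T cs a * T cs b * T cs y₁ := by
        rw [mul_assoc, T_mul_T cs huy, huyb, hxa, ← T_mul_T cs hra, ← T_mul_T cs hrb, ← mul_assoc]
      rw [eT]
      exact junc_over hC hI h0 h1 h2 hd hpq hmpq hx₁ hy₁ ha hb ha' hb' hap hbp hML.le
        (Or.inl hML) (by omega)
  intro i j x y u hij hm hx hy hu hu2 hbig hlen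
  exact key _ hij hm hx hy hu hu2 hbig hlen rfl

end Pool.Agent.PolyCell
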