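import Pool.Agent.Tri2.Defs

/-!
# `T_x C_{w_T} T_y`: reduction to `x w_T, w_T y ∈ W_{≤ N}`; the case `m_T = 2`

`dc_red`: induction on `ℓ(x) + ℓ(y)`. If `x w_T ∈ W_{>N}`: `C_{x w_T} = E C_{w_T}` (`exists_E`), `E_x = 1`, the other `z` with `E_z ≠ 0` are `{i,j}`-rmin, shorter than `x`, `deg E_z ≤ -1`. So
`T_x C_{w_T} T_y = C_{x w_T} T_y - ∑_z E_z T_z C_{w_T} T_y`, the first term is zero modulo `H_{>N}`, the others are in `Lat (k - 1)` by induction. Same on the other side with `exists_F`. (`E = ∑_z E_z T_z`: `eq_sum_T`; see the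
proof of `bnd_ECF` in PolyCell/Bnd.lean.) Otherwise the hypothesis.
`dc_two`: `m = 2`: `C_{w_T} = T_{ij} + v^{-1}(T_i + T_j) + v^{-2}` (`C_wT_apply`, `lat_expand`): D2S (`u = w_T`, `ℓ = 2`), A1S: `-1 + N - 1`, A0S: `-2 + N`.
`dcp_two`: `m = 2`, given the bound `N - 3` of `T_x T_{w_T} T_y`: A1pS: `-1 + N - 2`; A0pS: `-2 + N - 1` (`le_prefix_D`).
-/

open CoxeterSystem

namespace Pool.Agent.PolyCell

variable {B W : Type*} [Group W] {M : CoxeterMatrix B} {cs : CoxeterSystem M W}
  {C : W → Hk cs} {N : ℕ}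

theorem dc_red {n : ℕ} {k : ℤ} (hC : IsKL cs C) (hI : IdealN cs C N) {i j : B} (hij : i ≠ j)
    (hm : M i j ≠ 0)
    (H : ∀ x y : W, Rmin cs i j x → Lmin cs i j y → Le cs N (x * wT cs i j) →
      Le cs N (wT cs i j * y) → cs.length x + M i j + cs.length y ≤ n →
      Lat cs C N k (T cs x * C (wT cs i j) * T cs y)) :
    ∀ x y : W, Rmin cs i j x → Lmin cs i j y → cs.length x + M i j + cs.length y ≤ n →
      Lat cs C N k (T cs x * C (wT cs i j) * T cs y) := by
  intro x y
  obtain ⟨d, hd⟩ : ∃ d, cs.length x + cs.length y = d := ⟨_, rfl⟩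
  induction d using Nat.strong_induction_on generalizing x y with
  | _ d ih =>
  intro hx hy hn
  by_cases hfx : Fac cs N (x * wT cs i j)
  · obtain ⟨E, hE, hE1, hE2⟩ := exists_E cs hC hij hm hx
    have h1 := lat_expandL (cs := cs) (C := C) (N := N) (k := k) x E (C (wT cs i j) * T cs y)
      (fun u hux hu => by
        obtain ⟨h2, h3, h4⟩ := hE2 u hux hu
        have h5 := ih (cs.length u + cs.length y) (by omega) u y rfl h2 hy (by omega)
        rw [mul_assoc] at h5
        exact lat_mono (by omega) (lat_smul h4 h5))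
    rw [hE1, one_smul] at h1
    have h2 : Lat cs C N k (E * (C (wT cs i j) * T cs y)) := by
      rw [← mul_assoc, ← hE]
      exact lat_of_zero k (hI _ hfx _).1
    have h3 := lat_sub h2 h1
    rw [sub_sub_cancel, ← mul_assoc] at h3
    exact h3
  by_cases hfy : Fac cs N (wT cs i j * y)
  · obtain ⟨F, hF, hF1, hF2⟩ := exists_F cs hC hij hm hy
    have h1 := lat_expandR (cs := cs) (C := C) (N := N) (k := k) y F (T cs x * C (wT cs i j))
      (fun u huy hu => by
        obtain ⟨h2, h3, h4⟩ := hF2 u huy hu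
        have h5 := ih (cs.length x + cs.length u) (by omega) x u rfl hx h2 (by omega)
        exact lat_mono (by omega) (lat_smul h4 h5))
    rw [hF1, one_smul] at h1
    have h2 : Lat cs C N k (T cs x * C (wT cs i j) * F) := by
      rw [mul_assoc, ← hF]
      exact lat_of_zero k (hI _ hfy _).2
    have h3 := lat_sub h2 h1
    rw [sub_sub_cancel] at h3
    exact h3
  · exact H x y hx hy hfx hfy hn

/-- the expansion of `T_x C_{w_T} T_y` for `m_T = 2` -/
private theorem DCRed_two {k : ℤ} (hC : IsKL cs C) {i j : B} (hij : i ≠ j) (hm : M i j = 2)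
    {x y : W} (h0 : Lat cs C N (k + 2) (T cs x * T cs y))
    (h1 : ∀ c, c = i ∨ c = j → Lat cs C N (k + 1) (T cs x * T cs (cs.simple c) * T cs y))
    (h2 : Lat cs C N k (T cs x * T cs (wT cs i j) * T cs y)) :
    Lat cs C N k (T cs x * C (wT cs i j) * T cs y) := by
  have hm0 : M i j ≠ 0 := by omega
  refine lat_expand x y _ fun u hu => ?_
  rw [C_wT_apply cs hC hij hm0] at hu ⊢
  split_ifs at hu ⊢ with hD
  · have hl := len_D_le cs hij hm0 hD
    rw [hm] at hl
    have h5 : cs.length u = 0 ∨ cs.length u = 1 ∨ cs.length u = 2 := by omega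
    rcases h5 with h5 | h5 | h5
    · have hu1 : u = 1 := cs.length_eq_zero_iff.1 h5
      subst hu1
      rw [← one_def', mul_one, h5, hm]
      exact lat_mono (by push_cast; omega) (lat_smul (dle_v _) h0)
    · obtain ⟨c, rfl⟩ := cs.length_eq_one_iff.1 h5
      have hc : c = i ∨ c = j := ld_of_mem_D cs hij hD (by
        rw [IsLeftDescent, cs.simple_mul_simple_self, cs.length_one, h5]
        exact Nat.zero_lt_one)
      rw [h5, hm]
      exact lat_mono (by push_cast; omega) (lat_smul (dle_v _) (h1 c hc))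
    · have hu2 : u = wT cs i j := eq_wT_of_len cs hij hm0 hD (by rw [h5, hm])
      subst hu2
      rw [h5, hm]
      exact lat_mono (by push_cast; omega) (lat_smul (dle_v _) h2)
  · exact absurd rfl hu

theorem dc_two {n : ℕ} (hC : IsKL cs C) (h0 : A0S cs C N n) (h1 : A1S cs C N n)
    (h2 : D2S cs C N (n + 1)) {i j : B} (hij : i ≠ j) (hm : M i j = 2) (hmN : 2 ≤ N) {x y : W}
    (hx : Rmin cs i j x) (hy : Lmin cs i j y)
    (hn : cs.length x + 2 + cs.length y ≤ n + 1) :
    Lat cs C N ((N : ℤ) - 2) (T cs x * C (wT cs i j) * T cs y) := by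
  have hl := length_wT cs hij
  rw [hm] at hl
  refine DCRed_two hC hij hm (lat_mono (by omega) (h0 x y (by omega))) (fun c hc => ?_) ?_
  · refine lat_mono (by omega) (h1 x y c (by omega) ?_ ?_)
    · rcases hc with rfl | rfl
      · exact hx.1
      · exact hx.2
    · rcases hc with rfl | rfl
      · exact hy.1
      · exact hy.2
  · exact h2 hij (by omega) hx hy (wT_mem cs i j) (by omega) (fun h => by omega) (by omega)

theorem dcp_two {n : ℕ} (hC : IsKL cs C) (h0 : A0pS cs C N n) (h1 : A1pS cs C N n)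
    {i j : B} (hij : i ≠ j) (hm : M i j = 2) {x y : W} (hx : Rmin cs i j x)
    (hy : Lmin cs i j y) (hle : Le cs (N - 1) (x * wT cs i j))
    (hT : Lat cs C N ((N : ℤ) - 3) (T cs x * T cs (wT cs i j) * T cs y))
    (hn : cs.length x + 2 + cs.length y ≤ n + 1) :
    Lat cs C N ((N : ℤ) - 3) (T cs x * C (wT cs i j) * T cs y) := by
  have hm0 : M i j ≠ 0 := by omega
  refine DCRed_two hC hij hm (lat_mono (by omega) (h0 x y (by omega) ?_)) (fun c hc => ?_) hT
  · have h3 := le_prefix_D hij hm0 hx (Subgroup.one_mem _) hle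
    rwa [mul_one] at h3
  · refine lat_mono (by omega) (h1 x y c (by omega) ?_ ?_
      (le_prefix_D hij hm0 hx (simple_mem_D hc) hle))
    · rcases hc with rfl | rfl
      · exact hx.1
      · exact hx.2
    · rcases hc with rfl | rfl
      · exact hy.1
      · exact hy.2

end Pool.Agent.PolyCell
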