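import Pool.Agent.Tri2.Defs
import Pool.Agent.PolyCell.Geo

/-!
# The level `2`: `x w_{rt} y` is reduced and in `W_{≤ 2}`

`ff_two`: strong induction on `ℓ(y)`. Put `u = w_{rt}` (length `2`, `R(u) = L(u) = {r,t}`).
`y = 1`: `k ∈ R(xu)`: `k = s` together with `t ∈ R(xu)` contradicts `x u ∈ W_{≤2}` (`fac_of_both`, `M s t ≥ 3`); so `k ∈ {r,t}`, `k ∈ R(u)`.
`y ≠ 1`: for `l ∈ R(y)` put `y' = y l`; `u y'` is a prefix of `u y` (in `W_{≤2}`); by induction `g = x u y'` is reduced, in `W_{≤2}`, `R(g) ⊆ R(uy')`. `l ∉ R(uy')` (`u·y` reduced, `len_D_mul`), so `l ∉ R(g)` and `g l = x u y` is reduced.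
(1) `x u y ∈ W_{≤2}`: otherwise `fac_step`: (a) `i' ≠ j'` in `R(xuy)`, `M i' j' > 2`, or (b) `e ∈ R(xuy)`, `x u y e ∈ W_{>2}`.
 (b): `e ∉ R(y)` (otherwise induction for `y e`). Let `l ∈ R(y)`, `l ≠ e`, `l ∈ R(xuy)`. If `M l e > 2` we are in case (a). Otherwise `{l,e} = {r,t}`; `e ∈ R(xuyl)` (`rd_of_both`), so `e ∈ R(uyl)` by induction, `e ∈ R(uy)` (commuting: `rd_comm2` below). `deodhar`: `y e = p y`,
 `p ∈ {r,t}`; `L(y) = {s}`; `wall_step` (for `t := p`, `e := s`): `p ν = w_{ps}`, `y = ν y₂`, so `p y = w_{ps} y₂` is a factor of `u y` (`u = u' p`): contradiction to `u y ∈ W_{≤2}`.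
 (a): `T' = {i',j'}` contains `s`; let `l ∈ R(y)`. `l ∈ T'`: otherwise, `i', j' ∈ R(xuyl)` (`rd_of_both` with `l`), contradiction to `x u y l ∈ W_{≤2}`. `y = y'' a'` (`decompR` for `T'`), `a' ≠ 1`, `ℓ(y'') < ℓ(y)`. If `u y''` is `T'`-rmin: so is `x u y''` (induction), and
 `i', j' ∈ R(a')` (`rd_mul_D`), so `i', j' ∈ R(uy)`: contradiction. Otherwise `q ∈ T'`, `q ∈ R(uy'')`, `q ∉ R(y'')`, `deodhar`: `y'' q = p y''`, `p ∈ {r,t}`. `y'' ≠ 1`: `wall_step` contradiction as in (b). `y'' = 1`: `q = p`, `y = a' ∈ D_{T'}`, `T' = {s,p}`; `u = p̄ p`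
 (`p̄` the other element of `{r,t}`), `x p̄` is `T'`-rmin (`s ∈ R(x p̄)` contradicts `W_{≤2}`; `p ∈ R(x p̄)` implies `p ∈ R(x)` by `rd_of_both`), so `p a' = w_{T'}` (`rd_mul_D`, `eq_wT_of_rd`), a factor of `u y`: contradiction.
(2) `R(xuy) ⊆ R(uy)`: `k ∈ R(xuy)`, `l ∈ R(y)`; `k = l` clear (`rd_mul_of_red`). `k ≠ l`: `M k l ≤ 2` since `x u y ∈ W_{≤2}`, `{k,l} = {r,t}`: `k ∈ R(xuyl)` (`rd_of_both`), `k ∈ R(uyl)`, `k ∈ R(uy)`.
-/

open CoxeterSystem

namespace Pool.Agent.PolyCell

variable {B W : Type*} [Group W] {M : CoxeterMatrix B} (cs : CoxeterSystem M W)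

/-- commuting descents -/
theorem rd_comm2 {k l : B} (hkl : k ≠ l) (h2 : M k l = 2) {w : W} (hk : cs.IsRightDescent w k)
    (hl : ¬ cs.IsRightDescent w l) : cs.IsRightDescent (w * cs.simple l) k := by
  have h1 := comm_of_two cs h2
  have h3 := cs.isRightDescent_iff.1 hk
  have h4 := cs.not_isRightDescent_iff.1 hl
  have h5 := cs.length_mul_le (w * cs.simple k) (cs.simple l)
  rw [cs.length_simple, mul_assoc, h1, ← mul_assoc] at h5
  show cs.length (w * cs.simple l * cs.simple k) < cs.length (w * cs.simple l)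
  omega

private theorem FFTwo_third {r s t : B} {b c : ℕ} (hT : T2 M r s t b c) {i j : B} (hij : i ≠ j)
    (h : ¬ 2 < M i j) : (i = r ∧ j = t) ∨ (i = t ∧ j = r) := by
  have h1 := hT.mrs
  have h2 := hT.mst
  have h3 := hT.hb
  have h4 := hT.hc
  have h5 : M s r = M r s := M.symmetric _ _
  have h6 : M t s = M s t := M.symmetric _ _
  rcases hT.all i with hi | hi | hi <;> rcases hT.all j with hj | hj | hj
  · exact absurd (hi.trans hj.symm) hij
  · rw [hi, hj] at h; omega
  · exact Or.inl ⟨hi, hj⟩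
  · rw [hi, hj] at h; omega
  · exact absurd (hi.trans hj.symm) hij
  · rw [hi, hj] at h; omega
  · exact Or.inr ⟨hi, hj⟩
  · rw [hi, hj] at h; omega
  · exact absurd (hi.trans hj.symm) hij

private theorem FFTwo_big {r s t : B} {b c : ℕ} (hT : T2 M r s t b c) {i j : B} (hij : i ≠ j)
    (h : 2 < M i j) : i = s ∨ j = s := by
  by_contra hcon
  push Not at hcon
  have h1 := hT.mrt
  have h2 : M t r = M r t := M.symmetric _ _
  rcases hT.all i with hi | hi | hi <;> rcases hT.all j with hj | hj | hj
  · exact hij (hi.trans hj.symm)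
  · exact hcon.2 hj
  · rw [hi, hj] at h; omega
  · exact hcon.1 hi
  · exact hcon.1 hi
  · exact hcon.1 hi
  · rw [hi, hj] at h; omega
  · exact hcon.2 hj
  · exact hij (hi.trans hj.symm)

private theorem FFTwo_gen {i j k : B} (hk : k = i ∨ k = j) : cs.simple k ∈ D cs i j := by
  rcases hk with rfl | rfl
  · exact Subgroup.subset_closure (by simp)
  · exact Subgroup.subset_closure (by simp)

/-- `u = w_{rt}`, `p ∈ {r,t}`: `ℓ(u s_p) = 1` -/
private theorem FFTwo_len {r s t : B} {b c : ℕ} (hT : T2 M r s t b c) {p : B}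
    (hp : p = r ∨ p = t) : cs.length (wT cs r t * cs.simple p) = 1 := by
  have h0 : M r t ≠ 0 := by rw [hT.mrt]; norm_num
  have h1 := cs.isRightDescent_iff.1 (rd_wT cs hT.rt h0 hp)
  rw [length_wT cs hT.rt, hT.mrt] at h1
  omega

private theorem FFTwo_ps {r s t : B} {b c : ℕ} (hT : T2 M r s t b c) {p : B}
    (hp : p = r ∨ p = t) : p ≠ s ∧ 2 < M p s := by
  rcases hp with rfl | rfl
  · exact ⟨hT.rs, by rw [hT.mrs]; exact hT.hb⟩
  · exact ⟨hT.st.symm, by rw [M.symmetric, hT.mst]; exact hT.hc⟩

/-- the wall contradiction -/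
private theorem FFTwo_wall {r s t : B} {b c : ℕ} (hT : T2 M r s t b c) {p k : B} {y : W}
    (hp : p = r ∨ p = t) (hy : Lmin cs r t y) (hy1 : y ≠ 1) (hk : ¬ cs.IsRightDescent y k)
    (h : y * cs.simple k = cs.simple p * y) (hle : Le cs 2 (wT cs r t * y)) : False := by
  obtain ⟨hps, hM⟩ := FFTwo_ps hT hp
  obtain ⟨e, he⟩ := cs.exists_leftDescent_of_ne_one hy1
  have hes : e = s := by
    rcases hT.all e with h1 | h1 | h1
    · exact absurd (h1 ▸ he) hy.1
    · exact h1
    · exact absurd (h1 ▸ he) hy.2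
  subst hes
  obtain ⟨hm, ν, y2, hyν, hν, hy2, hlen, hw, hνl, -, -, -⟩ := wall_step cs h hk he hps
  apply hle
  refine ⟨p, e, hps, hM, wT cs r t * cs.simple p, y2, ?_, ?_⟩
  · rw [← hw, hyν]
    simp only [mul_assoc]
    rw [cs.simple_mul_simple_cancel_left]
  · rw [len_D_mul cs hT.rt hy (wT_mem cs r t), length_wT cs hT.rt, hT.mrt, FFTwo_len cs hT hp]
    omega

theorem ff_two {r s t : B} {b c : ℕ} (hT : T2 M r s t b c) (y : W) :
    ∀ x : W, Rmin cs r t x → Lmin cs r t y → Le cs 2 (x * wT cs r t) → Le cs 2 (wT cs r t * y) →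
      cs.length (x * wT cs r t * y) = cs.length x + 2 + cs.length y ∧
      Le cs 2 (x * wT cs r t * y) ∧
      ∀ k, cs.IsRightDescent (x * wT cs r t * y) k → cs.IsRightDescent (wT cs r t * y) k := by
  induction hn : cs.length y using Nat.strong_induction_on generalizing y with
  | _ n ih =>
  subst hn
  intro x hx hy hxu huy
  have h0 : M r t ≠ 0 := by rw [hT.mrt]; norm_num
  have hu : wT cs r t ∈ D cs r t := wT_mem cs r t
  have hlu : cs.length (wT cs r t) = 2 := by rw [length_wT cs hT.rt, hT.mrt]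
  have hlxu : cs.length (x * wT cs r t) = cs.length x + 2 := by
    rw [len_mul_D cs hT.rt hx hu, hlu]
  by_cases hy1 : y = 1
  · subst hy1
    rw [mul_one, mul_one, cs.length_one]
    refine ⟨hlxu, hxu, fun k hk => ?_⟩
    rcases hT.all k with rfl | rfl | rfl
    · exact rd_wT cs hT.rt h0 (Or.inl rfl)
    · exfalso
      refine hxu (fac_of_both cs hT.st (by rw [hT.mst]; exact hT.hc) hk ?_)
      exact (rd_mul_D cs hT.rt (Or.inr rfl) hx hu).2 (rd_wT cs hT.rt h0 (Or.inr rfl))
    · exact rd_wT cs hT.rt h0 (Or.inr rfl)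
  have hluy : cs.length (wT cs r t * y) = 2 + cs.length y := by
    rw [len_D_mul cs hT.rt hy hu, hlu]
  -- prefixes of `y`
  have hpre : ∀ y' z : W, y = y' * z → cs.length y = cs.length y' + cs.length z → z ≠ 1 →
      (cs.length (x * wT cs r t * y') = cs.length x + 2 + cs.length y' ∧
      Le cs 2 (x * wT cs r t * y') ∧
      ∀ k, cs.IsRightDescent (x * wT cs r t * y') k → cs.IsRightDescent (wT cs r t * y') k) ∧
      cs.length (wT cs r t * y') = 2 + cs.length y' ∧ Lmin cs r t y' ∧
      Le cs 2 (wT cs r t * y') := by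
    intro y' z hyz hl hz
    have hz0 : 0 < cs.length z := by
      rw [Nat.pos_iff_ne_zero]
      exact fun h => hz ((cs.length_eq_zero_iff).1 h)
    have hred : Red cs y' z := by
      unfold Red
      rw [← hyz]
      exact hl
    have hy' : Lmin cs r t y' := by
      constructor
      · intro h
        apply hy.1
        rw [hyz]
        exact ld_mul_of_red cs hred h
      · intro h
        apply hy.2
        rw [hyz]
        exact ld_mul_of_red cs hred h
    have h1 : cs.length (wT cs r t * y') = 2 + cs.length y' := by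
      rw [len_D_mul cs hT.rt hy' hu, hlu]
    have hred2 : Red cs (wT cs r t * y') z := by
      unfold Red
      rw [mul_assoc, ← hyz, hluy, h1]
      omega
    have h2 : Le cs 2 (wT cs r t * y') :=
      le_prefix cs hred2 (by rw [mul_assoc, ← hyz]; exact huy)
    exact ⟨ih (cs.length y') (by omega) y' rfl x hx hy' hxu h2, h1, hy', h2⟩
  have hpre1 : ∀ l, cs.IsRightDescent y l →
      (cs.length (x * wT cs r t * (y * cs.simple l)) + 1 = cs.length x + 2 + cs.length y ∧
      Le cs 2 (x * wT cs r t * (y * cs.simple l)) ∧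
      (∀ k, cs.IsRightDescent (x * wT cs r t * (y * cs.simple l)) k →
        cs.IsRightDescent (wT cs r t * (y * cs.simple l)) k)) ∧
      ¬ cs.IsRightDescent (wT cs r t * (y * cs.simple l)) l := by
    intro l hl
    have h1 := cs.isRightDescent_iff.1 hl
    have h2 : y = y * cs.simple l * cs.simple l := by
      rw [cs.simple_mul_simple_cancel_right]
    obtain ⟨⟨h3, h4, h5⟩, h6, -, -⟩ := hpre (y * cs.simple l) (cs.simple l) h2
      (by rw [cs.length_simple]; exact h1.symm)
      (by
        intro h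
        have h7 := cs.length_simple l
        rw [h, cs.length_one] at h7
        omega)
    refine ⟨⟨by omega, h4, h5⟩, ?_⟩
    rw [cs.not_isRightDescent_iff, mul_assoc, cs.simple_mul_simple_cancel_right, hluy, h6]
    omega
  obtain ⟨l₀, hl₀⟩ := cs.exists_rightDescent_of_ne_one hy1
  have hlen : cs.length (x * wT cs r t * y) = cs.length x + 2 + cs.length y := by
    obtain ⟨⟨h1, -, h2⟩, h3⟩ := hpre1 l₀ hl₀
    have h4 : ¬ cs.IsRightDescent (x * wT cs r t * (y * cs.simple l₀)) l₀ := fun h => h3 (h2 l₀ h)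
    rw [cs.not_isRightDescent_iff, mul_assoc, cs.simple_mul_simple_cancel_right] at h4
    omega
  have hred : Red cs (x * wT cs r t) y := by
    unfold Red
    rw [hlen, hlxu]
  have hredu : Red cs (wT cs r t) y := by
    unfold Red
    rw [hluy, hlu]
  have hassoc : ∀ l, x * wT cs r t * (y * cs.simple l) = x * wT cs r t * y * cs.simple l :=
    fun l => by rw [mul_assoc (x * wT cs r t)]
  -- the commuting case
  have hcomm : ∀ k l, k ≠ l → ¬ 2 < M k l → cs.IsRightDescent (x * wT cs r t * y) k →
      cs.IsRightDescent y l → cs.IsRightDescent (wT cs r t * y) k := by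
    intro k l hkl hM hk hl
    have h2 : M k l = 2 := by
      rcases FFTwo_third hT hkl hM with ⟨h1, h2⟩ | ⟨h1, h2⟩
      · rw [h1, h2, hT.mrt]
      · rw [h1, h2, M.symmetric, hT.mrt]
    obtain ⟨⟨-, -, h3⟩, h4⟩ := hpre1 l hl
    have h5 := rd_of_both cs hkl hk (rd_mul_of_red cs hred hl)
    rw [← hassoc] at h5
    have h6 := rd_comm2 cs hkl h2 (h3 k h5) h4
    rwa [mul_assoc, cs.simple_mul_simple_cancel_right] at h6
  have hLe : Le cs 2 (x * wT cs r t * y) := by
    intro hF
    have caseA : ∀ i' j' : B, i' ≠ j' → 2 < M i' j' → cs.IsRightDescent (x * wT cs r t * y) i' →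
        cs.IsRightDescent (x * wT cs r t * y) j' → False := by
      intro i' j' hij' hM hi' hj'
      have hl : l₀ = i' ∨ l₀ = j' := by
        by_contra hcon
        push Not at hcon
        have hl' := rd_mul_of_red cs hred hl₀
        have h1 := rd_of_both cs (Ne.symm hcon.1) hi' hl'
        have h2 := rd_of_both cs (Ne.symm hcon.2) hj' hl'
        have h3 := fac_of_both cs hij' hM h1 h2
        rw [← hassoc] at h3
        exact (hpre1 l₀ hl₀).1.2.1 h3
      obtain ⟨y'', a', hy'', ha', hya⟩ := decompR cs hij' y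
      have ha1 : a' ≠ 1 := by
        intro h
        rw [h, mul_one] at hya
        rw [hya] at hl₀
        rcases hl with h | h
        · rw [h] at hl₀; exact hy''.1 hl₀
        · rw [h] at hl₀; exact hy''.2 hl₀
      have hly : cs.length y = cs.length y'' + cs.length a' := by
        rw [hya]
        exact len_mul_D cs hij' hy'' ha'
      obtain ⟨⟨h1, h2, h3⟩, h4, h5, h6⟩ := hpre y'' a' hya hly ha1
      by_cases hmin : Rmin cs i' j' (wT cs r t * y'')
      · have hmin2 : Rmin cs i' j' (x * wT cs r t * y'') :=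
          ⟨fun h => hmin.1 (h3 _ h), fun h => hmin.2 (h3 _ h)⟩
        have e1 : x * wT cs r t * y = x * wT cs r t * y'' * a' := by
          rw [hya]; simp only [mul_assoc]
        have e2 : wT cs r t * y = wT cs r t * y'' * a' := by
          rw [hya]; simp only [mul_assoc]
        rw [e1] at hi' hj'
        have h7 := (rd_mul_D cs hij' (Or.inl rfl) hmin2 ha').1 hi'
        have h8 := (rd_mul_D cs hij' (Or.inr rfl) hmin2 ha').1 hj'
        apply huy
        rw [e2]
        exact fac_of_both cs hij' hM ((rd_mul_D cs hij' (Or.inl rfl) hmin ha').2 h7)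
          ((rd_mul_D cs hij' (Or.inr rfl) hmin ha').2 h8)
      · obtain ⟨q, hq, hq1, hq2⟩ : ∃ q, (q = i' ∨ q = j') ∧
            cs.IsRightDescent (wT cs r t * y'') q ∧ ¬ cs.IsRightDescent y'' q := by
          by_contra hcon
          push Not at hcon
          exact hmin ⟨fun h => hy''.1 (hcon i' (Or.inl rfl) h),
            fun h => hy''.2 (hcon j' (Or.inr rfl) h)⟩
        obtain ⟨p, hp, hpy, -⟩ := deodhar cs hT.rt h5 hu hq1 hq2
        by_cases hy1'' : y'' = 1
        · rw [hy1''] at hpy
          rw [hy1'', one_mul] at hya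
          rw [one_mul, mul_one] at hpy
          have hqp : q = p := by
            apply rd_simple cs (g := p)
            rw [← hpy]
            exact rd_simple_self cs q
          subst hqp
          rw [← hya] at ha'
          -- `X = x u q`
          have hlq := FFTwo_len cs hT hp
          obtain ⟨hqs, hMq⟩ := FFTwo_ps hT hp
          have e0 : x * wT cs r t = x * (wT cs r t * cs.simple q) * cs.simple q := by
            rw [mul_assoc, cs.simple_mul_simple_cancel_right]
          have hvD : wT cs r t * cs.simple q ∈ D cs r t := mul_mem hu (FFTwo_gen cs hp)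
          have hlX : cs.length (x * (wT cs r t * cs.simple q)) = cs.length x + 1 := by
            rw [len_mul_D cs hT.rt hx hvD, hlq]
          have hqX : ¬ cs.IsRightDescent (x * (wT cs r t * cs.simple q)) q := by
            rw [cs.not_isRightDescent_iff, ← e0, hlxu, hlX]
          have hXle : Le cs 2 (x * (wT cs r t * cs.simple q)) := by
            refine le_prefix cs (y := cs.simple q) ?_ (by rw [← e0]; exact hxu)
            unfold Red
            rw [← e0, hlxu, hlX, cs.length_simple]
          have hsX : ¬ cs.IsRightDescent (x * (wT cs r t * cs.simple q)) s := by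
            intro hs
            have hv1 : wT cs r t * cs.simple q ≠ 1 := by
              intro h
              rw [h, cs.length_one] at hlq
              omega
            obtain ⟨g, hg⟩ := cs.exists_rightDescent_of_ne_one hv1
            have hgrt := rd_of_mem_D cs hT.rt hvD hg
            obtain ⟨hgs, hMg⟩ := FFTwo_ps hT hgrt
            exact hXle (fac_of_both cs hgs hMg
              ((rd_mul_D cs hT.rt hgrt hx hvD).2 hg) hs)
          have hXmin : Rmin cs i' j' (x * (wT cs r t * cs.simple q)) := by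
            rcases FFTwo_big hT hij' hM with h | h <;> rcases hq with h' | h'
            · exact absurd (h'.trans h) hqs
            · exact ⟨by rw [h]; exact hsX, by rw [← h']; exact hqX⟩
            · exact ⟨by rw [← h']; exact hqX, by rw [h]; exact hsX⟩
            · exact absurd (h'.trans h) hqs
          have hqD : cs.simple q * y ∈ D cs i' j' := mul_mem (FFTwo_gen cs hq) ha'
          have e1 : x * wT cs r t * y
              = x * (wT cs r t * cs.simple q) * (cs.simple q * y) := by
            rw [e0]; simp only [mul_assoc]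
          have e2 : wT cs r t * y = wT cs r t * cs.simple q * (cs.simple q * y) := by
            rw [mul_assoc, cs.simple_mul_simple_cancel_left]
          rw [e1] at hi' hj'
          have h7 := (rd_mul_D cs hij' (Or.inl rfl) hXmin hqD).1 hi'
          have h8 := (rd_mul_D cs hij' (Or.inr rfl) hXmin hqD).1 hj'
          have hqy : ¬ cs.IsLeftDescent y q := by
            rcases hp with h | h
            · rw [h]; exact hy.1
            · rw [h]; exact hy.2
          have hlqy := cs.not_isLeftDescent_iff.1 hqy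
          have hredv : Red cs (wT cs r t * cs.simple q) (cs.simple q * y) := by
            unfold Red
            rw [← e2, hluy, hlq, hlqy]
            omega
          apply huy
          rw [e2]
          exact fac_of_both cs hij' hM (rd_mul_of_red cs hredv h7) (rd_mul_of_red cs hredv h8)
        · exact FFTwo_wall cs hT hp h5 hy1'' hq2 hpy h6
    rcases fac_step cs hF with ⟨i', j', hij', hM, hi', hj'⟩ | ⟨e, he, hFe⟩
    · exact caseA i' j' hij' hM hi' hj'
    · have hey : ¬ cs.IsRightDescent y e := by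
        intro h
        rw [← hassoc] at hFe
        exact (hpre1 e h).1.2.1 hFe
      have hle : e ≠ l₀ := fun h => hey (h ▸ hl₀)
      by_cases hM : 2 < M e l₀
      · exact caseA e l₀ hle hM he (rd_mul_of_red cs hred hl₀)
      · have h1 := hcomm e l₀ hle hM he hl₀
        obtain ⟨p, hp, hpy, -⟩ := deodhar cs hT.rt hy hu h1 hey
        exact FFTwo_wall cs hT hp hy hy1 hey hpy huy
  refine ⟨hlen, hLe, fun k hk => ?_⟩
  by_cases hkl : k = l₀
  · rw [hkl]
    exact rd_mul_of_red cs hredu hl₀
  · by_cases hM : 2 < M k l₀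
    · exact absurd (fac_of_both cs hkl hM hk (rd_mul_of_red cs hred hl₀)) hLe
    · exact hcomm k l₀ hkl hM hk hl₀

/-- `a3`: `u ∈ {1, s_i, s_j}`. `vset`: `M i j = 2` and `i ≠ j` imply `{i,j} = {r,t}` (`wT_symm`). -/
theorem geo_two {r s t : B} {b c : ℕ} (hT : T2 M r s t b c) : Geo cs 2 := by
  constructor
  · intro i j x u hF hu hne
    have hm0 : M i j ≠ 0 := by rw [hF.exp]; norm_num
    have hlu := len_D_le cs hF.ne hm0 hu
    rw [hF.exp] at hlu
    have hl2 : cs.length u ≠ 2 := by
      intro h
      exact hne (eq_wT_of_len cs hF.ne hm0 hu (by rw [h, hF.exp]))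
    by_cases hu1 : u = 1
    · rw [hu1, mul_one]
      have h1 := hF.fi
      refine le_prefix cs (y := cs.simple i) ?_ h1
      unfold Red
      rw [cs.length_simple]
      exact cs.not_isRightDescent_iff.1 hF.rmin.1
    · obtain ⟨k, hk⟩ := cs.exists_rightDescent_of_ne_one hu1
      have hkij := rd_of_mem_D cs hF.ne hu hk
      have h1 := cs.isRightDescent_iff.1 hk
      have h2 : cs.length (u * cs.simple k) = 0 := by omega
      have h3 := (cs.length_eq_zero_iff).1 h2
      have h4 : u = cs.simple k := by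
        have h5 : u * cs.simple k * cs.simple k = cs.simple k := by rw [h3, one_mul]
        rwa [cs.simple_mul_simple_cancel_right] at h5
      rw [h4]
      rcases hkij with h | h
      · rw [h]; exact hF.fi
      · rw [h]; exact hF.fj
  · intro i j x y hij hM hx hxu hy huy
    rcases FFTwo_third hT hij (by omega) with ⟨h1, h2⟩ | ⟨h1, h2⟩
    · subst h1 h2
      obtain ⟨h3, h4, -⟩ := ff_two cs hT y x hx hy hxu huy
      exact ⟨h3, h4⟩
    · subst h1 h2
      rw [wT_symm] at hxu huy ⊢
      obtain ⟨h3, h4, -⟩ := ff_two cs hT y x ⟨hx.2, hx.1⟩ ⟨hy.2, hy.1⟩ hxu huy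
      exact ⟨h3, h4⟩

end Pool.Agent.PolyCell
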