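import Pool.Agent.Tri2.Defs

/-!
# `KHyp` at the level `2`

Always the first alternative. `y ≠ 1`: `e ∈ L(y)` (`exists_leftDescent_of_ne_one`), `e ∉ {i,j}` (`Lmin`). `l ∈ R(u)` (`u ≠ 1`), `l ∈ {i,j}` (`rd_of_mem_D`). Suppose `e ∈ R(xu)`. `l ∈ R(xu)` (`rd_mul_D`), so `M l e ≤ 2` (`fac_of_both`), hence
`{l,e} = {r,t}` and `{i,j} = {l,s}`. `e ∈ R(xul)` (`rd_of_both`), `s ∈ R(ul)` (`rd_prev`), so `s ∈ R(xul)` (`rd_mul_D`); `M s e ≥ 3`: `xul` is in `W_{>2}`, so `xu` too (`fac_of_fac_mul`). Contradiction.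
-/

open CoxeterSystem

namespace Pool.Agent.PolyCell

variable {B W : Type*} [Group W] {M : CoxeterMatrix B} (cs : CoxeterSystem M W)

theorem KTwo_lab {r s t : B} {b c : ℕ} (hT : T2 M r s t b c) {l e k : B} (hle : l ≠ e)
    (hkl : k ≠ l) (hke : k ≠ e) (hm : ¬ 2 < M l e) : 2 < M k e := by
  have h1 := hT.mrs
  have h2 := hT.mst
  have h3 := hT.mrt
  have h4 := hT.hb
  have h5 := hT.hc
  have s1 : M s r = b := by rw [M.symmetric]; exact h1
  have s2 : M t s = c := by rw [M.symmetric]; exact h2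
  have s3 : M t r = 2 := by rw [M.symmetric]; exact h3
  rcases hT.all l with rfl | rfl | rfl <;> rcases hT.all e with rfl | rfl | rfl <;>
    rcases hT.all k with rfl | rfl | rfl <;> first
      | exact absurd rfl hle
      | exact absurd rfl hkl
      | exact absurd rfl hke
      | omega

theorem khyp_two {r s t : B} {b c : ℕ} (hT : T2 M r s t b c) : KHyp cs 2 := by
  intro i j x y u hij hx hy hu h2 _ hxu _ hy1
  left
  obtain ⟨e, he⟩ := cs.exists_leftDescent_of_ne_one hy1
  have hu1 : u ≠ 1 := by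
    rintro rfl
    rw [cs.length_one] at h2
    omega
  obtain ⟨l, hl⟩ := cs.exists_rightDescent_of_ne_one hu1
  have hei : e ≠ i := fun h => hy.1 (h ▸ he)
  have hej : e ≠ j := fun h => hy.2 (h ▸ he)
  have hlij := rd_of_mem_D cs hij hu hl
  have hle : l ≠ e := by
    rcases hlij with rfl | rfl
    · exact Ne.symm hei
    · exact Ne.symm hej
  refine ⟨l, e, hle, hl, he, fun hxe => ?_⟩
  have hxl : cs.IsRightDescent (x * u) l := (rd_mul_D cs hij hlij hx hu).2 hl
  have hm : ¬ 2 < M l e := fun hm => hxu (fac_of_both cs hle hm hxl hxe)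
  obtain ⟨k, hkl, hkij, _, hk⟩ := rd_prev cs hij hu h2 hl
  have hke : k ≠ e := by
    rcases hkij with rfl | rfl
    · exact Ne.symm hei
    · exact Ne.symm hej
  have hm2 := KTwo_lab hT hle hkl hke hm
  have h3 : cs.IsRightDescent (x * u * cs.simple l) e := rd_of_both cs (Ne.symm hle) hxe hxl
  have hlD : cs.simple l ∈ D cs i j := by
    rcases hlij with rfl | rfl
    · exact Subgroup.subset_closure (Or.inl rfl)
    · exact Subgroup.subset_closure (Or.inr rfl)
  have h4 : cs.IsRightDescent (x * u * cs.simple l) k := by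
    rw [mul_assoc]
    exact (rd_mul_D cs hij hkij hx ((D cs i j).mul_mem hu hlD)).2 hk
  exact hxu (fac_of_fac_mul cs hxl (fac_of_both cs hke hm2 h4 h3))

end Pool.Agent.PolyCell
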