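import Pool.Agent.Tri2.LStep
import Pool.Agent.Tri2.D2Step
import Pool.Agent.Tri2.DCRed
import Pool.Agent.Tri2.KTwo
import Pool.Agent.Tri2.FFTwo
import Pool.Agent.PolyCell.Bnd

/-!
# Degree bounds at the level `2`

`lstep_all` with `d2_step`, `khyp_two`, `dc_two` (`M i j ≤ 2` and `two_le_exp` give `M i j = 2`); DCpS is vacuous (`M i j < 2`). All labels are finite (`T2`: `2, b, c`, diagonal `1`).
`k1f`: `First cs 2 i j x`: `C_{w_T} = T_{ij} + v^{-1}(T_i + T_j) + v^{-2}`; `T_x T_{w_T} T_y = T_{x w_T y}` since `x w_T y` is reduced (`geo_two`, `vset`; see `kax_of_bnd` in PolyCell/Bnd.lean). `T_x T_i T_y`: A1pS (`x i ∈ W_{≤1}`: `First.fi`; `i ∉ R(x)`, `i ∉ L(y)`): `-1 + N - 2 = -1`.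
`T_x T_y`: A0pS (`x ∈ W_{≤1}` as a prefix of `x i`): `-2 + N - 1 = -1`.
-/

open CoxeterSystem

namespace Pool.Agent.PolyCell

variable {B W : Type*} [Group W] {M : CoxeterMatrix B} {cs : CoxeterSystem M W}
  {C : W → Hk cs}

theorem t2_fin {r s t : B} {b c : ℕ} (hT : T2 M r s t b c) (i j : B) : M i j ≠ 0 := by
  have hb := hT.hb
  have hc := hT.hc
  have hrs := hT.mrs
  have hst := hT.mst
  have hrt := hT.mrt
  rcases hT.all i with rfl | rfl | rfl <;> rcases hT.all j with rfl | rfl | rfl <;>
    first
    | (rw [M.diagonal]; exact one_ne_zero)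
    | omega
    | (rw [M.symmetric]; omega)

theorem bndC_two {r s t : B} {b c : ℕ} (hT : T2 M r s t b c) (hC : IsKL cs C)
    (hI : IdealN cs C 2) : BndC cs C 2 := by
  classical
  have hfin := t2_fin hT
  have hge : ∀ i j : B, i ≠ j → 2 ≤ M i j := fun i j hij => two_le_exp hij (hfin i j)
  have H := lstep_all hfin hC hI le_rfl fun n h0 h1 h0p h1p h2 hd _ => by
    have h2' := d2_step hfin hC hI le_rfl (khyp_two cs hT) n h0 h1 h2 hd
    refine ⟨h2', ?_, ?_⟩
    · intro i j x y hij hm hmN hx hy hn
      have hm2 : M i j = 2 := le_antisymm hmN (hge i j hij)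
      have h3 := dc_two hC h0 h1 h2' hij hm2 le_rfl hx hy (by omega)
      rw [hm2]
      exact h3
    · intro i j x y hij hm hmN
      have := hge i j hij
      omega
  refine ⟨fun x y => (H _).1 x y le_rfl, fun x y hx => (H _).2.2.1 x y le_rfl hx, ?_, ?_⟩
  · intro i j x y hij hm hmN hx hy
    exact (H _).2.2.2.2.2.1 hij hm hmN hx hy le_rfl
  · intro i j x y hx hy h2
    have hij := hx.ne
    have hm := hx.exp
    have hm0 : M i j ≠ 0 := by omega
    have hlen := ((geo_two (cs := cs) hT).vset hij hm hx.rmin hx.le hy h2).1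
    have hl1 := len_mul_D cs hij hx.rmin (wT_mem cs i j)
    rw [length_wT cs hij, hm] at hl1
    have hT' : T cs x * T cs (wT cs i j) * T cs y = T cs (x * wT cs i j * y) := by
      rw [T_mul_T cs (show Red cs x (wT cs i j) by
        unfold Red; rw [hl1, length_wT cs hij, hm]), T_mul_T cs (show Red cs (x * wT cs i j) y by
        unfold Red; rw [hlen, hl1])]
    have e : T cs x * C (wT cs i j) * T cs y - T cs (x * wT cs i j * y) =
        T cs x * (C (wT cs i j) - T cs (wT cs i j)) * T cs y := by
      rw [mul_sub, sub_mul, hT']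
    rw [e]
    refine lat_expand x y _ fun u hu => ?_
    rw [sub_apply', T_apply] at hu ⊢
    by_cases huw : u = wT cs i j
    · exfalso
      apply hu
      rw [if_pos huw, huw, kl_self cs hC, sub_self]
    rw [if_neg huw, sub_zero] at hu ⊢
    rw [C_wT_apply cs hC hij hm0] at hu ⊢
    split_ifs at hu ⊢ with hD
    · have h3 := len_D_le cs hij hm0 hD
      have h3' : cs.length u < M i j :=
        lt_of_le_of_ne h3 fun e => huw (eq_wT_of_len cs hij hm0 hD e)
      have hxN : Le cs (2 - 1) x := le_prefix cs (y := cs.simple i)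
        (by unfold Red; rw [cs.length_simple]; exact (cs.not_isRightDescent_iff).1 hx.rmin.1) hx.fi
      have h4 : cs.length u = 0 ∨ cs.length u = 1 := by omega
      rcases h4 with h4 | h4
      · have hu1 : u = 1 := cs.length_eq_zero_iff.1 h4
        have h5 : Lat cs C 2 (((2 : ℕ) : ℤ) - 1) (T cs x * T cs u * T cs y) := by
          rw [hu1, ← one_def' cs, mul_one]
          exact (H _).2.2.1 x y le_rfl hxN
        have h6 := lat_smul (dle_v ((cs.length u : ℤ) - M i j)) h5
        refine lat_mono ?_ h6
        rw [hm, h4]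
        norm_num
      · obtain ⟨g, hg, rfl⟩ := len_one_D hij hD h4
        have h5 : Lat cs C 2 (((2 : ℕ) : ℤ) - 2) (T cs x * T cs (cs.simple g) * T cs y) := by
          refine (H _).2.2.2.1 x y g le_rfl ?_ ?_ ?_
          · rcases hg with rfl | rfl
            · exact hx.rmin.1
            · exact hx.rmin.2
          · rcases hg with rfl | rfl
            · exact hy.1
            · exact hy.2
          · rcases hg with rfl | rfl
            · exact hx.fi
            · exact hx.fj
        have h6 := lat_smul (dle_v ((cs.length (cs.simple g) : ℤ) - M i j)) h5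
        refine lat_mono ?_ h6
        rw [hm, h4]
        norm_num
    · exact absurd rfl hu

end Pool.Agent.PolyCell
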