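import Pool.Agent.Tri2.Defs

/-!
# Tails at the level `b` (`b < c`)

`tb1`: let `t ∈ R(xu)`, `l ∈ R(u)`, `l ∈ {r,s}` (`rd_of_mem_D`), `l ∈ R(xu)` (`rd_mul_D`). `l = s`: `fac_of_both` (`M s t = c > b`). `l = r`: `t ∈ R(xur)` (`rd_of_both`), `s ∈ R(ur)` (`rd_prev`), `s ∈ R(xur)`: `xur ∈ W_{>b}`, so `xu ∈ W_{>b}` (`fac_of_fac_mul`).
`l2`: `a = z w_{rs}` (`both_rd`), `a s = z (w_{rs} s)`, `ℓ(w_{rs} s) = b - 1 ≥ 2`, `tb1`. `l2'`: inverse.
`tb4`: `x u s = x (u s)`; `ℓ(us) ≥ 2` contradicts `tb1` (prefix), so `ℓ(us) = 1`, `us = r` (`r ∈ R(us)` by `rd_prev`), `u = r s`. Now `x u s = x r`, `t, r ∈ R(xr)`, so `r ∈ R(xrt)` (`rd_of_both`); with `s ∈ R(xrt)`: `xrt ∈ W_{>b-1}` (`fac_of_both`, `b > b-1`), so `xr ∈ W_{>b-1}`; and `l2` for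
`a = xrt` (prefix of `xr`): `t ∉ R(xrts)`.
`chain_st`: if `s, t ∈ R(w)` and `c ≥ 5`: `w = z w_{st}` (`both_rd`), `t ∈ R(w s)`, `s ∈ R(w s t)`, `t ∈ R(w s t s)`, `s ∈ R(w s t s t)` and the same with `s, t` exchanged (the tail of `w s t …` in `D_{st}` has positive length: use `rd_of_both` for the first and, for the others, that `w s … = z d`, `d ∈ D_{st}` of length
`c - k ≥ 1` has a right descent different from the last letter removed; `len_D_le`, `rd_of_mem_D`).
-/

open CoxeterSystem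

namespace Pool.Agent.PolyCell

variable {B W : Type*} [Group W] {M : CoxeterMatrix B} (cs : CoxeterSystem M W)

private theorem TB_mem {i j c : B} (hc : c = i ∨ c = j) : cs.simple c ∈ D cs i j := by
  refine Subgroup.subset_closure ?_
  rcases hc with rfl | rfl
  · exact Or.inl rfl
  · exact Or.inr rfl

theorem tb1 {r s t : B} {b c : ℕ} (hT : T2 M r s t b c) (hbc : b < c) {x u : W}
    (hx : Rmin cs r s x) (hu : u ∈ D cs r s) (h2 : 2 ≤ cs.length u) (hle : Le cs b (x * u)) :
    ¬ cs.IsRightDescent (x * u) t := by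
  intro ht
  have hst : b < M s t := by rw [hT.mst]; exact hbc
  have hu1 : u ≠ 1 := by
    rintro rfl
    simp at h2
  obtain ⟨l, hl⟩ := cs.exists_rightDescent_of_ne_one hu1
  have hlD := rd_of_mem_D cs hT.rs hu hl
  have hlx : cs.IsRightDescent (x * u) l := (rd_mul_D cs hT.rs hlD hx hu).2 hl
  rcases hlD with rfl | rfl
  · have h3 := rd_of_both cs hT.rt.symm ht hlx
    obtain ⟨s', hs', hs'D, -, hs'd⟩ := rd_prev cs hT.rs hu h2 hl
    have hs's : s' = s := by
      rcases hs'D with e | e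
      · exact absurd e hs'
      · exact e
    subst hs's
    have h4 : cs.IsRightDescent (x * u * cs.simple l) s' := by
      rw [mul_assoc]
      exact (rd_mul_D cs hT.rs (Or.inr rfl) hx (mul_mem hu (TB_mem cs (Or.inl rfl)))).2 hs'd
    exact hle (fac_of_fac_mul cs hlx (fac_of_both cs hT.st hst h4 h3))
  · exact hle (fac_of_both cs hT.st hst hlx ht)

theorem l2 {r s t : B} {b c : ℕ} (hT : T2 M r s t b c) (hbc : b < c) {a : W}
    (hr : cs.IsRightDescent a r) (hs : cs.IsRightDescent a s) (hle : Le cs b a) :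
    ¬ cs.IsRightDescent (a * cs.simple s) t := by
  obtain ⟨hm, z, hz, hw, hl⟩ := both_rd cs hT.rs hr hs
  have hb := hT.hb
  have hm' := hT.mrs
  have h1 := cs.isRightDescent_iff.1 (rd_wT cs hT.rs hm (Or.inr rfl))
  rw [length_wT cs hT.rs] at h1
  have hD : wT cs r s * cs.simple s ∈ D cs r s := mul_mem (wT_mem cs r s) (TB_mem cs (Or.inr rfl))
  have e : a * cs.simple s = z * (wT cs r s * cs.simple s) := by rw [hw, mul_assoc]
  rw [e]
  refine tb1 cs hT hbc hz hD (by omega) ?_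
  rw [← e]
  have h3 := cs.isRightDescent_iff.1 hs
  refine le_prefix cs (y := cs.simple s) ?_ ?_
  · unfold Red
    rw [cs.simple_mul_simple_cancel_right, cs.length_simple]
    exact h3.symm
  · rw [cs.simple_mul_simple_cancel_right]
    exact hle

theorem l2' {r s t : B} {b c : ℕ} (hT : T2 M r s t b c) (hbc : b < c) {a : W}
    (hr : cs.IsLeftDescent a r) (hs : cs.IsLeftDescent a s) (hle : Le cs b a) :
    ¬ cs.IsLeftDescent (cs.simple s * a) t := by
  rw [← cs.isRightDescent_inv_iff] at hr hs ⊢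
  rw [mul_inv_rev, cs.inv_simple]
  exact l2 cs hT hbc hr hs ((le_inv cs).2 hle)

theorem tb4 {r s t : B} {b c : ℕ} (hT : T2 M r s t b c) (hbc : b < c) {x u : W}
    (hx : Rmin cs r s x) (hu : u ∈ D cs r s) (h2 : 2 ≤ cs.length u)
    (hs : cs.IsRightDescent u s) (hle : Le cs b (x * u))
    (ht : cs.IsRightDescent (x * u * cs.simple s) t) :
    u = cs.simple r * cs.simple s ∧
      (cs.IsRightDescent (x * u * cs.simple s * cs.simple t) s →
        Fac cs (b - 1) (x * cs.simple r) ∧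
        ¬ cs.IsRightDescent (x * u * cs.simple s * cs.simple t * cs.simple s) t) := by
  have hb := hT.hb
  have hD : u * cs.simple s ∈ D cs r s := mul_mem hu (TB_mem cs (Or.inr rfl))
  have hlu := cs.isRightDescent_iff.1 hs
  have hsx : cs.IsRightDescent (x * u) s := (rd_mul_D cs hT.rs (Or.inr rfl) hx hu).2 hs
  have hlx := cs.isRightDescent_iff.1 hsx
  have hle1 : Le cs b (x * u * cs.simple s) := by
    refine le_prefix cs (y := cs.simple s) ?_ ?_
    · unfold Red
      rw [cs.simple_mul_simple_cancel_right, cs.length_simple]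
      exact hlx.symm
    · rw [cs.simple_mul_simple_cancel_right]
      exact hle
  obtain ⟨r', hr', hr'D, -, hr'd⟩ := rd_prev cs hT.rs hu h2 hs
  have hr'r : r' = r := by
    rcases hr'D with e | e
    · exact e
    · exact absurd e hr'
  subst hr'r
  have hlen1 : cs.length (u * cs.simple s) = 1 := by
    by_contra hne
    have h3 : 2 ≤ cs.length (u * cs.simple s) := by omega
    rw [mul_assoc] at ht hle1
    exact tb1 cs hT hbc hx hD h3 hle1 ht
  have hur : u * cs.simple s = cs.simple r' := by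
    obtain ⟨k, hk⟩ := cs.length_eq_one_iff.1 hlen1
    rw [hk] at hr'd ⊢
    rw [rd_simple cs hr'd]
  have hu' : u = cs.simple r' * cs.simple s := by
    rw [← hur, cs.simple_mul_simple_cancel_right]
  refine ⟨hu', fun h4 => ?_⟩
  have exr : x * u * cs.simple s = x * cs.simple r' := by rw [mul_assoc, hur]
  rw [exr] at ht h4 hle1 ⊢
  have hrx : cs.IsRightDescent (x * cs.simple r') r' := by
    rw [cs.isRightDescent_iff, cs.simple_mul_simple_cancel_right]
    exact ((cs.not_isRightDescent_iff).1 hx.1).symm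
  have h5 := rd_of_both cs hT.rt hrx ht
  have hbm : b - 1 < M r' s := by rw [hT.mrs]; omega
  refine ⟨fac_of_fac_mul cs ht (fac_of_both cs hT.rs hbm h5 h4), ?_⟩
  have h6 := cs.isRightDescent_iff.1 ht
  refine l2 cs hT hbc h5 h4 (le_prefix cs (y := cs.simple t) ?_ ?_)
  · unfold Red
    rw [cs.simple_mul_simple_cancel_right, cs.length_simple]
    exact h6.symm
  · rw [cs.simple_mul_simple_cancel_right]
    exact hle1

private theorem TB_step {p q : B} (hpq : p ≠ q) {z d : W} (hz : Rmin cs p q z)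
    (hd : d ∈ D cs p q) (h2 : 2 ≤ cs.length d) (hp : cs.IsRightDescent d p) :
    d * cs.simple p ∈ D cs p q ∧ cs.length (d * cs.simple p) + 1 = cs.length d ∧
      cs.IsRightDescent (d * cs.simple p) q ∧ cs.IsRightDescent (z * d * cs.simple p) q := by
  obtain ⟨q', hq', hq'D, -, hq'd⟩ := rd_prev cs hpq hd h2 hp
  have hq'q : q' = q := by
    rcases hq'D with e | e
    · exact absurd e hq'
    · exact e
  subst hq'q
  have hD : d * cs.simple p ∈ D cs p q' := mul_mem hd (TB_mem cs (Or.inl rfl))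
  refine ⟨hD, cs.isRightDescent_iff.1 hp, hq'd, ?_⟩
  rw [mul_assoc]
  exact (rd_mul_D cs hpq (Or.inr rfl) hz hD).2 hq'd

private theorem TB_swap {p q : B} : D cs p q = D cs q p := by
  unfold D
  rw [Set.pair_comm]

private theorem TB_chain {p q : B} (hpq : p ≠ q) {k : ℕ} {z d : W} (hz : Rmin cs p q z)
    (hd : d ∈ D cs p q) (h2 : k + 2 ≤ cs.length d) (hp : cs.IsRightDescent d p) :
    d * cs.simple p ∈ D cs q p ∧ Rmin cs q p z ∧ k + 1 ≤ cs.length (d * cs.simple p) ∧
      cs.IsRightDescent (d * cs.simple p) q ∧ cs.IsRightDescent (z * d * cs.simple p) q := by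
  obtain ⟨h3, h4, h5, h6⟩ := TB_step cs hpq hz hd (by omega) hp
  exact ⟨TB_swap cs ▸ h3, ⟨hz.2, hz.1⟩, by omega, h5, h6⟩

/-- alternate descents below an element with both descents `p, q`, `M p q ≥ 5` -/
theorem chain5 {p q : B} (hpq : p ≠ q) (hm : 5 ≤ M p q) {w : W} (hp : cs.IsRightDescent w p)
    (hq : cs.IsRightDescent w q) :
    cs.IsRightDescent (w * cs.simple p) q ∧
    cs.IsRightDescent (w * cs.simple p * cs.simple q) p ∧
    cs.IsRightDescent (w * cs.simple p * cs.simple q * cs.simple p) q ∧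
    cs.IsRightDescent (w * cs.simple p * cs.simple q * cs.simple p * cs.simple q) p := by
  obtain ⟨hm0, z, hz, rfl, -⟩ := both_rd cs hpq hp hq
  have hl := length_wT cs (i := p) (j := q) hpq
  obtain ⟨a1, a2, a3, a4, a5⟩ := TB_chain cs hpq (k := 3) hz (wT_mem cs p q) (by omega)
    (rd_wT cs hpq hm0 (Or.inl rfl))
  obtain ⟨b1, b2, b3, b4, b5⟩ := TB_chain cs hpq.symm (k := 2) a2 a1 (by omega) a4
  obtain ⟨c1, c2, c3, c4, c5⟩ := TB_chain cs hpq (k := 1) b2 b1 (by omega) b4
  obtain ⟨d1, d2, d3, d4, d5⟩ := TB_chain cs hpq.symm (k := 0) c2 c1 (by omega) c4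
  refine ⟨a5, ?_, ?_, ?_⟩
  · simpa only [mul_assoc] using b5
  · simpa only [mul_assoc] using c5
  · simpa only [mul_assoc] using d5

/-- the same one step further, `M p q ≥ 6` -/
theorem chain6 {p q : B} (hpq : p ≠ q) (hm : 6 ≤ M p q) {w : W} (hp : cs.IsRightDescent w p)
    (hq : cs.IsRightDescent w q) :
    cs.IsRightDescent (w * cs.simple p * cs.simple q * cs.simple p * cs.simple q *
      cs.simple p) q := by
  obtain ⟨hm0, z, hz, rfl, -⟩ := both_rd cs hpq hp hq
  have hl := length_wT cs (i := p) (j := q) hpq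
  obtain ⟨a1, a2, a3, a4, a5⟩ := TB_chain cs hpq (k := 4) hz (wT_mem cs p q) (by omega)
    (rd_wT cs hpq hm0 (Or.inl rfl))
  obtain ⟨b1, b2, b3, b4, b5⟩ := TB_chain cs hpq.symm (k := 3) a2 a1 (by omega) a4
  obtain ⟨c1, c2, c3, c4, c5⟩ := TB_chain cs hpq (k := 2) b2 b1 (by omega) b4
  obtain ⟨d1, d2, d3, d4, d5⟩ := TB_chain cs hpq.symm (k := 1) c2 c1 (by omega) c4
  obtain ⟨e1, e2, e3, e4, e5⟩ := TB_chain cs hpq (k := 0) d2 d1 (by omega) d4
  simpa only [mul_assoc] using e5

end Pool.Agent.PolyCell
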