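import Pool.Agent.Tri2.FFRes
import Pool.Agent.Tri2.TB

/-!
# Output of first failures of type 1

`u = r s`, `y₁ ∈ D_{st}`, `L(y₁) = {t}` (or `y₁ = 1`: impossible: `ℓ(y₁) ≥ c - 3 ≥ 1`… only needed: `s ∉ L(y₁)`), `s y₁ ∈ D_{st}`, `ℓ(s y₁) = ℓ(y₁) + 1`. `x u y₁ = x₃ w_{st}` (`both_rd`), `x₃` is `{s,t}`-rmin, `ℓ(x u y₁) = ℓ(x₃) + c`. `T_x T_u T_{y₁ z} = T_{x u y₁} T_z = T_{x₃} T_{w_{st}} T_z` (`T_mul_T`; `y₁ z` and `x u y₁` are reduced).
`z = v z₂` (`decompL` for `{s,t}`); `u y₁ z = r (s y₁ v) z₂` is reduced, so `s y₁ v` is reduced; it is `≠ w_{st}` (otherwise `u y₁ z ∈ W_{>b}`), so `ℓ(y₁) + 1 + ℓ(v) ≤ c - 1` (`eq_wT_of_len`, `len_D_le`). If `ℓ(y₁) + 2 = c`: `v = 1`. If `ℓ(y₁) + 3 = c`: `ℓ(v) ≤ 1`; `v = 1` or `v = l`.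
-/

open CoxeterSystem

namespace Pool.Agent.PolyCell

variable {B W : Type*} [Group W] {M : CoxeterMatrix B} (cs : CoxeterSystem M W)

theorem ff_out1 {r s t : B} {b c : ℕ} (hT : T2 M r s t b c) (hbc : b < c)
    {x u y₁ z : W} (h : FirstFail cs r s b x u y₁) (h1 : FF1 cs r s t b c x u y₁)
    (hy : Lmin cs r s (y₁ * z)) (hl : cs.length (y₁ * z) = cs.length y₁ + cs.length z)
    (huy : Le cs b (u * (y₁ * z))) :
    ∃ x₃ : W, Rmin cs s t x₃ ∧
      T cs x * T cs u * T cs (y₁ * z) = T cs x₃ * T cs (wT cs s t) * T cs z ∧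
      cs.length x₃ + c = cs.length x + cs.length u + cs.length y₁ ∧
      (Lmin cs s t z ∨
        (Fac cs (b - 1) (x * cs.simple r) ∧ ∃ (l : B) (y₅ : W), (l = s ∨ l = t) ∧ z = cs.simple l * y₅ ∧
          Lmin cs s t y₅ ∧ cs.length z = 1 + cs.length y₅)) := by
  obtain ⟨hu, hyD, hds, hdt, hlen⟩ := h1
  have hc0 : M s t ≠ 0 := by
    rw [hT.mst]
    have := hT.hc
    omega
  obtain ⟨-, x₃, hx₃, hxe, hxl⟩ := both_rd cs hT.st hds hdt
  have hxu : Red cs x u := len_mul_D cs hT.rs h.hx h.hu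
  have hxuy : Red cs (x * u) y₁ := by
    have h3 : cs.length (x * u) = cs.length x + cs.length u := hxu
    have h4 := h.red
    unfold Red
    omega
  have hx₃w : Red cs x₃ (wT cs s t) := len_mul_D cs hT.st hx₃ (wT_mem cs s t)
  have hyz : Red cs y₁ z := hl
  obtain ⟨v, z₂, hz₂, hv, hz⟩ := decompL cs hT.st z
  have hzl : cs.length z = cs.length v + cs.length z₂ := by
    rw [hz]
    exact len_D_mul cs hT.st hz₂ hv
  have hsD : cs.simple s ∈ D cs s t := Subgroup.subset_closure (by simp)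
  have hg : cs.simple s * y₁ * v ∈ D cs s t :=
    Subgroup.mul_mem _ (Subgroup.mul_mem _ hsD hyD) hv
  have hgz : cs.length (cs.simple s * y₁ * v * z₂) = cs.length (cs.simple s * y₁ * v) +
      cs.length z₂ := len_D_mul cs hT.st hz₂ hg
  have he : u * (y₁ * z) = cs.simple r * (cs.simple s * y₁ * v * z₂) := by
    rw [hu, hz]
    simp only [mul_assoc]
  have hL : cs.length (u * (y₁ * z)) = cs.length u + cs.length (y₁ * z) :=
    len_D_mul cs hT.rs hy h.hu
  have hL2 := cs.length_mul_le (cs.simple r) (cs.simple s * y₁ * v * z₂)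
  rw [← he, hL, hl, cs.length_simple] at hL2
  have hL3 := cs.length_mul_le (cs.simple s * y₁) v
  have hL4 := cs.length_mul_le (cs.simple s) y₁
  rw [cs.length_simple] at hL4
  have h2 := h.h2
  have hu2 : cs.length u ≤ 2 := by
    rw [hu]
    refine (cs.length_mul_le _ _).trans ?_
    rw [cs.length_simple, cs.length_simple]
  have hgle := len_D_le cs hT.st hc0 hg
  have hgne : cs.length (cs.simple s * y₁ * v) ≠ M s t := by
    intro hh
    have hgw := eq_wT_of_len cs hT.st hc0 hg hh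
    refine huy ⟨s, t, hT.st, by rw [hT.mst]; exact hbc, cs.simple r, z₂, ?_, ?_⟩
    · rw [he, hgw, mul_assoc]
    · rw [hL, hl, cs.length_simple]
      omega
  rw [hT.mst] at hgle hgne hxl
  refine ⟨x₃, hx₃, ?_, ?_, ?_⟩
  · rw [← T_mul_T cs hyz, ← mul_assoc, T_mul_T cs hxu, T_mul_T cs hxuy, hxe, T_mul_T cs hx₃w]
  · have h4 := h.red
    omega
  · by_cases hv0 : cs.length v = 0
    · left
      rw [cs.length_eq_zero_iff] at hv0
      rw [hz, hv0, one_mul]
      exact hz₂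
    · right
      rcases hlen with h5 | ⟨h5, h6⟩
      · exfalso
        omega
      · refine ⟨h6, ?_⟩
        have hv1 : cs.length v = 1 := by omega
        obtain ⟨l, hl'⟩ := cs.length_eq_one_iff.mp hv1
        have h7 : cs.IsLeftDescent v l := by
          unfold IsLeftDescent
          rw [hl', cs.simple_mul_simple_self, cs.length_one, cs.length_simple]
          exact Nat.one_pos
        refine ⟨l, z₂, ld_of_mem_D cs hT.st hv h7, ?_, hz₂, ?_⟩
        · rw [hz, hl']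
        · omega

end Pool.Agent.PolyCell
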