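import Pool.Agent.Tri2.FFRes
import Pool.Agent.Tri2.TB

/-!
# Output of first failures of type 2

`u = s r`, `y₁ = t`; `x s t = x₃ w_{st}` (`both_rd`). `t z` reduced, `s r t z = s t (r z)` is reduced (`u (t z)` is), so `r z` is reduced. `T_x T_{sr} T_{tz} = T_x T_s T_r T_t T_z = T_x T_s T_t T_r T_z = T_{xst} T_{rz} = T_{x₃} T_{w_{st}} T_{rz}` (`T_r T_t = T_{rt} = T_{tr} = T_t T_r`).
`t ∉ L(rz)`: otherwise `r, t ∈ L(rz)`, so `t ∈ L(z)` (inverse of `rd_of_both`), but `t z` is reduced. If `s ∉ L(rz)`: `r z` is `{s,t}`-lmin: first case. If `s ∈ L(rz)`: `r z = w_{rs} y₆` (`both_ld`), `y₆` is `{r,s}`-lmin, `ℓ(rz) = b + ℓ(y₆)`. `y₅ = s r z`: `r z = s y₅`; `L(y₅) ∌ s`; `t ∉ L(y₅)`: `l2'` for `a = r z`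
(`r, s ∈ L(rz)`, `r z` is a suffix of `u t z`, in `W_{≤b}`). `T_{rz} = T_s T_{y₅}`. Moreover `x₃ (w_{st} t) = x s t t = x s`, so `T_{x₃} T_{w_{st} t} T_{y₅} = T_{xs} T_{y₅} = T_x T_s T_{y₅} = T_x T_{rz} = T_x T_{w_{rs}} T_{y₆}`. (`x s` reduced by `Rmin`; `x₃ (w_{st} t)` reduced by `len_mul_D`.) Lengths: `ℓ(x₃) + c = ℓ(x) + 2`, `ℓ(rz) = ℓ(z) + 1`.
-/

open CoxeterSystem

namespace Pool.Agent.PolyCell

variable {B W : Type*} [Group W] {M : CoxeterMatrix B} (cs : CoxeterSystem M W)

theorem ff_out2 {r s t : B} {b c : ℕ} (hT : T2 M r s t b c) (hbc : b < c)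
    {x u z : W} (h : FirstFail cs r s b x u (cs.simple t)) (h2 : FF2 cs r s t x u (cs.simple t))
    (hy : Lmin cs r s (cs.simple t * z))
    (hl : cs.length (cs.simple t * z) = 1 + cs.length z)
    (huy : Le cs b (u * (cs.simple t * z))) :
    ∃ x₃ : W, Rmin cs s t x₃ ∧
      T cs x * T cs u * T cs (cs.simple t * z) =
        T cs x₃ * T cs (wT cs s t) * T cs (cs.simple r * z) ∧
      cs.length x₃ + c = cs.length x + 2 ∧ cs.length (cs.simple r * z) = 1 + cs.length z ∧
      (Lmin cs s t (cs.simple r * z) ∨
        ∃ y₅ y₆ : W, cs.simple r * z = cs.simple s * y₅ ∧ Lmin cs s t y₅ ∧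
          cs.length (cs.simple r * z) = 1 + cs.length y₅ ∧ Lmin cs r s y₆ ∧
          cs.length (cs.simple r * z) = b + cs.length y₆ ∧
          T cs x₃ * T cs (wT cs s t * cs.simple t) * T cs y₅ =
            T cs x * T cs (wT cs r s) * T cs y₆) := by
  obtain ⟨hu, -, hds, hdt⟩ := h2
  obtain ⟨hm, x₃, hx₃, hx₃e, hx₃l⟩ := both_rd cs hT.st hds hdt
  rw [hT.mst] at hx₃l
  have hcomm : cs.simple r * cs.simple t = cs.simple t * cs.simple r :=
    comm_of_two cs hT.mrt
  -- length of `u`
  have hul : cs.length u = 2 := by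
    have h1 := h.h2
    have h3 := cs.length_mul_le (cs.simple s) (cs.simple r)
    rw [← hu, cs.length_simple, cs.length_simple] at h3
    omega
  -- length of `x s t`
  have hxst : cs.length (x * cs.simple s * cs.simple t) = cs.length x + 2 := by
    have h1 := h.red
    rw [hul, cs.length_simple] at h1
    have h3 : x * u * cs.simple t = x * cs.simple s * cs.simple t * cs.simple r := by
      rw [hu]
      simp only [mul_assoc]
      rw [hcomm]
    rw [h3] at h1
    have h4 := cs.length_mul_le (x * cs.simple s * cs.simple t) (cs.simple r)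
    have h5 := cs.length_mul_le (x * cs.simple s) (cs.simple t)
    have h6 := cs.length_mul_le x (cs.simple s)
    rw [cs.length_simple] at h4 h5 h6
    omega
  have hxs : cs.length (x * cs.simple s) = cs.length x + 1 := by
    have h5 := cs.length_mul_le (x * cs.simple s) (cs.simple t)
    have h6 := cs.length_mul_le x (cs.simple s)
    rw [cs.length_simple] at h5 h6
    omega
  -- length of `r z`
  have huyl : cs.length (u * (cs.simple t * z)) = 3 + cs.length z := by
    rw [len_D_mul cs hT.rs hy h.hu, hul, hl]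
    omega
  have huye : u * (cs.simple t * z) = cs.simple s * cs.simple t * (cs.simple r * z) := by
    rw [hu]
    simp only [mul_assoc]
    rw [← mul_assoc (cs.simple r), hcomm, mul_assoc]
  have hstl : cs.length (cs.simple s * cs.simple t) ≤ 2 := by
    have := cs.length_mul_le (cs.simple s) (cs.simple t)
    rwa [cs.length_simple, cs.length_simple] at this
  have hrzle : cs.length (cs.simple r * z) ≤ 1 + cs.length z := by
    have := cs.length_mul_le (cs.simple r) z
    rwa [cs.length_simple] at this
  have hge : 3 + cs.length z ≤ cs.length (cs.simple s * cs.simple t) +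
      cs.length (cs.simple r * z) := by
    rw [← huyl, huye]
    exact cs.length_mul_le _ _
  have hrz : cs.length (cs.simple r * z) = 1 + cs.length z := by omega
  have hst2 : cs.length (cs.simple s * cs.simple t) = 2 := by omega
  have hred : Red cs (cs.simple s * cs.simple t) (cs.simple r * z) := by
    unfold Red
    rw [← huye, huyl]
    omega
  have hlerz : Le cs b (cs.simple r * z) := le_suffix cs hred (huye ▸ huy)
  -- descents
  have hrL : cs.IsLeftDescent (cs.simple r * z) r := by
    rw [cs.isLeftDescent_iff, cs.simple_mul_simple_cancel_left]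
    omega
  have htz : ¬ cs.IsLeftDescent z t := by
    rw [cs.not_isLeftDescent_iff]
    omega
  have htL : ¬ cs.IsLeftDescent (cs.simple r * z) t := by
    intro hc
    apply htz
    have h1 := rd_of_both cs hT.rt.symm (w := (cs.simple r * z)⁻¹)
      (cs.isRightDescent_inv_iff.2 hc) (cs.isRightDescent_inv_iff.2 hrL)
    rw [mul_inv_rev, cs.inv_simple, mul_assoc, cs.simple_mul_simple_self, mul_one,
      cs.isRightDescent_inv_iff] at h1
    exact h1
  -- products
  have hxsn : ¬ cs.IsRightDescent x s := h.hx.2
  have pxs : T cs x * T cs (cs.simple s) = T cs (x * cs.simple s) := T_mul_s cs hxsn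
  have pxst : T cs (x * cs.simple s) * T cs (cs.simple t) =
      T cs (x * cs.simple s * cs.simple t) := by
    apply T_mul_T
    unfold Red
    rw [hxst, hxs, cs.length_simple]
  have px₃ : T cs x₃ * T cs (wT cs s t) = T cs (x * cs.simple s * cs.simple t) := by
    rw [hx₃e]
    apply T_mul_T
    unfold Red
    rw [← hx₃e, hx₃l, length_wT cs hT.st, hT.mst]
  have pu : T cs u = T cs (cs.simple s) * T cs (cs.simple r) := by
    rw [hu]
    refine (T_mul_T cs ?_).symm
    unfold Red
    rw [← hu, hul, cs.length_simple, cs.length_simple]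
  have ptz : T cs (cs.simple t * z) = T cs (cs.simple t) * T cs z := (s_mul_T cs htz).symm
  have hrt2 : cs.length (cs.simple r * cs.simple t) = 2 := by
    have h1 := h.red
    have h3 : x * u * cs.simple t = x * cs.simple s * (cs.simple r * cs.simple t) := by
      rw [hu]
      simp only [mul_assoc]
    rw [h3, hul, cs.length_simple] at h1
    have h4 := cs.length_mul_le (x * cs.simple s) (cs.simple r * cs.simple t)
    have h5 := cs.length_mul_le (cs.simple r) (cs.simple t)
    rw [cs.length_simple, cs.length_simple] at h5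
    omega
  have prt : T cs (cs.simple r) * T cs (cs.simple t) = T cs (cs.simple t) * T cs (cs.simple r) := by
    rw [T_mul_T cs (x := cs.simple r) (y := cs.simple t),
      T_mul_T cs (x := cs.simple t) (y := cs.simple r), hcomm]
    · unfold Red
      rw [← hcomm, hrt2, cs.length_simple, cs.length_simple]
    · unfold Red
      rw [hrt2, cs.length_simple, cs.length_simple]
  have prz : T cs (cs.simple r) * T cs z = T cs (cs.simple r * z) := by
    apply T_mul_T
    unfold Red
    rw [hrz, cs.length_simple]
  refine ⟨x₃, hx₃, ?_, ?_, hrz, ?_⟩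
  · rw [px₃, ← pxst, ← pxs, pu, ptz, ← prz]
    calc T cs x * (T cs (cs.simple s) * T cs (cs.simple r)) * (T cs (cs.simple t) * T cs z)
        = T cs x * T cs (cs.simple s) * (T cs (cs.simple r) * T cs (cs.simple t)) * T cs z := by
          simp only [mul_assoc]
      _ = T cs x * T cs (cs.simple s) * T cs (cs.simple t) * (T cs (cs.simple r) * T cs z) := by
          rw [prt]
          simp only [mul_assoc]
  · rw [← hx₃l, hxst]
  · by_cases hsL : cs.IsLeftDescent (cs.simple r * z) s
    · right
      obtain ⟨-, y₆, hy₆, hy₆e, hy₆l⟩ := both_ld cs hT.rs hrL hsL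
      rw [hT.mrs] at hy₆l
      have hy5l : cs.length (cs.simple r * z) =
          1 + cs.length (cs.simple s * (cs.simple r * z)) := by
        have := (cs.isLeftDescent_iff).1 hsL
        omega
      have hsy : ¬ cs.IsLeftDescent (cs.simple s * (cs.simple r * z)) s :=
        (cs.isLeftDescent_iff_not_isLeftDescent_mul).1 hsL
      refine ⟨cs.simple s * (cs.simple r * z), y₆, ?_, ⟨hsy, l2' cs hT hbc hrL hsL hlerz⟩, hy5l,
        hy₆, hy₆l, ?_⟩
      · rw [cs.simple_mul_simple_cancel_left]
      · have e1 : x₃ * (wT cs s t * cs.simple t) = x * cs.simple s := by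
          rw [← mul_assoc, ← hx₃e, mul_assoc, cs.simple_mul_simple_self, mul_one]
        have e2 : T cs x₃ * T cs (wT cs s t * cs.simple t) = T cs (x * cs.simple s) := by
          rw [← e1]
          apply T_mul_T
          unfold Red
          apply len_mul_D cs hT.st hx₃
          exact Subgroup.mul_mem _ (wT_mem cs s t)
            (Subgroup.subset_closure (Set.mem_insert_of_mem _ (Set.mem_singleton _)))
        have e3 : T cs (cs.simple s) * T cs (cs.simple s * (cs.simple r * z)) =
            T cs (cs.simple r * z) := by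
          rw [s_mul_T cs hsy, cs.simple_mul_simple_cancel_left]
        have e4 : T cs (wT cs r s) * T cs y₆ = T cs (cs.simple r * z) := by
          rw [hy₆e]
          apply T_mul_T
          unfold Red
          rw [← hy₆e, hy₆l, length_wT cs hT.rs, hT.mrs]
        rw [e2, ← pxs, mul_assoc, e3, mul_assoc, e4]
    · left
      exact ⟨hsL, htL⟩

end Pool.Agent.PolyCell
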