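import Pool.Agent.Tri2.TB

/-!
# Walls

`wall_s`: `wall_step` (Dih3.lean) with its `t := s`, `e := t`: `y = ν y₂`, `s ν = w_{st}`, `ℓ(ν) + 1 = c`, `ℓ(y) = ℓ(ν) + ℓ(y₂)`; `s y = y k` has length `ℓ(y) + 1`, so `s y = w_{st} y₂` is a reduced factorisation, `c > b`.
`wall_rt`: `y ≠ 1` is `{r,s}`-lmin, so `t ∈ L(y)`; `wall_step` with `t := r`, `e := t`, `M r t = 2`: `y = t y₂`, `y₂ k = r y₂`, `k ∉ R(y₂)`, `y₂` is `{r,t}`-lmin. If `y₂ = 1`: `k = r` (`cs.simple_injective`? otherwise `rd_simple` (PolyTri/T3.lean)). Otherwise `L(y₂) = {s}`: `wall_step` with `t := r`, `e := s`: `y₂ = ν y₃`,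
`r ν = w_{rs}`, `ℓ(ν) + 1 = b`, `s ∈ L(ν)`, `r ∉ L(ν)` since `r ν` is longer.
`xmin`: `u = (u r) r`, `x u t = x (ur) r t = x (ur) t r = X r` (`comm_of_two`), so `X` is a prefix of `x u t` (lengths), in `W_{≤b}`, `t ∈ R(X)`. `s ∈ R(X)`: `fac_of_both`. `r ∈ R(X)`: then `r ∈ R(X t) = R(x (ur))` (`rd_of_both`), so `r ∈ R(ur)` (`rd_mul_D`): no.
-/

open CoxeterSystem

namespace Pool.Agent.PolyCell

variable {B W : Type*} [Group W] {M : CoxeterMatrix B} (cs : CoxeterSystem M W)

theorem wall_s {r s t : B} {b c : ℕ} (hT : T2 M r s t b c) (hbc : b < c) {y : W} {k : B}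
    (hy : cs.IsLeftDescent y t) (hk : ¬ cs.IsRightDescent y k)
    (h : y * cs.simple k = cs.simple s * y) : Fac cs b (cs.simple s * y) := by
  obtain ⟨-, ν, y2, hy2, hν, -, hl, hw, hνl, -, -, -⟩ := wall_step cs h hk hy hT.st
  have hk' := (cs.not_isRightDescent_iff).1 hk
  refine ⟨s, t, hT.st, by rw [hT.mst]; exact hbc, 1, y2, ?_, ?_⟩
  · rw [one_mul, ← hw, mul_assoc, ← hy2]
  · rw [← h, hk', cs.length_one]
    omega

theorem wall_rt {r s t : B} {b c : ℕ} (hT : T2 M r s t b c) {y : W} {k : B}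
    (hy : Lmin cs r s y) (hy1 : y ≠ 1) (hk : ¬ cs.IsRightDescent y k)
    (h : y * cs.simple k = cs.simple r * y) :
    (y = cs.simple t ∧ k = r) ∨
      ∃ ν y₃ : W, y = cs.simple t * ν * y₃ ∧ ν ∈ D cs r s ∧ cs.simple r * ν = wT cs r s ∧
        cs.length ν + 1 = b ∧ cs.IsLeftDescent ν s ∧ ¬ cs.IsLeftDescent ν r ∧ Lmin cs r s y₃ ∧
        cs.length y = 1 + cs.length ν + cs.length y₃ := by
  have hyt : cs.IsLeftDescent y t := by
    obtain ⟨e, he⟩ := cs.exists_leftDescent_of_ne_one hy1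
    rcases hT.all e with rfl | rfl | rfl
    · exact absurd he hy.1
    · exact absurd he hy.2
    · exact he
  obtain ⟨-, ν, y2, hyν, hν, hmin, hl, hw, hνl, -, hky2, hcomm⟩ := wall_step cs h hk hyt hT.rt
  obtain ⟨hνt, hy2k⟩ := hcomm hT.mrt
  subst hνt
  rw [cs.length_simple] at hl
  by_cases hy21 : y2 = 1
  · subst hy21
    left
    rw [mul_one] at hyν
    refine ⟨hyν, ?_⟩
    rw [one_mul, mul_one] at hy2k
    refine rd_simple cs (g := r) ?_
    rw [← hy2k]
    exact rd_simple_self cs k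
  · right
    have hy2s : cs.IsLeftDescent y2 s := by
      obtain ⟨e, he⟩ := cs.exists_leftDescent_of_ne_one hy21
      rcases hT.all e with rfl | rfl | rfl
      · exact absurd he hmin.1
      · exact he
      · exact absurd he hmin.2
    obtain ⟨-, ν', y3, hyν', hν', hmin', hl', hw', hνl', hνs, hky3, -⟩ :=
      wall_step cs hy2k hky2 hy2s hT.rs
    rw [hT.mrs] at hνl'
    refine ⟨ν', y3, ?_, hν', hw', hνl', hνs, ?_, hmin', by omega⟩
    · rw [hyν, hyν', mul_assoc]
    · rw [cs.not_isLeftDescent_iff, hw', length_wT cs hT.rs, hT.mrs]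
      omega

theorem xmin {r s t : B} {b c : ℕ} (hT : T2 M r s t b c) (hbc : b < c) {x u : W}
    (hx : Rmin cs r s x) (hu : u ∈ D cs r s) (hr : cs.IsRightDescent u r)
    (hl : cs.length (x * u * cs.simple t) = cs.length x + cs.length u + 1)
    (hle : Le cs b (x * u * cs.simple t)) :
    Rmin cs r s (x * (u * cs.simple r) * cs.simple t) ∧
      cs.length (x * (u * cs.simple r) * cs.simple t) = cs.length x + cs.length u ∧
      x * u * cs.simple t = x * (u * cs.simple r) * cs.simple t * cs.simple r ∧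
      Le cs b (x * (u * cs.simple r) * cs.simple t) := by
  have hrD : cs.simple r ∈ D cs r s := Subgroup.subset_closure (by simp)
  have hD : u * cs.simple r ∈ D cs r s := mul_mem hu hrD
  have hlu := cs.isRightDescent_iff.1 hr
  have hcomm := comm_of_two cs hT.mrt
  have hlx := len_mul_D cs hT.rs hx hD
  have e1 : x * u * cs.simple t = x * (u * cs.simple r) * cs.simple t * cs.simple r := by
    have : x * (u * cs.simple r) * cs.simple t * cs.simple r =
        x * u * (cs.simple r * (cs.simple t * cs.simple r)) := by simp only [mul_assoc]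
    rw [this, ← hcomm, ← mul_assoc (cs.simple r), cs.simple_mul_simple_self, one_mul]
  have h2 := cs.length_mul_le (x * (u * cs.simple r) * cs.simple t) (cs.simple r)
  have h3 := cs.length_mul_le (x * (u * cs.simple r)) (cs.simple t)
  rw [← e1, cs.length_simple, hl] at h2
  rw [cs.length_simple, hlx] at h3
  have hlX : cs.length (x * (u * cs.simple r) * cs.simple t) = cs.length x + cs.length u := by
    omega
  have hleX : Le cs b (x * (u * cs.simple r) * cs.simple t) := by
    refine le_prefix cs (y := cs.simple r) ?_ ?_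
    · unfold Red
      rw [← e1, hl, hlX, cs.length_simple]
    · rw [← e1]
      exact hle
  have ht : cs.IsRightDescent (x * (u * cs.simple r) * cs.simple t) t := by
    rw [cs.isRightDescent_iff, cs.simple_mul_simple_cancel_right, hlX, hlx]
    omega
  refine ⟨⟨?_, ?_⟩, hlX, e1, hleX⟩
  · intro h
    have h4 := rd_of_both cs hT.rt h ht
    rw [cs.simple_mul_simple_cancel_right] at h4
    have h5 := (rd_mul_D cs hT.rs (Or.inl rfl) hx hD).1 h4
    have h6 := cs.isRightDescent_iff.1 h5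
    rw [cs.simple_mul_simple_cancel_right] at h6
    omega
  · intro h
    exact hleX (fac_of_both cs hT.st (by rw [hT.mst]; exact hbc) h ht)

end Pool.Agent.PolyCell
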