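import Pool.Agent.Tri2.FFRes
import Pool.Agent.Tri2.Wall

/-!
# Output of first failures of type 3

`u = u₁ r`, `y₁ = t ν`, `r ν = w_{rs} = s ν'`, `ν' = s w_{rs}` (length `b - 1`, `L(ν') = {r}`). `u y₁ z = u₁ t w_{rs} z` is reduced, so `w_{rs} z` is reduced. `T_x T_u T_{tνz} = T_x T_{u₁} T_r T_t T_ν T_z = T_x T_{u₁} T_t T_{w_{rs}} T_z = T_{x u₁ t s} T_{ν'} T_z = T_{x₃} T_{w_{st}} T_{ν' z}`, where `x u₁ t s = x₃ w_{st}` (`both_rd`); `x u₁ t` is
`{r,s}`-rmin of length `ℓ(x) + ℓ(u)` (`xmin`: `x u t` is reduced and in `W_{≤b}` by `FirstFail.min` with `y₀ = t`), so `ℓ(x u₁ t s) = ℓ(x) + ℓ(u) + 1`. `ν' z` is reduced, `s ∉ L(ν'z)` since `s ν' z = w_{rs} z` is longer. `t ∉ L(ν' z)`: `r ∈ L(ν' z)`; `t ∈ L(ν'z)` would give `t ∈ L(r ν' z)` (inverse of `rd_of_both`), and `s ∈ L(r ν' z)`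
(`b - 1 ≥ 2`: `ν' = r s …`), so `r ν' z ∈ W_{>b}` (`fac_of_both_left`), but it is a suffix of `u y₁ z ∈ W_{≤b}`. So `y₄ = ν' z`. Lengths: `ℓ(y₄) = b - 1 + ℓ(z)`; `ℓ(x₃) + c = ℓ(x) + ℓ(u) + 1`; total `ℓ(x) + ℓ(u) + b + ℓ(z)`, `ℓ(y₁) = b`.
-/

open CoxeterSystem

namespace Pool.Agent.PolyCell

variable {B W : Type*} [Group W] {M : CoxeterMatrix B} (cs : CoxeterSystem M W)

private theorem FFOut3_ld {i j : B} (hij : i ≠ j) {w : W} (h1 : cs.IsLeftDescent w i)
    (h2 : cs.IsLeftDescent w j) : cs.IsLeftDescent (cs.simple j * w) i := by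
  rw [← cs.isRightDescent_inv_iff] at h1 h2 ⊢
  rw [mul_inv_rev, cs.inv_simple]
  exact rd_of_both cs hij h1 h2

private theorem FFOut3_ld' {i j : B} (hij : i ≠ j) (hm : 3 ≤ M i j) {w : W}
    (h1 : cs.IsLeftDescent w i) (h2 : cs.IsLeftDescent w j) :
    cs.IsLeftDescent (cs.simple i * (cs.simple j * w)) j := by
  rw [← cs.isRightDescent_inv_iff] at h1 h2 ⊢
  rw [mul_inv_rev, mul_inv_rev, cs.inv_simple, cs.inv_simple]
  exact rd_of_both' cs hij hm h1 h2

/-- the main part, with the data of type 3 unpacked -/
private theorem FFOut3_main {r s t : B} {b c : ℕ} (hT : T2 M r s t b c) (hbc : b < c)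
    {x u ν z : W} (hx : Rmin cs r s x) (hu : u ∈ D cs r s) (hur : cs.IsRightDescent u r)
    (hlt : cs.length (x * u * cs.simple t) = cs.length x + cs.length u + 1)
    (hlet : Le cs b (x * u * cs.simple t))
    (hνD : ν ∈ D cs r s) (hrν : cs.simple r * ν = wT cs r s) (hνl : cs.length ν + 1 = b)
    (hs3 : cs.IsRightDescent (x * (u * cs.simple r) * cs.simple t * cs.simple s) s)
    (ht3 : cs.IsRightDescent (x * (u * cs.simple r) * cs.simple t * cs.simple s) t)
    (hy : Lmin cs r s (cs.simple t * ν * z))
    (hl : cs.length (cs.simple t * ν * z) = 1 + cs.length ν + cs.length z)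
    (huy : Le cs b (u * (cs.simple t * ν * z))) :
    ∃ x₃ y₄ : W, Rmin cs s t x₃ ∧ Lmin cs s t y₄ ∧
      T cs x * T cs u * T cs (cs.simple t * ν * z) = T cs x₃ * T cs (wT cs s t) * T cs y₄ ∧
      cs.length x₃ + c + cs.length y₄ = cs.length x + cs.length u +
        cs.length (cs.simple t * ν * z) := by
  have hb := hT.hb
  have hc := hT.hc
  have hM : M r s ≠ 0 := by rw [hT.mrs]; omega
  obtain ⟨hXmin, hXl, hXe, -⟩ := xmin cs hT hbc hx hu hur hlt hlet
  set u₁ := u * cs.simple r with hu₁
  have huu : u = u₁ * cs.simple r := by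
    rw [hu₁, mul_assoc, cs.simple_mul_simple_self, mul_one]
  have hlu : cs.length u = cs.length u₁ + 1 := by
    have h1 : cs.length u₁ < cs.length u := hur
    have h2 := cs.length_mul_simple u r
    rw [← hu₁] at h2
    omega
  have hcomm : cs.simple r * cs.simple t = cs.simple t * cs.simple r := comm_of_two cs hT.mrt
  set w := wT cs r s with hw
  have hwl : cs.length w = b := by rw [hw, length_wT cs hT.rs, hT.mrs]
  -- the product `u y₁ z`
  have he : u * (cs.simple t * ν * z) = u₁ * cs.simple t * (w * z) := by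
    rw [huu, ← hrν]
    simp only [mul_assoc]
    rw [← mul_assoc (cs.simple r) (cs.simple t), hcomm]
    simp only [mul_assoc]
  have hel : cs.length (u * (cs.simple t * ν * z)) = cs.length u₁ + 1 + b + cs.length z := by
    rw [len_D_mul cs hT.rs hy hu, hl]
    omega
  have hwz : cs.length (w * z) = b + cs.length z := by
    have h1 := cs.length_mul_le (u₁ * cs.simple t) (w * z)
    have h2 := cs.length_mul_le u₁ (cs.simple t)
    have h3 := cs.length_mul_le w z
    rw [← he, hel] at h1
    rw [cs.length_simple] at h2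
    omega
  -- `ν' = s w`
  set ν' := cs.simple s * w with hν'
  have hsν : cs.simple s * ν' = w := by
    rw [hν', ← mul_assoc, cs.simple_mul_simple_self, one_mul]
  have hν'l : cs.length ν' + 1 = b := by
    have h1 : cs.length ν' < cs.length w :=
      ld_wT cs hT.rs hM (Or.inr rfl)
    have h2 := cs.length_simple_mul w s
    rw [← hν'] at h2
    omega
  have hν'z : cs.length (ν' * z) = cs.length ν' + cs.length z := by
    have h1 := cs.length_mul_le (cs.simple s) (ν' * z)
    have h2 := cs.length_mul_le ν' z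
    rw [← mul_assoc, hsν, hwz, cs.length_simple] at h1
    omega
  have hr' : cs.IsLeftDescent ν' r :=
    FFOut3_ld cs hT.rs (ld_wT cs hT.rs hM (Or.inl rfl)) (ld_wT cs hT.rs hM (Or.inr rfl))
  have hs' : cs.IsLeftDescent (cs.simple r * ν') s :=
    FFOut3_ld' cs hT.rs (by rw [hT.mrs]; exact hb) (ld_wT cs hT.rs hM (Or.inl rfl))
      (ld_wT cs hT.rs hM (Or.inr rfl))
  have hrl : cs.length (cs.simple r * ν') + 2 = b := by
    have h1 : cs.length (cs.simple r * ν') < cs.length ν' := hr'
    have h2 := cs.length_simple_mul ν' r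
    omega
  have hsl : cs.length (cs.simple s * (cs.simple r * ν')) + 3 = b := by
    have h1 : cs.length (cs.simple s * (cs.simple r * ν')) < cs.length (cs.simple r * ν') := hs'
    have h2 := cs.length_simple_mul (cs.simple r * ν') s
    omega
  have hrz : cs.length (cs.simple r * (ν' * z)) + 2 = b + cs.length z := by
    have h1 := cs.length_mul_le (cs.simple r) (cs.simple r * (ν' * z))
    rw [cs.simple_mul_simple_cancel_left, cs.length_simple] at h1
    have h2 := cs.length_mul_le (cs.simple r * ν') z
    rw [mul_assoc] at h2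
    omega
  -- left descents of `ν' z`
  have hr4 : cs.IsLeftDescent (ν' * z) r := by
    show cs.length (cs.simple r * (ν' * z)) < cs.length (ν' * z)
    omega
  have hs4 : ¬ cs.IsLeftDescent (ν' * z) s := by
    intro h
    have h1 : cs.length (cs.simple s * (ν' * z)) < cs.length (ν' * z) := h
    rw [← mul_assoc, hsν] at h1
    omega
  have hs5 : cs.IsLeftDescent (cs.simple r * (ν' * z)) s := by
    show cs.length (cs.simple s * (cs.simple r * (ν' * z))) < cs.length (cs.simple r * (ν' * z))
    have h2 := cs.length_mul_le (cs.simple s * (cs.simple r * ν')) z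
    rw [mul_assoc, mul_assoc] at h2
    omega
  have hle5 : Le cs b (cs.simple r * (ν' * z)) := by
    have h1 : u * (cs.simple t * ν * z) =
        u₁ * cs.simple t * cs.simple s * cs.simple r * (cs.simple r * (ν' * z)) := by
      rw [he, ← hsν]
      simp only [mul_assoc, cs.simple_mul_simple_cancel_left]
    have h2 : cs.length (u₁ * cs.simple t * cs.simple s * cs.simple r) ≤ cs.length u₁ + 3 := by
      have h3 := cs.length_mul_le (u₁ * cs.simple t * cs.simple s) (cs.simple r)
      have h4 := cs.length_mul_le (u₁ * cs.simple t) (cs.simple s)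
      have h5 := cs.length_mul_le u₁ (cs.simple t)
      rw [cs.length_simple] at h3 h4 h5
      omega
    have h3 : Red cs (u₁ * cs.simple t * cs.simple s * cs.simple r)
        (cs.simple r * (ν' * z)) := by
      unfold Red
      have h4 := cs.length_mul_le (u₁ * cs.simple t * cs.simple s * cs.simple r)
        (cs.simple r * (ν' * z))
      rw [← h1, hel] at h4 ⊢
      omega
    rw [h1] at huy
    exact le_suffix cs h3 huy
  have ht4 : ¬ cs.IsLeftDescent (ν' * z) t := by
    intro h
    have h1 : cs.IsLeftDescent (cs.simple r * (ν' * z)) t :=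
      FFOut3_ld cs hT.rt.symm h hr4
    exact hle5 (fac_of_both_left cs hT.st (by rw [hT.mst]; exact hbc) hs5 h1)
  -- the left part
  have hXs : cs.length (x * u₁ * cs.simple t * cs.simple s) = cs.length x + cs.length u + 1 := by
    have h1 := (cs.not_isRightDescent_iff).1 hXmin.2
    omega
  obtain ⟨-, x₃, hx₃, hxe, hxl⟩ := both_rd cs hT.st hs3 ht3
  rw [hT.mst] at hxl
  refine ⟨x₃, ν' * z, hx₃, ⟨hs4, ht4⟩, ?_, ?_⟩
  · have a1 : T cs u = T cs u₁ * T cs (cs.simple r) := by
      rw [T_mul_T cs (show Red cs u₁ (cs.simple r) by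
        unfold Red; rw [← huu, cs.length_simple]; omega), ← huu]
    have hνz : cs.length (ν * z) = cs.length ν + cs.length z := by
      have h1 := cs.length_mul_le (cs.simple t) (ν * z)
      have h2 := cs.length_mul_le ν z
      rw [← mul_assoc, hl, cs.length_simple] at h1
      omega
    have a2 : T cs (cs.simple t * ν * z) = T cs (cs.simple t) * (T cs ν * T cs z) := by
      rw [T_mul_T cs (show Red cs ν z from hνz), T_mul_T cs (show Red cs (cs.simple t) (ν * z) by
        unfold Red; rw [← mul_assoc, hl, hνz, cs.length_simple]; omega), mul_assoc]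
    have hlrt : cs.length (cs.simple r * cs.simple t) = 2 := by
      have h1 : u * (cs.simple t * ν * z) = u₁ * (cs.simple r * cs.simple t) * (ν * z) := by
        rw [huu]
        simp only [mul_assoc]
      have h2 := cs.length_mul_le (u₁ * (cs.simple r * cs.simple t)) (ν * z)
      have h3 := cs.length_mul_le u₁ (cs.simple r * cs.simple t)
      have h4 := cs.length_mul_le (cs.simple r) (cs.simple t)
      rw [← h1, hel, hνz] at h2
      rw [cs.length_simple, cs.length_simple] at h4
      omega
    have a3 : T cs (cs.simple r) * T cs (cs.simple t) = T cs (cs.simple t) * T cs (cs.simple r) := by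
      rw [T_mul_T cs (show Red cs (cs.simple r) (cs.simple t) by
        unfold Red; rw [hlrt, cs.length_simple, cs.length_simple]),
        T_mul_T cs (show Red cs (cs.simple t) (cs.simple r) by
        unfold Red; rw [← hcomm, hlrt, cs.length_simple, cs.length_simple]), hcomm]
    have a4 : T cs (cs.simple r) * T cs ν = T cs w := by
      rw [T_mul_T cs (show Red cs (cs.simple r) ν by
        unfold Red; rw [hrν, hwl, cs.length_simple]; omega), hrν]
    have a5 : T cs w = T cs (cs.simple s) * T cs ν' := by
      rw [T_mul_T cs (show Red cs (cs.simple s) ν' by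
        unfold Red; rw [hsν, hwl, cs.length_simple]; omega), hsν]
    have a6 : T cs ν' * T cs z = T cs (ν' * z) := T_mul_T cs hν'z
    have hxu : cs.length (x * u₁) = cs.length x + cs.length u₁ := by
      have h1 := cs.length_mul_le (x * u₁) (cs.simple t)
      have h2 := cs.length_mul_le x u₁
      rw [hXl, cs.length_simple] at h1
      omega
    have a7 : T cs x * T cs u₁ * T cs (cs.simple t) * T cs (cs.simple s) =
        T cs x₃ * T cs (wT cs s t) := by
      rw [T_mul_T cs (show Red cs x u₁ from hxu),
        T_mul_T cs (show Red cs (x * u₁) (cs.simple t) by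
          unfold Red; rw [hXl, hxu, cs.length_simple]; omega),
        T_mul_T cs (show Red cs (x * u₁ * cs.simple t) (cs.simple s) by
          unfold Red; rw [hXs, hXl, cs.length_simple]),
        T_mul_T cs (show Red cs x₃ (wT cs s t) by
          unfold Red; rw [← hxe, hxl, length_wT cs hT.st, hT.mst]), ← hxe]
    calc T cs x * T cs u * T cs (cs.simple t * ν * z)
        = T cs x * T cs u₁ * (T cs (cs.simple r) * T cs (cs.simple t)) * (T cs ν * T cs z) := by
          rw [a1, a2]
          simp only [mul_assoc]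
      _ = T cs x * T cs u₁ * T cs (cs.simple t) * (T cs (cs.simple r) * T cs ν) * T cs z := by
          rw [a3]
          simp only [mul_assoc]
      _ = T cs x * T cs u₁ * T cs (cs.simple t) * T cs (cs.simple s) * (T cs ν' * T cs z) := by
          rw [a4, a5]
          simp only [mul_assoc]
      _ = T cs x₃ * T cs (wT cs s t) * T cs (ν' * z) := by
          rw [a7, a6]
  · rw [hl, hν'z]
    omega

theorem ff_out3 {r s t : B} {b c : ℕ} (hT : T2 M r s t b c) (hbc : b < c)
    {x u y₁ z : W} (h : FirstFail cs r s b x u y₁) (h3 : FF3 cs r s t b x u y₁)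
    (hy : Lmin cs r s (y₁ * z)) (hl : cs.length (y₁ * z) = cs.length y₁ + cs.length z)
    (huy : Le cs b (u * (y₁ * z))) :
    ∃ x₃ y₄ : W, Rmin cs s t x₃ ∧ Lmin cs s t y₄ ∧
      T cs x * T cs u * T cs (y₁ * z) = T cs x₃ * T cs (wT cs s t) * T cs y₄ ∧
      cs.length x₃ + c + cs.length y₄ = cs.length x + cs.length u + cs.length (y₁ * z) := by
  have hb := hT.hb
  obtain ⟨hcase, ν, rfl, hνD, hrν, hνl, hνs, hνr, hs3, ht3⟩ := h3
  -- `r` is a right descent of `u`
  have hur : cs.IsRightDescent u r := by
    show cs.length (u * cs.simple r) < cs.length u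
    rcases hcase with hu | ⟨hu, hu3, -, -⟩
    · have h1 := h.h2
      have h2 : u * cs.simple r = cs.simple s := by
        rw [hu, mul_assoc, cs.simple_mul_simple_self, mul_one]
      rw [h2, cs.length_simple]
      omega
    · have h2 : u * cs.simple r = cs.simple r * cs.simple s := by
        rw [hu]
        simp only [mul_assoc, cs.simple_mul_simple_self, mul_one]
      have h4 := cs.length_mul_le (cs.simple r) (cs.simple s)
      rw [cs.length_simple, cs.length_simple] at h4
      rw [h2]
      omega
  have hlt : cs.length (cs.simple t * ν) = 1 + cs.length ν := by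
    have h1 : ¬ cs.IsLeftDescent ν t := by
      intro h2
      rcases ld_of_mem_D cs hT.rs hνD h2 with h3 | h3
      · exact hT.rt h3.symm
      · exact hT.st h3.symm
    have h2 := (cs.not_isLeftDescent_iff).1 h1
    omega
  have hν1 : ν ≠ 1 := by
    intro h1
    rw [h1, cs.length_one] at hνl
    omega
  have hxt : cs.length (x * u * cs.simple t) = cs.length x + cs.length u + 1 := by
    have h1 := h.red
    have h2 := cs.length_mul_le (x * u * cs.simple t) ν
    have h3 := cs.length_mul_le (x * u) (cs.simple t)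
    have h4 := cs.length_mul_le x u
    rw [← mul_assoc (x * u)] at h1
    rw [cs.length_simple] at h3
    omega
  have hle := h.min (cs.simple t) ν rfl (by rw [hlt, cs.length_simple]) hν1
  exact FFOut3_main cs hT hbc h.hx h.hu hur hxt hle hνD hrν hνl hs3 ht3 hy
    (by rw [hl, hlt]) huy

end Pool.Agent.PolyCell
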