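import Pool.Agent.Tri2.FFFirst
import Pool.Agent.Tri2.FFOut1
import Pool.Agent.Tri2.FFOut2
import Pool.Agent.Tri2.FFOut3

/-!
# Output: `T_x T_u T_y` for `T = {r,s}`, `ℓ(u) ≥ 2`, `x u, u y ∈ W_{≤b}`

`ff_dich`, `ff_first`, `ff_out1`, `ff_out2`, `ff_out3`. (`ℓ(rs) = ℓ(sr) = 2`; in type 3 `ℓ(u) = 2`, or `ℓ(u) = 3` with `b = 4` and `Fac (b-1) (x r)`.)
-/

open CoxeterSystem

namespace Pool.Agent.PolyCell

variable {B W : Type*} [Group W] {M : CoxeterMatrix B} (cs : CoxeterSystem M W)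

/-- `T_{x₃} T_{w_{st}} T_{y₄}` -/
def FFE0 (r s t : B) (b c : ℕ) (x u y : W) : Prop :=
  ∃ x₃ y₄ : W, Rmin cs s t x₃ ∧ Lmin cs s t y₄ ∧
    cs.length x₃ + c + cs.length y₄ = cs.length x + cs.length u + cs.length y ∧
    T cs x * T cs u * T cs y = T cs x₃ * T cs (wT cs s t) * T cs y₄ ∧
    (cs.length u = 2 ∨ (cs.length u = 3 ∧ b = 4 ∧ Fac cs (b - 1) (x * cs.simple r)))

/-- `T_{x₃} T_{w_{st}} T_l T_{y₅}` -/
def FFE1 (r s t : B) (b c : ℕ) (x u y : W) : Prop :=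
  cs.length u = 2 ∧ ∃ (x₃ y₅ : W) (l l' : B), ((l = s ∧ l' = t) ∨ (l = t ∧ l' = s)) ∧
    Rmin cs s t x₃ ∧ Lmin cs s t y₅ ∧
    cs.length x₃ + c + 1 + cs.length y₅ = cs.length x + cs.length u + cs.length y ∧
    T cs x * T cs u * T cs y =
      T cs x₃ * T cs (wT cs s t) * T cs (cs.simple l) * T cs y₅ ∧
    (Fac cs (b - 1) (x * cs.simple r) ∨
      (u = cs.simple s * cs.simple r ∧ l = s ∧ ∃ y₆ : W, Lmin cs r s y₆ ∧
        cs.length x + b + cs.length y₆ + 2 = cs.length x + cs.length u + cs.length y ∧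
        T cs x₃ * T cs (wT cs s t * cs.simple t) * T cs y₅ =
          T cs x * T cs (wT cs r s) * T cs y₆))

theorem ff_out {r s t : B} {b c : ℕ} (hT : T2 M r s t b c) (hbc : b < c)
    (h37 : b = 3 → 7 ≤ c) {x u y : W} (hx : Rmin cs r s x) (hu : u ∈ D cs r s)
    (h2 : 2 ≤ cs.length u) (hy : Lmin cs r s y) (hxu : Le cs b (x * u)) (huy : Le cs b (u * y)) :
    (cs.length (x * u * y) = cs.length x + cs.length u + cs.length y ∧ Le cs b (x * u * y)) ∨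
      FFE0 cs r s t b c x u y ∨ FFE1 cs r s t b c x u y := by
  have hlen2 : ∀ i j : B, u = cs.simple i * cs.simple j → cs.length u = 2 := by
    intro i j h
    have h1 := cs.length_mul_le (cs.simple i) (cs.simple j)
    rw [cs.length_simple, cs.length_simple, ← h] at h1
    omega
  have hTl : ∀ (l : B) (y₅ z : W), z = cs.simple l * y₅ → cs.length z = 1 + cs.length y₅ →
      T cs z = T cs (cs.simple l) * T cs y₅ := by
    intro l y₅ z hz hlz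
    rw [hz, T_mul_T cs]
    unfold Red
    rw [← hz, hlz, cs.length_simple]
  rcases ff_dich cs hT hbc hx hu h2 hy hxu huy with h | ⟨y₁, z, hyz, hlen, hff⟩
  · exact Or.inl h
  right
  subst hyz
  have hres := ff_first cs hT hbc h37 y₁ x u hff
  rcases hres with h1 | h2' | h3
  · obtain ⟨x₃, hx₃, hTe, hl₃, hcase⟩ := ff_out1 cs hT hbc hff h1 hy hlen huy
    have hu2 := hlen2 _ _ h1.1
    rcases hcase with hz | ⟨hfac, l, y₅, hl, hz, hy₅, hlz⟩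
    · left
      exact ⟨x₃, z, hx₃, hz, by omega, hTe, Or.inl hu2⟩
    · right
      obtain ⟨l', hll⟩ : ∃ l', (l = s ∧ l' = t) ∨ (l = t ∧ l' = s) := by
        rcases hl with h | h
        · exact ⟨t, Or.inl ⟨h, rfl⟩⟩
        · exact ⟨s, Or.inr ⟨h, rfl⟩⟩
      refine ⟨hu2, x₃, y₅, l, l', hll, hx₃, hy₅, by omega, ?_, Or.inl hfac⟩
      · rw [hTe, hTl l y₅ z hz hlz, mul_assoc, mul_assoc, mul_assoc]
  · have hy1 := h2'.2.1
    subst hy1
    rw [cs.length_simple] at hlen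
    obtain ⟨x₃, hx₃, hTe, hl₃, hlrz, hcase⟩ := ff_out2 cs hT hbc hff h2' hy hlen huy
    have hu2 := hlen2 _ _ h2'.1
    rcases hcase with hz | ⟨y₅, y₆, hz, hy₅, hlz, hy₆, hl₆, hT₆⟩
    · left
      exact ⟨x₃, _, hx₃, hz, by omega, hTe, Or.inl hu2⟩
    · right
      refine ⟨hu2, x₃, y₅, s, t, Or.inl ⟨rfl, rfl⟩, hx₃, hy₅, by omega, ?_,
        Or.inr ⟨h2'.1, rfl, y₆, hy₆, by omega, hT₆⟩⟩
      rw [hTe, hTl s y₅ _ hz hlz, mul_assoc, mul_assoc, mul_assoc]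
  · obtain ⟨x₃, y₄, hx₃, hy₄, hTe, hl₃⟩ := ff_out3 cs hT hbc hff h3 hy hlen huy
    left
    refine ⟨x₃, y₄, hx₃, hy₄, hl₃, hTe, ?_⟩
    rcases h3.1 with h | ⟨_, h3l, hb4, hfac⟩
    · exact Or.inl (hlen2 _ _ h)
    · exact Or.inr ⟨h3l, hb4, hfac⟩

end Pool.Agent.PolyCell
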