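import Pool.Agent.Tri2.VLem
import Pool.Agent.Tri2.DCRed
import Pool.Agent.Tri2.FFOut

/-!
# The steps for DCS and DCpS at the level `b < c`

`dc_step_b`: `M i j ≤ b`, `i ≠ j`: `M i j = 2` (`{i,j} = {r,t}`): `dc_two`. Otherwise `{i,j} = {r,s}`, `M i j = b`: by symmetry (`wT_symm`, `Rmin`, `Lmin` symmetric) `i = r`, `j = s`. `dc_red` (`k = 0`): `x w_{rs}, w_{rs} y ∈ W_{≤b}`. Expand `C_{w_T}` (`lat_expand`, `C_wT_apply`): coefficient `v^{ℓ(u)-b}`; needed: `T_x T_u T_y ∈ Lat (b - ℓ(u))`: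
 `ℓ(u) = 0`: A0S; `ℓ(u) = 1`: A1S (`len_one_D`); `ℓ(u) = 2`: D2S `(n+1)`; `ℓ(u) ≥ 3`: `x u ∈ W_{≤b}` (`le_prefix_D`), `u y ∈ W_{≤b}` (`le_suffix_D`), `ff_out`: reduced: `T_x T_u T_y = T_{xuy}`, `lat_T`, `0 ≤ b - ℓ(u)` (`len_D_le`). `FFE0`: `ℓ(u) = 3`, `v_lem` for `{s,t}` (`M s t = c > b`, total length `≤ n + 1`): `b - 3`. `FFE1`: `ℓ(u) = 2`: no.
`dcp_step_b`: `M i j < b` means `M i j = 2` (`M i j ≥ b` for `{r,s}`, `{s,t}`), `{i,j} = {r,t}`; by symmetry `i = r`, `j = t`. `dcp_two`: it remains: `T_x T_{w_{rt}} T_y ∈ Lat (b - 3)`, `x {r,t}`-rmin, `y {r,t}`-lmin, `x w_{rt} ∈ W_{≤b-1}`, `w_{rt} y ∈ W_{≤b}`, total `≤ n + 1`. `y = 1`: `T_{x w_{rt}}`: `lat_T`. Otherwise `w_{rt} = t r`,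
 `T_x T_{w_{rt}} T_y = T_{xt} T_{ry}`. `X = x t` is `{r,s}`-rmin: `s ∈ R(xt)`: with `t`: contradiction to `W_{≤b}`; `r ∈ R(xt)`: `r ∈ R(x)` (`rd_of_both`). `r y = β y₃` (`decompL` for `{r,s}`), `r ∈ L(β)`; `s ∈ L(y)` gives `ℓ(β) ≥ 2` (`s ∈ L(r(ry))`, `ld_D_mul` for `r β`). `T_x T_{w_{rt}} T_y = T_X T_β T_{y₃}`, total length the same. `β = w_{rs}`: `w_lem` (it uses DCS `(n+1)`).
 `β ≠ w_{rs}`: `β y₃ = r y` is a suffix of `w_{rt} y`, in `W_{≤b}`. `X β ∈ W_{≤b}`: `X r = x t r = x w_{rt} ∈ W_{≤b-1} ⊆ W_{≤b}`; otherwise `facDr`: `t ∈ R(Xrs)`, `s ∈ R(Xrs)`, `chain5` (`p = s`, `q = t`): `t ∈ R(Xr)` and `s ∈ R(X r t) = R(x r)` (`X r = x r t`); also `r ∈ R(xr)`: `x r ∈ W_{>b-1}` (`fac_of_both`, `b > b - 1`), a prefix of `x w_{rt} = x r t`: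
 contradiction. `ff_out` for `(X, β, y₃)`: reduced: `lat_T`, `b ≥ 3`. `FFE0`: `v_lem`. `FFE1`: `Fac (b-1) (X r)` contradicts `x w_{rt} ∈ W_{≤b-1}`; `β = s r` contradicts `r ∈ L(β)` (`eq_wT_of_ld`: both left descents, `ℓ = 2 < b`).
-/

open CoxeterSystem

namespace Pool.Agent.PolyCell

variable {B W : Type*} [Group W] {M : CoxeterMatrix B} {cs : CoxeterSystem M W}
  {C : W → Hk cs}

/-- the case `{i,j} = {r,s}` of `dc_step_b` -/
private theorem DCStepB_rs {r s t : B} {b c : ℕ} (hT : T2 M r s t b c) (hbc : b < c)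
    (h37 : b = 3 → 7 ≤ c) (hC : IsKL cs C) (hI : IdealN cs C b) (n : ℕ) (h0 : A0S cs C b n)
    (h1 : A1S cs C b n) (h2 : D2S cs C b n) (h2' : D2S cs C b (n + 1)) {x y : W}
    (hx : Rmin cs r s x) (hy : Lmin cs r s y) (hn : cs.length x + b + cs.length y ≤ n + 1) :
    Lat cs C b 0 (T cs x * C (wT cs r s) * T cs y) := by
  classical
  have hb := hT.hb
  have hc := hT.hc
  have hmrs := hT.mrs
  have hmst := hT.mst
  have hm0 : M r s ≠ 0 := by omega
  refine dc_red (n := n + 1) (k := 0) hC hI hT.rs hm0 ?_ x y hx hy (by omega)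
  clear hn hx hy x y
  intro x y hx hy hxw hwy hn
  refine lat_expand x y _ fun u hu => ?_
  rw [C_wT_apply cs hC hT.rs hm0] at hu ⊢
  split_ifs at hu ⊢ with hD
  · have key : Lat cs C b ((b : ℤ) - cs.length u) (T cs x * T cs u * T cs y) := by
      have hul := len_D_le cs hT.rs hm0 hD
      have h3 : cs.length u = 0 ∨ cs.length u = 1 ∨ cs.length u = 2 ∨ 3 ≤ cs.length u := by omega
      rcases h3 with h3 | h3 | h3 | h3
      · have hu1 : u = 1 := cs.length_eq_zero_iff.1 h3
        subst hu1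
        rw [← one_def' cs, mul_one]
        exact lat_mono (by omega) (h0 x y (by omega))
      · obtain ⟨d, hd, rfl⟩ := len_one_D hT.rs hD h3
        refine lat_mono (by omega) (h1 x y d (by omega) ?_ ?_)
        · rcases hd with rfl | rfl
          · exact hx.1
          · exact hx.2
        · rcases hd with rfl | rfl
          · exact hy.1
          · exact hy.2
      · exact lat_mono (by omega) (h2' hT.rs hm0 hx hy hD (by omega) (by omega) (by omega))
      · have hxu := le_prefix_D hT.rs hm0 hx hD hxw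
        have huy := le_suffix_D hT.rs hm0 hy hD hwy
        have hxul : Red cs x u := len_mul_D cs hT.rs hx hD
        rcases ff_out cs hT hbc h37 hx hD (by omega) hy hxu huy with h | h | h
        · have hxul' : cs.length (x * u) = cs.length x + cs.length u := hxul
          rw [T_mul_T cs hxul, T_mul_T cs (show Red cs (x * u) y by unfold Red; omega)]
          exact lat_mono (by omega) (lat_T hC _)
        · obtain ⟨x₃, y₄, hx₃, hy₄, hl, he, hu3⟩ := h
          have hu3' : cs.length u = 3 := by omega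
          rw [he]
          refine lat_mono (by omega) (v_lem hC hI h0 h1 h2 hT.st (by omega) (by omega) hx₃ hy₄ ?_)
          omega
        · have := h.1
          omega
    exact lat_mono (by omega) (lat_smul (dle_v ((cs.length u : ℤ) - M r s)) key)
  · rw [zero_smul]
    exact lat_zero _

theorem dc_step_b {r s t : B} {b c : ℕ} (hT : T2 M r s t b c) (hbc : b < c)
    (h37 : b = 3 → 7 ≤ c) (hC : IsKL cs C) (hI : IdealN cs C b) (n : ℕ) (h0 : A0S cs C b n)
    (h1 : A1S cs C b n) (h2 : D2S cs C b n) (h2' : D2S cs C b (n + 1)) :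
    DCS cs C b (n + 1) := by
  intro i j x y hij hm hmN hx hy hn
  have hb := hT.hb
  have hmrs := hT.mrs
  have hmst := hT.mst
  have hmrt := hT.mrt
  have hmsr : M s r = b := by rw [M.symmetric s r]; exact hmrs
  have hmts : M t s = c := by rw [M.symmetric t s]; exact hmst
  have hmtr : M t r = 2 := by rw [M.symmetric t r]; exact hmrt
  have hcase : M i j = 2 ∨ (i = r ∧ j = s) ∨ (i = s ∧ j = r) := by
    rcases hT.all i with rfl | rfl | rfl <;> rcases hT.all j with rfl | rfl | rfl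
    · exact absurd rfl hij
    · exact Or.inr (Or.inl ⟨rfl, rfl⟩)
    · exact Or.inl hmrt
    · exact Or.inr (Or.inr ⟨rfl, rfl⟩)
    · exact absurd rfl hij
    · omega
    · exact Or.inl hmtr
    · omega
    · exact absurd rfl hij
  rcases hcase with h | ⟨rfl, rfl⟩ | ⟨rfl, rfl⟩
  · exact lat_mono (by omega) (dc_two hC h0 h1 h2' hij h (by omega) hx hy (by omega))
  · exact lat_mono (by omega) (DCStepB_rs hT hbc h37 hC hI n h0 h1 h2 h2' hx hy (by omega))
  · rw [wT_symm cs i j]
    exact lat_mono (by omega) (DCStepB_rs hT hbc h37 hC hI n h0 h1 h2 h2' ⟨hx.2, hx.1⟩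
      ⟨hy.2, hy.1⟩ (by omega))

private theorem DCStepB_simple_self (i : B) : cs.IsRightDescent (cs.simple i) i := by
  unfold CoxeterSystem.IsRightDescent
  rw [cs.simple_mul_simple_self, cs.length_one, cs.length_simple]
  exact Nat.zero_lt_one

/-- the bound of `T_x T_{w_{rt}} T_y` -/
private theorem DCStepB_rt {r s t : B} {b c : ℕ} (hT : T2 M r s t b c) (hbc : b < c)
    (h37 : b = 3 → 7 ≤ c) (hC : IsKL cs C) (hI : IdealN cs C b) (n : ℕ) (h0 : A0S cs C b n)
    (h1 : A1S cs C b n) (h2 : D2S cs C b n) (hd : DCS cs C b (n + 1)) {x y : W}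
    (hx : Rmin cs r t x) (hy : Lmin cs r t y) (hxw : Le cs (b - 1) (x * wT cs r t))
    (hwy : Le cs b (wT cs r t * y)) (hn : cs.length x + 2 + cs.length y ≤ n + 1) :
    Lat cs C b ((b : ℤ) - 3) (T cs x * T cs (wT cs r t) * T cs y) := by
  have hb := hT.hb
  have hc := hT.hc
  have hmrs := hT.mrs
  have hmst := hT.mst
  have hmrt := hT.mrt
  have hrt0 : M r t ≠ 0 := by omega
  have hrs0 : M r s ≠ 0 := by omega
  have hlx := (cs.not_isRightDescent_iff).1 hx.2
  have hlxr := (cs.not_isRightDescent_iff).1 hx.1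
  have hly := (cs.not_isLeftDescent_iff).1 hy.1
  have hcomm : cs.simple r * cs.simple t = cs.simple t * cs.simple r := comm_of_two cs hmrt
  -- `w_{rt} = t r`
  have hntr : ¬ cs.IsRightDescent (cs.simple t) r := fun h => hT.rt (rd_simple cs h)
  have hltr : cs.length (cs.simple t * cs.simple r) = 2 := by
    rw [(cs.not_isRightDescent_iff).1 hntr, cs.length_simple]
  have hw : wT cs r t = cs.simple t * cs.simple r :=
    (eq_wT_of_len cs hT.rt hrt0 (Subgroup.mul_mem _ (simple_mem_D (Or.inr rfl))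
      (simple_mem_D (Or.inl rfl))) (by rw [hltr, hmrt])).symm
  by_cases hy1 : y = 1
  · subst hy1
    have hred : Red cs x (wT cs r t) := len_mul_D cs hT.rt hx (wT_mem cs r t)
    rw [← one_def' cs, mul_one, T_mul_T cs hred]
    exact lat_mono (by omega) (lat_T hC _)
  -- `T_x T_{w_{rt}} T_y = T_{xt} T_{ry}`
  have hredtr : Red cs (cs.simple t) (cs.simple r) := by
    unfold Red
    rw [hltr, cs.length_simple, cs.length_simple]
  have e1 : T cs x * T cs (wT cs r t) * T cs y =
      T cs (x * cs.simple t) * T cs (cs.simple r * y) := by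
    rw [hw, ← T_mul_T cs hredtr, ← T_mul_s cs hx.2, ← s_mul_T cs hy.1]
    simp only [mul_assoc]
  -- the element `X = x t`
  have hXle1 : Le cs (b - 1) (x * cs.simple t) :=
    le_prefix_D hT.rt hrt0 hx (simple_mem_D (Or.inr rfl)) hxw
  have hXle : Le cs b (x * cs.simple t) := le_mono cs (Nat.sub_le _ _) hXle1
  have hXt : cs.IsRightDescent (x * cs.simple t) t := by
    rw [cs.isRightDescent_iff, cs.simple_mul_simple_cancel_right]
    exact hlx.symm
  have hX : Rmin cs r s (x * cs.simple t) := by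
    constructor
    · intro h
      have h3 := rd_of_both cs hT.rt h hXt
      rw [cs.simple_mul_simple_cancel_right] at h3
      exact hx.1 h3
    · intro h
      exact hXle (fac_of_both cs hT.st (by omega) h hXt)
  have hXr : x * cs.simple t * cs.simple r = x * wT cs r t := by
    rw [hw, mul_assoc]
  have hXrle1 : Le cs (b - 1) (x * cs.simple t * cs.simple r) := by rw [hXr]; exact hxw
  -- the element `r y = β y₃`
  obtain ⟨β, y₃, hy₃, hβ, he⟩ := decompL cs hT.rs (cs.simple r * y)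
  have hry : cs.IsLeftDescent (cs.simple r * y) r := by
    rw [cs.isLeftDescent_iff, cs.simple_mul_simple_cancel_left]
    exact hly.symm
  have hβr : cs.IsLeftDescent β r := by
    rw [he] at hry
    exact (ld_D_mul cs hT.rs (Or.inl rfl) hy₃ hβ).1 hry
  have hlβ : cs.length (β * y₃) = cs.length β + cs.length y₃ := len_D_mul cs hT.rs hy₃ hβ
  have hβ2 : 2 ≤ cs.length β := by
    obtain ⟨e, hey⟩ := cs.exists_leftDescent_of_ne_one hy1
    have hes : e = s := by
      rcases hT.all e with rfl | rfl | rfl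
      · exact absurd hey hy.1
      · rfl
      · exact absurd hey hy.2
    subst hes
    have hyr : y = cs.simple r * β * y₃ := by
      rw [mul_assoc, ← he, cs.simple_mul_simple_cancel_left]
    have hrβ : cs.simple r * β ∈ D cs r e := Subgroup.mul_mem _ (simple_mem_D (Or.inl rfl)) hβ
    rw [hyr] at hey
    have h3 := (ld_D_mul cs hT.rs (Or.inr rfl) hy₃ hrβ).1 hey
    have h4 := cs.isLeftDescent_iff.1 h3
    have h5 := cs.isLeftDescent_iff.1 hβr
    omega
  have hlry : cs.length β + cs.length y₃ = cs.length y + 1 := by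
    rw [← hlβ, ← he, hly]
  have hredβ : Red cs β y₃ := hlβ
  have e2 : T cs x * T cs (wT cs r t) * T cs y =
      T cs (x * cs.simple t) * T cs β * T cs y₃ := by
    rw [e1, he, ← T_mul_T cs hredβ, mul_assoc]
  rw [e2]
  by_cases hβw : β = wT cs r s
  · subst hβw
    rw [length_wT cs hT.rs] at hlry
    exact w_lem hC h0 h1 h2 hd hT.rs hmrs hb hX hy₃ (by omega)
  have hβy : Le cs b (β * y₃) := by
    rw [← he]
    exact le_suffix_D hT.rt hrt0 hy (simple_mem_D (Or.inl rfl)) hwy
  have hXβ : Le cs b (x * cs.simple t * β) := by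
    intro hF
    have h3 := facDr cs hT hbc hX (le_mono cs (Nat.sub_le _ _) hXrle1) hβ hβw hβr hF
    -- `s ∈ R(X r s)`
    have hnrs : ¬ cs.IsRightDescent (cs.simple r) s := fun h => hT.rs (rd_simple cs h).symm
    have hrsD : cs.simple r * cs.simple s ∈ D cs r s :=
      Subgroup.mul_mem _ (simple_mem_D (Or.inl rfl)) (simple_mem_D (Or.inr rfl))
    have h4 : cs.IsRightDescent (x * cs.simple t * cs.simple r * cs.simple s) s := by
      rw [mul_assoc (x * cs.simple t)]
      refine (rd_mul_D cs hT.rs (Or.inr rfl) hX hrsD).2 ?_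
      rw [cs.isRightDescent_iff, cs.simple_mul_simple_cancel_right]
      exact ((cs.not_isRightDescent_iff).1 hnrs).symm
    have h5 : 5 ≤ M s t := by omega
    obtain ⟨-, h6, -, -⟩ := chain5 cs hT.st h5 h4 h3
    have e3 : x * cs.simple t * cs.simple r * cs.simple s * cs.simple s * cs.simple t =
        x * cs.simple r := by
      rw [cs.simple_mul_simple_cancel_right, mul_assoc x, ← hcomm, ← mul_assoc,
        cs.simple_mul_simple_cancel_right]
    rw [e3] at h6
    have h7 : cs.IsRightDescent (x * cs.simple r) r := by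
      rw [cs.isRightDescent_iff, cs.simple_mul_simple_cancel_right]
      exact hlxr.symm
    exact le_prefix_D hT.rt hrt0 hx (simple_mem_D (Or.inl rfl)) hxw
      (fac_of_both cs hT.rs (by omega) h7 h6)
  rcases ff_out cs hT hbc h37 hX hβ hβ2 hy₃ hXβ hβy with h | h | h
  · have hr1 : Red cs (x * cs.simple t) β := len_mul_D cs hT.rs hX hβ
    have hr1' : cs.length (x * cs.simple t * β) = cs.length (x * cs.simple t) + cs.length β := hr1
    rw [T_mul_T cs hr1, T_mul_T cs (show Red cs (x * cs.simple t * β) y₃ by unfold Red; omega)]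
    exact lat_mono (by omega) (lat_T hC _)
  · obtain ⟨x₃, y₄, hx₃, hy₄, hl, he', -⟩ := h
    rw [he']
    exact v_lem hC hI h0 h1 h2 hT.st (by omega) (by omega) hx₃ hy₄ (by omega)
  · exfalso
    obtain ⟨hl2, x₃, y₅, l, l', -, -, -, -, -, h8⟩ := h
    rcases h8 with h8 | ⟨h8, -⟩
    · exact hXrle1 h8
    · apply hβw
      refine eq_wT_of_ld cs hT.rs hrs0 hβ hβr ?_
      have hlr := cs.length_simple r
      have hls := cs.length_simple s
      rw [cs.isLeftDescent_iff, h8, cs.simple_mul_simple_cancel_left]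
      rw [h8] at hl2
      omega

theorem dcp_step_b {r s t : B} {b c : ℕ} (hT : T2 M r s t b c) (hbc : b < c)
    (h37 : b = 3 → 7 ≤ c) (hC : IsKL cs C) (hI : IdealN cs C b) (n : ℕ) (h0 : A0S cs C b n)
    (h1 : A1S cs C b n) (h0p : A0pS cs C b n) (h1p : A1pS cs C b n) (h2 : D2S cs C b n)
    (hd : DCS cs C b (n + 1)) : DCpS cs C b (n + 1) := by
  intro i j x y hij hm hmN hx hy hxw hwy hn
  have hb := hT.hb
  have hmrs := hT.mrs
  have hmst := hT.mst
  have hmrt := hT.mrt
  have hmsr : M s r = b := by rw [M.symmetric s r]; exact hmrs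
  have hmts : M t s = c := by rw [M.symmetric t s]; exact hmst
  have hmtr : M t r = 2 := by rw [M.symmetric t r]; exact hmrt
  have hcase : M i j = 2 ∧ ((i = r ∧ j = t) ∨ (i = t ∧ j = r)) := by
    rcases hT.all i with rfl | rfl | rfl <;> rcases hT.all j with rfl | rfl | rfl
    · exact absurd rfl hij
    · omega
    · exact ⟨hmrt, Or.inl ⟨rfl, rfl⟩⟩
    · omega
    · exact absurd rfl hij
    · omega
    · exact ⟨hmtr, Or.inr ⟨rfl, rfl⟩⟩
    · omega
    · exact absurd rfl hij
  obtain ⟨h, hc⟩ := hcase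
  have key : Lat cs C b ((b : ℤ) - 3) (T cs x * T cs (wT cs i j) * T cs y) := by
    rcases hc with ⟨rfl, rfl⟩ | ⟨rfl, rfl⟩
    · exact DCStepB_rt hT hbc h37 hC hI n h0 h1 h2 hd hx hy hxw hwy (by omega)
    · rw [wT_symm cs i j] at hxw hwy ⊢
      exact DCStepB_rt hT hbc h37 hC hI n h0 h1 h2 hd ⟨hx.2, hx.1⟩ ⟨hy.2, hy.1⟩ hxw hwy
        (by omega)
  exact lat_mono (by omega) (dcp_two hC h0p h1p hij h hx hy hxw key (by omega))

end Pool.Agent.PolyCell
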