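import Pool.Agent.PolyTri.EStep
import Pool.Agent.PolyTri.T3

/-!
# Triangles `(2,b,c)`: definitions and statements for the lower levels

`m(r,t) = 2`, `m(r,s) = b`, `m(s,t) = c`. Levels `N = 2` (any `b, c ≥ 3`) and `N = b` (`b < c`).
-/

open CoxeterSystem

namespace Pool.Agent.PolyCell

variable {B W : Type*} [Group W] {M : CoxeterMatrix B}

/-- the triangle with labels `m(r,s) = b`, `m(s,t) = c`, `m(r,t) = 2` -/
structure T2 (M : CoxeterMatrix B) (r s t : B) (b c : ℕ) : Prop where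
  rs : r ≠ s
  st : s ≠ t
  rt : r ≠ t
  all : ∀ i : B, i = r ∨ i = s ∨ i = t
  mrs : M r s = b
  mst : M s t = c
  mrt : M r t = 2
  hb : 3 ≤ b
  hc : 3 ≤ c

/-- `T_x T_u T_y`, `ℓ(u) ≥ 2` (all `x`, `y`; `u ≠ w_T` if `m_T > N`): degree `≤ N - 2` -/
def D2S (cs : CoxeterSystem M W) (C : W → Hk cs) (N n : ℕ) : Prop :=
  ∀ ⦃i j : B⦄ ⦃x y u : W⦄, i ≠ j → M i j ≠ 0 → Rmin cs i j x → Lmin cs i j y → u ∈ D cs i j →
    2 ≤ cs.length u → (N < M i j → u ≠ wT cs i j) →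
    cs.length x + cs.length u + cs.length y ≤ n →
    Lat cs C N ((N : ℤ) - 2) (T cs x * T cs u * T cs y)

/-- `T_x C_{w_T} T_y`, `m_T ≤ N`: degree `≤ N - m_T` -/
def DCS (cs : CoxeterSystem M W) (C : W → Hk cs) (N n : ℕ) : Prop :=
  ∀ ⦃i j : B⦄ ⦃x y : W⦄, i ≠ j → M i j ≠ 0 → M i j ≤ N → Rmin cs i j x → Lmin cs i j y →
    cs.length x + M i j + cs.length y ≤ n →
    Lat cs C N ((N : ℤ) - M i j) (T cs x * C (wT cs i j) * T cs y)

/-- `T_x C_{w_T} T_y`, `m_T < N`, `x w_T ∈ W_{< N}`, `w_T y ∈ W_{≤ N}`: degree `≤ N - 1 - m_T` -/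
def DCpS (cs : CoxeterSystem M W) (C : W → Hk cs) (N n : ℕ) : Prop :=
  ∀ ⦃i j : B⦄ ⦃x y : W⦄, i ≠ j → M i j ≠ 0 → M i j < N → Rmin cs i j x → Lmin cs i j y →
    Le cs (N - 1) (x * wT cs i j) → Le cs N (wT cs i j * y) →
    cs.length x + M i j + cs.length y ≤ n →
    Lat cs C N ((N : ℤ) - 1 - M i j) (T cs x * C (wT cs i j) * T cs y)

/-- the combinatorial hypothesis of the step for `D2S`: the junction can be moved to the right, or there is a junction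
to the left with overlap -/
def KHyp (cs : CoxeterSystem M W) (N : ℕ) : Prop :=
  ∀ ⦃i j : B⦄ ⦃x y u : W⦄, i ≠ j → Rmin cs i j x → Lmin cs i j y → u ∈ D cs i j →
    2 ≤ cs.length u → (N < M i j → u ≠ wT cs i j) → Le cs N (x * u) → Le cs N (u * y) → y ≠ 1 →
    (∃ l e : B, l ≠ e ∧ cs.IsRightDescent u l ∧ cs.IsLeftDescent y e ∧
      ¬ cs.IsRightDescent (x * u) e) ∨
    (∃ (p q : B) (x₁ a b y₁ : W), p ≠ q ∧ Rmin cs p q x₁ ∧ Lmin cs p q y₁ ∧ a ∈ D cs p q ∧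
      b ∈ D cs p q ∧ a ≠ wT cs p q ∧ b ≠ wT cs p q ∧ cs.IsRightDescent a p ∧
      ¬ cs.IsLeftDescent b p ∧ x = x₁ * a ∧ u * y = b * y₁ ∧
      M p q < cs.length a + cs.length b)

/-- `y` is a first failure of `(x, u)` at the level `b` (`T = {r, s}`): all proper initial segments `y₀` of `y` have
`x u y₀ ∈ W_{≤ b}`, but `x u y ∉ W_{≤ b}` -/
structure FirstFail (cs : CoxeterSystem M W) (r s : B) (b : ℕ) (x u y : W) : Prop where
  hx : Rmin cs r s x
  hu : u ∈ D cs r s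
  h2 : 2 ≤ cs.length u
  hy : Lmin cs r s y
  lexu : Le cs b (x * u)
  leuy : Le cs b (u * y)
  red : cs.length (x * u * y) = cs.length x + cs.length u + cs.length y
  fac : Fac cs b (x * u * y)
  min : ∀ y₀ z : W, y = y₀ * z → cs.length y = cs.length y₀ + cs.length z → z ≠ 1 →
    Le cs b (x * u * y₀)

/-- the statement of the good case: if `x u y` is reduced and in `W_{≤ b}` then `R(x u y) ⊆ R(u y)` -/
def FFA (cs : CoxeterSystem M W) (r s : B) (b : ℕ) (y : W) : Prop :=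
  ∀ x u : W, Rmin cs r s x → u ∈ D cs r s → 2 ≤ cs.length u → Lmin cs r s y →
    cs.length (x * u * y) = cs.length x + cs.length u + cs.length y → Le cs b (x * u * y) →
    ∀ k, cs.IsRightDescent (x * u * y) k → cs.IsRightDescent (u * y) k

end Pool.Agent.PolyCell
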