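import Pool.Agent.Tri2.TB

/-!
# When does `X d`, `d ∈ D_{rs}`, leave `W_{≤ b}`?

`facDs` (`d` starts with `s`): induction on `ℓ(d)`. `fac_step` for `X d`. Let `l ∈ R(d)`, `l' ≠ l` the other letter of `{r,s}`; `l ∈ R(Xd)`, `l' ∉ R(Xd)` (`rd_mul_D`, `eq_wT_of_rd`). If `X d l ∈ W_{>b}` and `ℓ(d) ≥ 2`: induction for `d l` (it still starts with `s`; `d l ≠ w_{rs}`); if `ℓ(d) = 1`, `X d l = X`: contradiction. So assume `X d l ∈ W_{≤b}`.
 (a) `s, t ∈ R(Xd)`: `l = r`: `s, t ∈ R(Xdr)` (`rd_of_both` twice): contradiction. `l = s`: `t ∈ R(Xds)` (`rd_of_both`). `ℓ(d) = 1`: `d = s`: the claim. `ℓ(d) = 2` is impossible (`d` starts and ends with `s`). `ℓ(d) ≥ 3`: `r ∈ R(ds)` (`rd_prev`), `t, r ∈ R(Xds)`, so `t ∈ R(Xdsr)` (`rd_of_both`), `s ∈ R(dsr)` (`rd_prev`), so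
 `Xdsr ∈ W_{>b}`, so `Xds ∈ W_{>b}` (`fac_of_fac_mul`): contradiction.
 (b) `e ∈ R(Xd)`, `X d e ∈ W_{>b}`: `e = l`: contradiction; `e = l'`: no; `e = t`: `l = s`: case (a). `l = r`: `ℓ(d) ≥ 2` as `d` starts with `s`; `t ∈ R(Xdr)` (`rd_of_both`), `s ∈ R(dr)`, so `s ∈ R(Xdr)`: `Xdr ∈ W_{>b}`: contradiction.
`facDr` (`d` starts with `r`, `X r ∈ W_{≤b}`): the same; `ℓ(d) = 1`: `d = r`, contradiction; `ℓ(d) = 2`: `d = r s`, `l = s`: (a), or (b) with `e = t`: `t ∈ R(Xrs)`: the claim; `ℓ(d) ≥ 3`: the same arguments.
-/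

open CoxeterSystem

namespace Pool.Agent.PolyCell

variable {B W : Type*} [Group W] {M : CoxeterMatrix B} (cs : CoxeterSystem M W)

private theorem FacD_simple_mem_left (i j : B) : cs.simple i ∈ D cs i j :=
  Subgroup.subset_closure (by simp)

private theorem FacD_simple_mem_right (i j : B) : cs.simple j ∈ D cs i j :=
  Subgroup.subset_closure (by simp)

private theorem FacD_simple_mem {i j k : B} (hk : k = i ∨ k = j) : cs.simple k ∈ D cs i j := by
  rcases hk with rfl | rfl
  · exact FacD_simple_mem_left cs _ _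
  · exact FacD_simple_mem_right cs _ _

private theorem FacD_one_right {u : W} {p : B} (h1 : cs.length u = 1)
    (hp : cs.IsRightDescent u p) : u = cs.simple p := by
  have h2 : cs.length (u * cs.simple p) < cs.length u := hp
  have h3 : cs.length (u * cs.simple p) = 0 := by omega
  rw [cs.length_eq_zero_iff] at h3
  rw [← mul_one u, ← cs.simple_mul_simple_self p, ← mul_assoc, h3, one_mul]

private theorem FacD_one_left {u : W} {p : B} (h1 : cs.length u = 1)
    (hp : cs.IsLeftDescent u p) : u = cs.simple p := by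
  have h2 : cs.length (cs.simple p * u) < cs.length u := hp
  have h3 : cs.length (cs.simple p * u) = 0 := by omega
  rw [cs.length_eq_zero_iff] at h3
  rw [← one_mul u, ← cs.simple_mul_simple_self p, mul_assoc, h3, mul_one]

private theorem FacD_ld_simple (p : B) : cs.IsLeftDescent (cs.simple p) p := by
  unfold CoxeterSystem.IsLeftDescent
  rw [cs.simple_mul_simple_self, cs.length_one, cs.length_simple]
  omega

/-- a one-letter element of `D_{rs}` which is not `w_{rs}` cannot have two names -/
private theorem FacD_absurd {r s : B} (hrs : r ≠ s) (hm : M r s ≠ 0) {d : W} (hd : d ∈ D cs r s)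
    (hdw : d ≠ wT cs r s) (h1 : d = cs.simple r) (h2 : d = cs.simple s) : False := by
  refine hdw (eq_wT_of_ld cs hrs hm hd ?_ ?_)
  · rw [h1]; exact FacD_ld_simple cs r
  · rw [h2]; exact FacD_ld_simple cs s

/-- removing a right descent does not change the first letter -/
private theorem FacD_ld_prev {r s : B} (hrs : r ≠ s) (hm : M r s ≠ 0) {d : W} (hd : d ∈ D cs r s)
    (hdw : d ≠ wT cs r s) (h2 : 2 ≤ cs.length d) {p l : B} (hp : cs.IsLeftDescent d p)
    (hl : cs.IsRightDescent d l) : cs.IsLeftDescent (d * cs.simple l) p := by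
  have hlD := rd_of_mem_D cs hrs hd hl
  have hmem : d * cs.simple l ∈ D cs r s := Subgroup.mul_mem _ hd (FacD_simple_mem cs hlD)
  have hlen : cs.length (d * cs.simple l) + 1 = cs.length d := (cs.isRightDescent_iff).1 hl
  have hne : d * cs.simple l ≠ 1 := by
    intro h
    rw [h, cs.length_one] at hlen
    omega
  obtain ⟨e, he⟩ := cs.exists_leftDescent_of_ne_one hne
  have heD := ld_of_mem_D cs hrs hmem he
  have he' : cs.IsLeftDescent d e := by
    have h3 : cs.length (cs.simple e * (d * cs.simple l)) < cs.length (d * cs.simple l) := he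
    unfold CoxeterSystem.IsLeftDescent
    have h4 : cs.simple e * d = cs.simple e * (d * cs.simple l) * cs.simple l := by
      rw [mul_assoc, mul_assoc, cs.simple_mul_simple_self, mul_one]
    have h5 := cs.length_mul_le (cs.simple e * (d * cs.simple l)) (cs.simple l)
    rw [← h4, cs.length_simple] at h5
    omega
  have hpD := ld_of_mem_D cs hrs hd hp
  by_cases hep : e = p
  · rw [← hep]; exact he
  · exfalso
    apply hdw
    rcases heD with rfl | rfl
    · rcases hpD with rfl | rfl
      · exact absurd rfl hep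
      · exact eq_wT_of_ld cs hrs hm hd he' hp
    · rcases hpD with rfl | rfl
      · exact eq_wT_of_ld cs hrs hm hd hp he'
      · exact absurd rfl hep

/-- `d l` is not the longest element -/
private theorem FacD_ne_wT {r s : B} (hrs : r ≠ s) (hm : M r s ≠ 0) {d : W} {l : B}
    (hlD : l = r ∨ l = s) (hl : cs.IsRightDescent d l) : d * cs.simple l ≠ wT cs r s := by
  intro h
  have h1 : cs.IsRightDescent (d * cs.simple l) l := by
    rw [h]; exact rd_wT cs hrs hm hlD
  have h2 : cs.length (d * cs.simple l * cs.simple l) < cs.length (d * cs.simple l) := h1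
  have h3 : cs.length (d * cs.simple l) < cs.length d := hl
  rw [mul_assoc, cs.simple_mul_simple_self, mul_one] at h2
  omega

/-- the other letter is the next right descent -/
private theorem FacD_next {r s p q : B} (hrs : r ≠ s) (hpq : (p = r ∧ q = s) ∨ (p = s ∧ q = r))
    {d : W} (hd : d ∈ D cs r s) (h2 : 2 ≤ cs.length d) (hp : cs.IsRightDescent d p) :
    cs.IsRightDescent (d * cs.simple p) q := by
  obtain ⟨s', h3, h4, h5, h6⟩ := rd_prev cs hrs hd h2 hp
  have : s' = q := by
    rcases hpq with ⟨rfl, rfl⟩ | ⟨rfl, rfl⟩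
    · rcases h4 with h | h
      · exact absurd h h3
      · exact h
    · rcases h4 with h | h
      · exact h
      · exact absurd h h3
  rw [← this]
  exact h6

/-- the common part of the two statements -/
private theorem FacD_core {r s t : B} {b c : ℕ} (hT : T2 M r s t b c) (hbc : b < c) {X d : W}
    (hX : Rmin cs r s X) (hd : d ∈ D cs r s) (hdw : d ≠ wT cs r s) (hd1 : d ≠ 1)
    (hF : Fac cs b (X * d)) :
    ∃ l, (l = r ∨ l = s) ∧ cs.IsRightDescent d l ∧
      (Fac cs b (X * (d * cs.simple l)) ∨
        (l = s ∧ cs.IsRightDescent (X * d) t ∧ cs.length d ≤ 2) ∨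
        (l = r ∧ cs.length d = 1)) := by
  have hrs := hT.rs
  have hm : M r s ≠ 0 := by rw [hT.mrs]; have := hT.hb; omega
  obtain ⟨l, hl⟩ := cs.exists_rightDescent_of_ne_one hd1
  have hlD := rd_of_mem_D cs hrs hd hl
  refine ⟨l, hlD, hl, ?_⟩
  by_cases hFl : Fac cs b (X * (d * cs.simple l))
  · exact Or.inl hFl
  right
  have huniq : ∀ e, (e = r ∨ e = s) → cs.IsRightDescent (X * d) e → e = l := by
    intro e he h1
    rw [rd_mul_D cs hrs he hX hd] at h1
    by_contra hne
    apply hdw
    rcases he with rfl | rfl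
    · rcases hlD with rfl | rfl
      · exact absurd rfl hne
      · exact eq_wT_of_rd cs hrs hm hd h1 hl
    · rcases hlD with rfl | rfl
      · exact eq_wT_of_rd cs hrs hm hd hl h1
      · exact absurd rfl hne
  have hlX : cs.IsRightDescent (X * d) l := (rd_mul_D cs hrs hlD hX hd).2 hl
  have ht : cs.IsRightDescent (X * d) t := by
    rcases fac_step cs hF with ⟨i, j, hij, hmij, h1, h2⟩ | ⟨e, h1, h2⟩
    · by_cases hi : i = t
      · rw [← hi]; exact h1
      by_cases hj : j = t
      · rw [← hj]; exact h2
      exfalso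
      have h3 : M i j = b := by
        rcases hT.all i with rfl | rfl | rfl
        · rcases hT.all j with rfl | rfl | rfl
          · exact absurd rfl hij
          · exact hT.mrs
          · exact absurd rfl hj
        · rcases hT.all j with rfl | rfl | rfl
          · rw [M.symmetric]; exact hT.mrs
          · exact absurd rfl hij
          · exact absurd rfl hj
        · exact absurd rfl hi
      omega
    · rcases hT.all e with h3 | h3 | h3
      · have := huniq e (Or.inl h3) h1
        rw [this, mul_assoc] at h2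
        exact absurd h2 hFl
      · have := huniq e (Or.inr h3) h1
        rw [this, mul_assoc] at h2
        exact absurd h2 hFl
      · rw [← h3]; exact h1
  have hlen1 : 1 ≤ cs.length d := by
    by_contra hcon
    exact hd1 (cs.length_eq_zero_iff.1 (by omega))
  rcases hlD with rfl | rfl
  · -- l = r
    right
    refine ⟨rfl, ?_⟩
    by_contra hcon
    have h2 : 2 ≤ cs.length d := by omega
    have h3 : cs.IsRightDescent (X * d * cs.simple l) t := rd_of_both cs hT.rt.symm ht hlX
    have h4 := FacD_next cs hrs (Or.inl ⟨rfl, rfl⟩) hd h2 hl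
    have h5 : cs.IsRightDescent (X * (d * cs.simple l)) s :=
      (rd_mul_D cs hrs (Or.inr rfl) hX
        (Subgroup.mul_mem _ hd (FacD_simple_mem_left cs _ _))).2 h4
    rw [mul_assoc] at h3
    exact hFl (fac_of_both cs hT.st (by rw [hT.mst]; exact hbc) h5 h3)
  · -- l = s
    left
    refine ⟨rfl, ht, ?_⟩
    by_contra hcon
    have h2 : 2 ≤ cs.length d := by omega
    have h3 : cs.IsRightDescent (X * d * cs.simple l) t := rd_of_both cs hT.st.symm ht hlX
    have h4 := FacD_next cs hrs (Or.inr ⟨rfl, rfl⟩) hd h2 hl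
    have hmem : d * cs.simple l ∈ D cs r l :=
      Subgroup.mul_mem _ hd (FacD_simple_mem_right cs _ _)
    have hlen : cs.length (d * cs.simple l) + 1 = cs.length d := (cs.isRightDescent_iff).1 hl
    have h5 : cs.IsRightDescent (X * (d * cs.simple l)) r :=
      (rd_mul_D cs hrs (Or.inl rfl) hX hmem).2 h4
    rw [mul_assoc] at h3
    have h6 : cs.IsRightDescent (X * (d * cs.simple l) * cs.simple r) t :=
      rd_of_both cs hT.rt.symm h3 h5
    have h7 := FacD_next cs hrs (Or.inl ⟨rfl, rfl⟩) hmem (by omega) h4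
    have h8 : cs.IsRightDescent (X * (d * cs.simple l * cs.simple r)) l :=
      (rd_mul_D cs hrs (Or.inr rfl) hX
        (Subgroup.mul_mem _ hmem (FacD_simple_mem_left cs _ _))).2 h7
    rw [mul_assoc] at h6
    have h9 := fac_of_both cs hT.st (by rw [hT.mst]; exact hbc) h8 h6
    rw [← mul_assoc] at h9
    exact hFl (fac_of_fac_mul cs h5 h9)

theorem facDs {r s t : B} {b c : ℕ} (hT : T2 M r s t b c) (hbc : b < c) {X d : W}
    (hX : Rmin cs r s X) (hle : Le cs b X) (hd : d ∈ D cs r s) (hdw : d ≠ wT cs r s)
    (hds : cs.IsLeftDescent d s) (hF : Fac cs b (X * d)) :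
    cs.IsRightDescent (X * cs.simple s) t := by
  have hrs := hT.rs
  have hm : M r s ≠ 0 := by rw [hT.mrs]; have := hT.hb; omega
  induction hn : cs.length d using Nat.strong_induction_on generalizing d with
  | _ n ih =>
    have hlen1 : 1 ≤ cs.length d := by
      have : cs.length (cs.simple s * d) < cs.length d := hds
      omega
    have hd1 : d ≠ 1 := by
      rintro rfl
      rw [cs.length_one] at hlen1
      omega
    obtain ⟨l, hlD, hl, hcase⟩ := FacD_core cs hT hbc hX hd hdw hd1 hF
    have hlen : cs.length (d * cs.simple l) + 1 = cs.length d := (cs.isRightDescent_iff).1 hl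
    rcases hcase with h1 | ⟨rfl, ht, h2⟩ | ⟨rfl, h2⟩
    · by_cases h3 : cs.length d = 1
      · rw [cs.length_eq_zero_iff.1 (show cs.length (d * cs.simple l) = 0 by omega), mul_one] at h1
        exact absurd h1 hle
      · exact ih (cs.length (d * cs.simple l)) (by omega)
          (Subgroup.mul_mem _ hd (FacD_simple_mem cs hlD)) (FacD_ne_wT cs hrs hm hlD hl)
          (FacD_ld_prev cs hrs hm hd hdw (by omega) hds hl) h1 rfl
    · by_cases h3 : cs.length d = 1
      · rwa [FacD_one_left cs h3 hds] at ht
      · exfalso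
        have h4 := FacD_ld_prev cs hrs hm hd hdw (by omega) hds hl
        have h5 := FacD_one_left cs (by omega) h4
        have h6 : d = 1 := by
          have := congrArg (· * cs.simple l) h5
          simpa [mul_assoc] using this
        exact hd1 h6
    · exact (FacD_absurd cs hrs hm hd hdw (FacD_one_right cs h2 hl)
        (FacD_one_left cs h2 hds)).elim

theorem facDr {r s t : B} {b c : ℕ} (hT : T2 M r s t b c) (hbc : b < c) {X d : W}
    (hX : Rmin cs r s X) (hle : Le cs b (X * cs.simple r)) (hd : d ∈ D cs r s)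
    (hdw : d ≠ wT cs r s) (hds : cs.IsLeftDescent d r) (hF : Fac cs b (X * d)) :
    cs.IsRightDescent (X * cs.simple r * cs.simple s) t := by
  have hrs := hT.rs
  have hm : M r s ≠ 0 := by rw [hT.mrs]; have := hT.hb; omega
  have hleX : Le cs b X := by
    intro hFX
    apply hle
    have h1 : cs.IsRightDescent (X * cs.simple r) r := by
      rw [rd_mul_D cs hrs (Or.inl rfl) hX (FacD_simple_mem_left cs _ _)]
      unfold CoxeterSystem.IsRightDescent
      rw [cs.simple_mul_simple_self, cs.length_one, cs.length_simple]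
      omega
    refine fac_of_fac_mul cs h1 ?_
    rw [mul_assoc, cs.simple_mul_simple_self, mul_one]
    exact hFX
  induction hn : cs.length d using Nat.strong_induction_on generalizing d with
  | _ n ih =>
    have hlen1 : 1 ≤ cs.length d := by
      have : cs.length (cs.simple r * d) < cs.length d := hds
      omega
    have hd1 : d ≠ 1 := by
      rintro rfl
      rw [cs.length_one] at hlen1
      omega
    obtain ⟨l, hlD, hl, hcase⟩ := FacD_core cs hT hbc hX hd hdw hd1 hF
    have hlen : cs.length (d * cs.simple l) + 1 = cs.length d := (cs.isRightDescent_iff).1 hl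
    rcases hcase with h1 | ⟨rfl, ht, h2⟩ | ⟨rfl, h2⟩
    · by_cases h3 : cs.length d = 1
      · rw [cs.length_eq_zero_iff.1 (show cs.length (d * cs.simple l) = 0 by omega), mul_one] at h1
        exact absurd h1 hleX
      · exact ih (cs.length (d * cs.simple l)) (by omega)
          (Subgroup.mul_mem _ hd (FacD_simple_mem cs hlD)) (FacD_ne_wT cs hrs hm hlD hl)
          (FacD_ld_prev cs hrs hm hd hdw (by omega) hds hl) h1 rfl
    · by_cases h3 : cs.length d = 1
      · exact (FacD_absurd cs hrs hm hd hdw (FacD_one_left cs h3 hds)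
          (FacD_one_right cs h3 hl)).elim
      · have h4 := FacD_ld_prev cs hrs hm hd hdw (by omega) hds hl
        have h5 := FacD_one_left cs (by omega) h4
        have h6 : d = cs.simple r * cs.simple l := by
          rw [← h5, mul_assoc, cs.simple_mul_simple_self, mul_one]
        rw [h6, ← mul_assoc] at ht
        exact ht
    · rw [FacD_one_left cs h2 hds] at hF
      exact absurd hF hle

end Pool.Agent.PolyCell
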