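import Pool.Agent.Tri2.FFRes
import Pool.Agent.Tri2.TB
import Pool.Agent.Tri2.FacD
import Pool.Agent.PolyTri.T3B3

/-!
# The three analyses for first failures

`ff1_lem`: `y ∈ D_{st}`, `y ≠ 1`, `{r,s}`-lmin, so `L(y) = {t}`, `s y ∈ D_{st}`, `ℓ(sy) = ℓ(y) + 1`. `u y = (us)(sy)` reduced, `s y ≠ w_{st}` (otherwise `u y ∈ W_{>b}`). `x u y = x (us) (sy)`. `u s ≠ 1`, `s ∉ R(x(us))` (`rd_mul_D` for `{r,s}`). If also `t ∉ R(x(us))`, `x (us)` is `{s,t}`-rmin and `s, t ∈ R(xuy)` gives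
 `s y = w_{st}` (`rd_mul_D`, `eq_wT_of_rd`): contradiction. So `t ∈ R(x(us))`; `tb1` (prefix of `x u`) gives `ℓ(us) = 1`, so `us = r` (`r ∈ R(us)` by `rd_prev`), `u = r s`, `t ∈ R(xr)`. `x r = x₃ d` (`decompR` for `{s,t}`), `t ∈ R(d)`, `s ∉ R(d)`. `x u y = x₃ (d (sy))`: `s, t ∈ R(d (sy))`, so `d (s y) = w_{st}`, and
 lengths (`x u y` reduced): `ℓ(d) + ℓ(y) + 1 = c`. `ℓ(d) = 1`: first case. `ℓ(d) ≥ 2`: `s ∈ R(dt)` (`rd_prev`), `s ∈ R(xrt)`, `r ∈ R(xrt)` (`rd_of_both`), so `x r t ∈ W_{>b-1}` and `x r ∈ W_{>b-1}`; `ℓ(d) ≥ 3`: `t ∈ R(dts)`, `t ∈ R(xrts)`: contradiction to `l2` for `a = x r t` (prefix of `x u`, in `W_{≤b}`). So `ℓ(d) = 2`.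
`ff2_lem`: `w = x u₁ t`. `fac_step`: `s, t ∈ R(w)`; or `e ∈ R(w)`, `w e ∈ W_{>b}`: `e = t`: contradiction to `x u₁ ∈ W_{≤b}`; `e = s`: fine; `e = r`: `r ∈ R(wt) = R(x u₁)` (`rd_of_both`), `r ∈ R(u₁)`: no. So `s, t ∈ R(w)`. `ℓ(u₁) ≥ 2` is impossible by `tb4` and `chain5` (`p = t`, `q = s`: `s ∈ R(wt)`, `t ∈ R(wts)`, `s ∈ R(wtst)`… so for `x u₁ = w t`:
 `t ∈ R(xu₁s)`, `s ∈ R(xu₁st)`, `t ∈ R(xu₁sts)`). So `u₁ = s`.
`ff3_lem`: `X = x u₁ t`; `facDs` for `(X, ν)`: `t ∈ R(Xs)`, and `s ∈ R(Xs)`. `w = X s`: `chain5` with `p = s`, `q = t`: `t ∈ R(ws)`, `s ∈ R(wst)`, `t ∈ R(wsts)`, `s ∈ R(wstst)`, where `w s = x u₁ t`, `w s t = x u₁`. If `ℓ(u₁) ≥ 2`: `t ∈ R(xu₁s)`, `s ∈ R(xu₁st)`: `tb4`: `u₁ = r s`, `x r ∈ W_{>b-1}`; if `c ≥ 6`, `chain6`: `t ∈ R(xu₁sts)`: contradiction.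
 So `c = 5`, `b < 5`, `b ≠ 3` (`h37`), `b = 4`, `u = u₁ r = r s r` (length `3`: `ℓ(u) = ℓ(u₁) + 1`).
-/

open CoxeterSystem

namespace Pool.Agent.PolyCell

variable {B W : Type*} [Group W] {M : CoxeterMatrix B} (cs : CoxeterSystem M W)

private theorem FFLem_mem {i j c : B} (hc : c = i ∨ c = j) : cs.simple c ∈ D cs i j := by
  refine Subgroup.subset_closure ?_
  rcases hc with rfl | rfl
  · exact Or.inl rfl
  · exact Or.inr rfl

/-- only `{s,t}` has label `> b` -/
theorem t2_gt {r s t : B} {b c : ℕ} (hT : T2 M r s t b c) {i j : B} (hij : i ≠ j)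
    (h : b < M i j) : (i = s ∧ j = t) ∨ (i = t ∧ j = s) := by
  have hb := hT.hb
  have h1 := hT.mrs
  have h2 := hT.mrt
  have h1' : M s r = b := by rw [M.symmetric]; exact h1
  have h2' : M t r = 2 := by rw [M.symmetric]; exact h2
  rcases hT.all i with rfl | rfl | rfl <;> rcases hT.all j with rfl | rfl | rfl
  · exact absurd rfl hij
  · omega
  · omega
  · omega
  · exact absurd rfl hij
  · exact Or.inl ⟨rfl, rfl⟩
  · omega
  · exact Or.inr ⟨rfl, rfl⟩
  · exact absurd rfl hij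

private theorem FFLem_prefix {N : ℕ} {w : W} {e : B} (he : cs.IsRightDescent w e)
    (h : Le cs N w) : Le cs N (w * cs.simple e) := fun hf => h (fac_of_fac_mul cs he hf)

private theorem FFLem_one {i j k : B} (hij : i ≠ j) {u : W} (hu : u ∈ D cs i j)
    (h1 : cs.length u = 1) (hk : cs.IsRightDescent u k) : u = cs.simple k := by
  obtain ⟨l, -, rfl⟩ := len_one_D hij hu h1
  rw [rd_simple cs hk]

theorem ff1_lem {r s t : B} {b c : ℕ} (hT : T2 M r s t b c) (hbc : b < c) {x u y : W}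
    (hx : Rmin cs r s x) (hu : u ∈ D cs r s) (h2 : 2 ≤ cs.length u)
    (hs : cs.IsRightDescent u s) (hy : Lmin cs r s y) (hyD : y ∈ D cs s t) (hy1 : y ≠ 1)
    (hxu : Le cs b (x * u)) (huy : Le cs b (u * y))
    (hred : cs.length (x * u * y) = cs.length x + cs.length u + cs.length y)
    (h1 : cs.IsRightDescent (x * u * y) s) (h3 : cs.IsRightDescent (x * u * y) t) :
    FF1 cs r s t b c x u y := by
  have hst : b < M s t := by rw [hT.mst]; exact hbc
  have hm0 : M s t ≠ 0 := by omega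
  have hb := hT.hb
  have hsD : cs.simple s ∈ D cs r s := FFLem_mem cs (Or.inr rfl)
  have hsD' : cs.simple s ∈ D cs s t := FFLem_mem cs (Or.inl rfl)
  have htD' : cs.simple t ∈ D cs s t := FFLem_mem cs (Or.inr rfl)
  obtain ⟨u', hu'⟩ : ∃ u', u' = u * cs.simple s := ⟨_, rfl⟩
  obtain ⟨y', hy'⟩ : ∃ y', y' = cs.simple s * y := ⟨_, rfl⟩
  have hu'D : u' ∈ D cs r s := by rw [hu']; exact mul_mem hu hsD
  have hy'D : y' ∈ D cs s t := by rw [hy']; exact mul_mem hsD' hyD
  have hu'l : cs.length u' + 1 = cs.length u := by rw [hu']; exact cs.isRightDescent_iff.1 hs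
  have hy'l : cs.length y' = cs.length y + 1 := by rw [hy']; exact (cs.not_isLeftDescent_iff).1 hy.2
  have e1 : u * y = u' * y' := by
    rw [hu', hy', ← mul_assoc, cs.simple_mul_simple_cancel_right]
  have e2 : x * u * y = x * u' * y' := by
    rw [mul_assoc, e1, mul_assoc]
  have hluy := len_D_mul cs hT.rs hy hu
  have hred1 : Red cs u' y' := by
    unfold Red
    rw [← e1, hluy]
    omega
  have hy'w : y' ≠ wT cs s t := by
    intro e
    refine huy ?_
    rw [e1]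
    refine fac_of_suffix cs hred1 ?_
    rw [e]
    exact fac_of_both cs hT.st hst (rd_wT cs hT.st hm0 (Or.inl rfl))
      (rd_wT cs hT.st hm0 (Or.inr rfl))
  have hu's : ¬ cs.IsRightDescent u' s := by
    rw [hu', cs.not_isRightDescent_iff, cs.simple_mul_simple_cancel_right, ← hu']
    exact hu'l.symm
  have hxu's : ¬ cs.IsRightDescent (x * u') s := by
    rw [rd_mul_D cs hT.rs (Or.inr rfl) hx hu'D]
    exact hu's
  have hlxu := len_mul_D cs hT.rs hx hu
  have hlxu' := len_mul_D cs hT.rs hx hu'D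
  have hlexu' : Le cs b (x * u') := by
    have h5 : cs.IsRightDescent (x * u) s := (rd_mul_D cs hT.rs (Or.inr rfl) hx hu).2 hs
    rw [hu', ← mul_assoc]
    exact FFLem_prefix cs h5 hxu
  have htx : cs.IsRightDescent (x * u') t := by
    by_contra hcon
    have hmin : Rmin cs s t (x * u') := ⟨hxu's, hcon⟩
    rw [e2, rd_mul_D cs hT.st (Or.inl rfl) hmin hy'D] at h1
    rw [e2, rd_mul_D cs hT.st (Or.inr rfl) hmin hy'D] at h3
    exact hy'w (eq_wT_of_rd cs hT.st hm0 hy'D h1 h3)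
  have hu'1 : cs.length u' = 1 := by
    by_contra hne
    exact tb1 cs hT hbc hx hu'D (by omega) hlexu' htx
  obtain ⟨r', hr', hr'D, -, hr'd⟩ := rd_prev cs hT.rs hu h2 hs
  have hr'r : r' = r := by
    rcases hr'D with e | e
    · exact e
    · exact absurd e hr'
  subst hr'r
  rw [← hu'] at hr'd
  have hur : u' = cs.simple r' := FFLem_one cs hT.rs hu'D hu'1 hr'd
  rw [hur] at htx hxu's hlxu' hlexu'
  rw [cs.length_simple] at hlxu'
  have hurs : u = cs.simple r' * cs.simple s := by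
    rw [← hur, hu', cs.simple_mul_simple_cancel_right]
  obtain ⟨x₃, d, hx₃, hd, hxd⟩ := decompR cs hT.st (x * cs.simple r')
  have hld := len_mul_D cs hT.st hx₃ hd
  rw [← hxd, hlxu'] at hld
  have hdt : cs.IsRightDescent d t := by
    rw [hxd] at htx
    exact (rd_mul_D cs hT.st (Or.inr rfl) hx₃ hd).1 htx
  have hdyD : d * y' ∈ D cs s t := mul_mem hd hy'D
  have e3 : x * u * y = x₃ * (d * y') := by
    rw [e2, hur, hxd, mul_assoc]
  have hldy := len_mul_D cs hT.st hx₃ hdyD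
  rw [← e3, hred] at hldy
  rw [e3, rd_mul_D cs hT.st (Or.inl rfl) hx₃ hdyD] at h1
  rw [e3, rd_mul_D cs hT.st (Or.inr rfl) hx₃ hdyD] at h3
  have hdw := eq_wT_of_rd cs hT.st hm0 hdyD h1 h3
  have hlw : cs.length (d * y') = c := by rw [hdw, length_wT cs hT.st, hT.mst]
  have hdt' := cs.isRightDescent_iff.1 hdt
  refine ⟨hurs, hyD, ?_, ?_, ?_⟩
  · rw [e3, rd_mul_D cs hT.st (Or.inl rfl) hx₃ hdyD]
    exact h1
  · rw [e3, rd_mul_D cs hT.st (Or.inr rfl) hx₃ hdyD]
    exact h3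
  by_cases hd1 : cs.length d = 1
  · left
    omega
  right
  have hd2 : 2 ≤ cs.length d := by omega
  have hdtD : d * cs.simple t ∈ D cs s t := mul_mem hd htD'
  have hdts := rd_second cs hT.st hd hd2 hdt
  have e4 : x * cs.simple r' * cs.simple t = x₃ * (d * cs.simple t) := by rw [hxd, mul_assoc]
  have h5 : cs.IsRightDescent (x * cs.simple r' * cs.simple t) s := by
    rw [e4, rd_mul_D cs hT.st (Or.inl rfl) hx₃ hdtD]
    exact hdts
  have hrx : cs.IsRightDescent (x * cs.simple r') r' := by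
    rw [cs.isRightDescent_iff, cs.simple_mul_simple_cancel_right]
    exact ((cs.not_isRightDescent_iff).1 hx.1).symm
  have h6 := rd_of_both cs hT.rt hrx htx
  have hbm : b - 1 < M r' s := by rw [hT.mrs]; omega
  refine ⟨?_, fac_of_fac_mul cs htx (fac_of_both cs hT.rs hbm h6 h5)⟩
  by_cases hd3 : 3 ≤ cs.length d
  · exfalso
    have h7 := l2 cs hT hbc h6 h5 (FFLem_prefix cs htx hlexu')
    apply h7
    have h8 := rd_second cs hT.st.symm (a := d * cs.simple t)
      (by rw [show D cs t s = D cs s t by unfold D; rw [Set.pair_comm]]; exact hdtD)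
      (by omega) hdts
    rw [e4, mul_assoc, rd_mul_D cs hT.st (Or.inr rfl) hx₃ (mul_mem hdtD hsD')]
    exact h8
  · omega

private theorem FFLem_data {r s t : B} {b c : ℕ} (hT : T2 M r s t b c) {x u : W}
    (hx : Rmin cs r s x) (hu : u ∈ D cs r s) (h2 : 2 ≤ cs.length u)
    (hr : cs.IsRightDescent u r) (hxu : Le cs b (x * u)) :
    u * cs.simple r ∈ D cs r s ∧ cs.length (u * cs.simple r) + 1 = cs.length u ∧
      cs.IsRightDescent (u * cs.simple r) s ∧ ¬ cs.IsRightDescent (u * cs.simple r) r ∧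
      Le cs b (x * (u * cs.simple r)) ∧ u * cs.simple r * cs.simple r = u := by
  have hrD : cs.simple r ∈ D cs r s := FFLem_mem cs (Or.inl rfl)
  obtain ⟨s', hs', hs'D, -, hs'd⟩ := rd_prev cs hT.rs hu h2 hr
  have hs's : s' = s := by
    rcases hs'D with e | e
    · exact absurd e hs'
    · exact e
  subst hs's
  have hl := cs.isRightDescent_iff.1 hr
  refine ⟨mul_mem hu hrD, hl, hs'd, ?_, ?_, cs.simple_mul_simple_cancel_right r⟩
  · rw [cs.not_isRightDescent_iff, cs.simple_mul_simple_cancel_right]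
    exact hl.symm
  · have h5 : cs.IsRightDescent (x * u) r := (rd_mul_D cs hT.rs (Or.inl rfl) hx hu).2 hr
    rw [← mul_assoc]
    exact FFLem_prefix cs h5 hxu

theorem ff2_lem {r s t : B} {b c : ℕ} (hT : T2 M r s t b c) (hbc : b < c)
    (h37 : b = 3 → 7 ≤ c) {x u : W}
    (hx : Rmin cs r s x) (hu : u ∈ D cs r s) (h2 : 2 ≤ cs.length u)
    (hr : cs.IsRightDescent u r) (hxu : Le cs b (x * u))
    (ht : ¬ cs.IsRightDescent (x * (u * cs.simple r)) t)
    (hF : Fac cs b (x * (u * cs.simple r) * cs.simple t)) :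
    FF2 cs r s t x u (cs.simple t) := by
  obtain ⟨hD, hl1, hs1, hr1, hle1, hcan⟩ := FFLem_data cs hT hx hu h2 hr hxu
  have hb := hT.hb
  have hc5 : 5 ≤ M t s := by
    rw [M.symmetric, hT.mst]
    by_cases h3 : b = 3
    · have := h37 h3
      omega
    · omega
  set u₁ := u * cs.simple r with hu₁
  have hwt : cs.IsRightDescent (x * u₁ * cs.simple t) t := by
    rw [cs.isRightDescent_iff, cs.simple_mul_simple_cancel_right]
    exact ((cs.not_isRightDescent_iff).1 ht).symm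
  have hws : cs.IsRightDescent (x * u₁ * cs.simple t) s := by
    rcases fac_step cs hF with ⟨i, j, hij, hm, hi, hj⟩ | ⟨e, he, hFe⟩
    · rcases t2_gt hT hij hm with ⟨rfl, rfl⟩ | ⟨rfl, rfl⟩
      · exact hi
      · exact hj
    · rcases hT.all e with rfl | rfl | rfl
      · exfalso
        have h5 := rd_of_both cs hT.rt he hwt
        rw [cs.simple_mul_simple_cancel_right] at h5
        exact hr1 ((rd_mul_D cs hT.rs (Or.inl rfl) hx hD).1 h5)
      · exact he
      · exfalso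
        rw [cs.simple_mul_simple_cancel_right] at hFe
        exact hle1 hFe
  have hu₁s : u₁ = cs.simple s := by
    refine FFLem_one cs hT.rs hD ?_ hs1
    by_contra hne
    have h3 : 2 ≤ cs.length u₁ := by omega
    obtain ⟨c1, c2, c3, c4⟩ := chain5 cs hT.st.symm hc5 hwt hws
    rw [cs.simple_mul_simple_cancel_right] at c1 c2 c3 c4
    obtain ⟨-, h5⟩ := tb4 cs hT hbc hx hD h3 hs1 hle1 c2
    exact (h5 c3).2 c4
  rw [hu₁s] at hws hwt hcan
  exact ⟨hcan.symm, rfl, hws, hwt⟩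

theorem ff3_lem {r s t : B} {b c : ℕ} (hT : T2 M r s t b c) (hbc : b < c)
    (h37 : b = 3 → 7 ≤ c) {x u ν : W}
    (hx : Rmin cs r s x) (hu : u ∈ D cs r s) (h2 : 2 ≤ cs.length u)
    (hr : cs.IsRightDescent u r) (hxu : Le cs b (x * u))
    (hX : Rmin cs r s (x * (u * cs.simple r) * cs.simple t))
    (hXle : Le cs b (x * (u * cs.simple r) * cs.simple t))
    (ht : ¬ cs.IsRightDescent (x * (u * cs.simple r)) t)
    (hν : ν ∈ D cs r s) (hrν : cs.simple r * ν = wT cs r s) (hνl : cs.length ν + 1 = b)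
    (hνs : cs.IsLeftDescent ν s) (hνr : ¬ cs.IsLeftDescent ν r)
    (hF : Fac cs b (x * (u * cs.simple r) * cs.simple t * ν)) :
    FF3 cs r s t b x u (cs.simple t * ν) := by
  obtain ⟨hD, hl1, hs1, hr1, hle1, hcan⟩ := FFLem_data cs hT hx hu h2 hr hxu
  have hb := hT.hb
  have hc5 : 5 ≤ M s t := by
    rw [hT.mst]
    by_cases h3 : b = 3
    · have := h37 h3
      omega
    · omega
  have hνw : ν ≠ wT cs r s := by
    intro e
    rw [e, length_wT cs hT.rs, hT.mrs] at hνl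
    omega
  have hwt := facDs cs hT hbc hX hXle hν hνw hνs hF
  have hws : cs.IsRightDescent (x * (u * cs.simple r) * cs.simple t * cs.simple s) s := by
    rw [cs.isRightDescent_iff, cs.simple_mul_simple_cancel_right]
    exact ((cs.not_isRightDescent_iff).1 hX.2).symm
  refine ⟨?_, ν, rfl, hν, hrν, hνl, hνs, hνr, hws, hwt⟩
  by_cases h3 : cs.length (u * cs.simple r) = 1
  · left
    have := FFLem_one cs hT.rs hD h3 hs1
    rw [← hcan, this]
  · right
    have h3' : 2 ≤ cs.length (u * cs.simple r) := by omega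
    obtain ⟨c1, c2, c3, c4⟩ := chain5 cs hT.st hc5 hws hwt
    rw [cs.simple_mul_simple_cancel_right] at c1 c2 c3 c4
    rw [cs.simple_mul_simple_cancel_right] at c2 c3 c4
    obtain ⟨h4, h5⟩ := tb4 cs hT hbc hx hD h3' hs1 hle1 c3
    obtain ⟨h6, h7⟩ := h5 c4
    have hc6 : ¬ 6 ≤ M s t := by
      intro h8
      have c5 := chain6 cs hT.st h8 hws hwt
      rw [cs.simple_mul_simple_cancel_right, cs.simple_mul_simple_cancel_right] at c5
      exact h7 c5
    rw [hT.mst] at hc6 hc5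
    have hb4 : b = 4 := by
      by_cases h9 : b = 3
      · have := h37 h9
        omega
      · omega
    refine ⟨?_, ?_, hb4, h6⟩
    · rw [← hcan, h4]
    · have h10 := cs.length_mul_le (cs.simple r) (cs.simple s)
      rw [← h4, cs.length_simple, cs.length_simple] at h10
      omega

end Pool.Agent.PolyCell
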