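import Pool.Agent.Tri2.Wall

/-!
# Passing a first failure through `t ν`

`u = u₁ r`, `u t ν = u₁ t (r ν) = u₁ t w_{rs}` (`comm_of_two`), so `x u y = X w_{rs} y₅`, `X = x u₁ t`. `X` is `{r,s}`-rmin, `ℓ(X) = ℓ(x) + ℓ(u)` (`xmin`: `x u t` is reduced and in `W_{≤b}` by `min` with `y₀ = t`). `y₅` is `{r,s}`-lmin: `u y = u₁ t w_{rs} y₅` is reduced
(`ℓ(uy) = ℓ(u) + ℓ(y) = ℓ(u₁) + 1 + b + ℓ(y₅)`), so `w_{rs} y₅` is reduced (`ℓ(w_{rs} y₅) = b + ℓ(y₅)`), and a left descent `g ∈ {r,s}` of `y₅` would give `ℓ(w_{rs} y₅) ≤ ℓ(w_{rs} g) + ℓ(g y₅) ≤ b - 1 + ℓ(y₅) - 1`. `w_{rs} y₅` is a suffix of `u y`. `X w_{rs} = x u t ν`: `min` with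
`y₀ = t ν`, `z = y₅`. `min`: `y₅ = y₀ z` gives `y = (t ν y₀) z`.
-/

open CoxeterSystem

namespace Pool.Agent.PolyCell

variable {B W : Type*} [Group W] {M : CoxeterMatrix B} (cs : CoxeterSystem M W)

theorem ff_next {r s t : B} {b c : ℕ} (hT : T2 M r s t b c) (hbc : b < c) {x u y ν y₅ : W}
    (h : FirstFail cs r s b x u y) (hr : cs.IsRightDescent u r)
    (hy : y = cs.simple t * ν * y₅) (hν : ν ∈ D cs r s)
    (hrν : cs.simple r * ν = wT cs r s) (hνl : cs.length ν + 1 = b)
    (hl : cs.length y = 1 + cs.length ν + cs.length y₅) (h5 : y₅ ≠ 1) :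
    FirstFail cs r s b (x * (u * cs.simple r) * cs.simple t) (wT cs r s) y₅ ∧
      cs.length y₅ < cs.length y := by
  have hb := hT.hb
  have hM0 : M r s ≠ 0 := by rw [hT.mrs]; omega
  have hw : cs.length (wT cs r s) = b := by rw [length_wT cs hT.rs, hT.mrs]
  have hcomm : cs.simple r * cs.simple t = cs.simple t * cs.simple r := comm_of_two cs hT.mrt
  have hu1 : cs.length (u * cs.simple r) + 1 = cs.length u := cs.isRightDescent_iff.1 hr
  -- `u t ν = (u r) t w`
  have key : ∀ g : W, x * u * (cs.simple t * ν * g) =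
      x * (u * cs.simple r) * cs.simple t * wT cs r s * g := by
    intro g
    rw [← hrν]
    have : x * (u * cs.simple r) * cs.simple t * (cs.simple r * ν) * g =
        x * u * (cs.simple r * cs.simple t * cs.simple r) * ν * g := by
      simp only [mul_assoc]
    rw [this, hcomm, mul_assoc (cs.simple t) (cs.simple r) (cs.simple r),
      cs.simple_mul_simple_self, mul_one]
    simp only [mul_assoc]
  have key2 : u * y = (u * cs.simple r * cs.simple t) * (wT cs r s * y₅) := by
    rw [hy, ← hrν]
    have : u * cs.simple r * cs.simple t * (cs.simple r * ν * y₅) =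
        u * (cs.simple r * cs.simple t * cs.simple r) * ν * y₅ := by
      simp only [mul_assoc]
    rw [this, hcomm, mul_assoc (cs.simple t) (cs.simple r) (cs.simple r),
      cs.simple_mul_simple_self, mul_one]
    simp only [mul_assoc]
  have e1 : cs.length (cs.simple t) = 1 := cs.length_simple t
  have hzlen : cs.length (ν * y₅) ≤ cs.length ν + cs.length y₅ := cs.length_mul_le ν y₅
  have hyt : y = cs.simple t * (ν * y₅) := by rw [hy, mul_assoc]
  have hyl : cs.length y ≤ 1 + cs.length (ν * y₅) := by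
    have := cs.length_mul_le (cs.simple t) (ν * y₅)
    rw [← hyt, e1] at this
    exact this
  -- `x u t`
  have hz1 : ν * y₅ ≠ 1 := by
    intro h0
    rw [h0, cs.length_one] at hyl
    omega
  have hlet : Le cs b (x * u * cs.simple t) :=
    h.min (cs.simple t) (ν * y₅) hyt (by omega) hz1
  have hred := h.red
  have hlt : cs.length (x * u * cs.simple t) = cs.length x + cs.length u + 1 := by
    have h1 := cs.length_mul_le (x * u) (cs.simple t)
    have h2 := cs.length_mul_le x u
    have h3 := cs.length_mul_le (x * u * cs.simple t) (ν * y₅)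
    have h4 : x * u * cs.simple t * (ν * y₅) = x * u * y := by rw [hyt]; simp only [mul_assoc]
    rw [h4] at h3
    omega
  obtain ⟨hX, hXl, -, -⟩ := xmin cs hT hbc h.hx h.hu hr hlt hlet
  have hleny := len_D_mul cs hT.rs h.hy h.hu
  have hwy : cs.length (wT cs r s * y₅) = b + cs.length y₅ := by
    have h1 := cs.length_mul_le (u * cs.simple r * cs.simple t) (wT cs r s * y₅)
    have h2 := cs.length_mul_le (u * cs.simple r) (cs.simple t)
    have h3 := cs.length_mul_le (wT cs r s) y₅
    rw [← key2] at h1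
    omega
  have hut : cs.length (u * cs.simple r * cs.simple t) = cs.length u := by
    have h1 := cs.length_mul_le (u * cs.simple r * cs.simple t) (wT cs r s * y₅)
    have h2 := cs.length_mul_le (u * cs.simple r) (cs.simple t)
    rw [← key2] at h1
    omega
  have hLy : ∀ g : B, g = r ∨ g = s → ¬ cs.IsLeftDescent y₅ g := by
    intro g hg hd
    have h1 : cs.length (cs.simple g * y₅) + 1 = cs.length y₅ := cs.isLeftDescent_iff.1 hd
    have h2 : cs.length (wT cs r s * cs.simple g) + 1 = cs.length (wT cs r s) :=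
      cs.isRightDescent_iff.1 (rd_wT cs hT.rs hM0 hg)
    have h3 := cs.length_mul_le (wT cs r s * cs.simple g) (cs.simple g * y₅)
    have h4 : wT cs r s * cs.simple g * (cs.simple g * y₅) = wT cs r s * y₅ := by
      rw [mul_assoc, ← mul_assoc (cs.simple g) (cs.simple g), cs.simple_mul_simple_self, one_mul]
    rw [h4] at h3
    omega
  have hxuy : x * u * y = x * (u * cs.simple r) * cs.simple t * wT cs r s * y₅ := by
    rw [hy, key]
  refine ⟨⟨hX, wT_mem cs r s, by omega, ⟨hLy r (Or.inl rfl), hLy s (Or.inr rfl)⟩, ?_, ?_, ?_, ?_, ?_⟩,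
    by omega⟩
  · -- `X w`
    have h1 : x * u * (cs.simple t * ν) = x * (u * cs.simple r) * cs.simple t * wT cs r s := by
      have := key 1
      simpa only [mul_one] using this
    rw [← h1]
    refine h.min (cs.simple t * ν) y₅ hy ?_ h5
    have h2 := cs.length_mul_le (cs.simple t) ν
    have h3 := cs.length_mul_le (cs.simple t * ν) y₅
    rw [← hy] at h3
    omega
  · -- `w y₅`
    refine le_suffix cs (x := u * cs.simple r * cs.simple t) ?_ (by rw [← key2]; exact h.leuy)
    show cs.length _ = _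
    rw [← key2]
    omega
  · rw [← hxuy]
    omega
  · rw [← hxuy]
    exact h.fac
  · intro y₀ z hyz hlz hz
    rw [← key]
    refine h.min (cs.simple t * ν * y₀) z (by rw [hy, hyz]; simp only [mul_assoc]) ?_ hz
    have h2 := cs.length_mul_le (cs.simple t) ν
    have h3 := cs.length_mul_le (cs.simple t * ν) y₀
    have h4 := cs.length_mul_le (cs.simple t * ν * y₀) z
    have h5 : cs.simple t * ν * y₀ * z = y := by rw [hy, hyz]; simp only [mul_assoc]
    rw [h5] at h4
    omega

end Pool.Agent.PolyCell
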