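import Pool.Agent.Tri2.FFGood
import Pool.Agent.Tri2.FFLem
import Pool.Agent.Tri2.FFNext

/-!
# Classification of first failures

`ffres_wrs`: `FFRes` is impossible for `u = w_{rs}`: `ℓ(w_{rs}) = b ≥ 3`; type 1, 2: `ℓ(u) ≤ 2`; type 3: `u = sr`, or `ℓ(u) = 3` and `b = 4`.
`ff_first`: strong induction on `ℓ(y)` (all `x, u`). `h : FirstFail cs r s b x u y`. `y ≠ 1` (`lexu`, `fac`). For every `l ∈ R(y)`: `x u y l ∈ W_{≤b}` (`min`), reduced, `ff_good` for `y l`; `l ∈ R(xuy)`. `fac_step` for `x u y`:
(A) `i' ≠ j' ∈ R(xuy)`, `b < M i' j'`: so `s, t ∈ R(xuy)`.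
(B) `e ∈ R(xuy)`, `x u y e ∈ W_{>b}`. Then `e ∉ R(y)` (`min`). Take `l ∈ R(y)`, `l ≠ e`. `{e,l} = {s,t}`: case (A). `{e,l} = {r,t}`: `e ∈ R(xuyl)` (`rd_of_both`), `e ∈ R(uyl)` (`ff_good`), `e ∈ R(uy)` (`rd_comm2`; `l ∉ R(uyl)`). `{e,l} = {r,s}`: `tail_rs` (its `ih` is `ff_good`, its `hle` is `min`): `e ∈ R(uy)`.
 So `e ∈ R(uy)`, `e ∉ R(y)`: `deodhar`: `p ∈ {r,s}`, `y e = p y`, `p ∈ R(u)`. `t ∈ L(y)`. `p = s`: `wall_s`: `s y ∈ W_{>b}`, a suffix of `u y`: contradiction. `p = r`: `wall_rt`:
 - `y = t`, `e = r`: `x u y e = x u t r = x (ur) t` (`comm_of_two`): `ff2_lem` (`t ∉ R(x (ur))`: `x u t = x (ur) t r` is reduced of length `ℓ(x) + ℓ(u) + 1`, so `x (ur) t` has length `ℓ(x) + ℓ(ur) + 1`).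
 - `y = t ν y₃`, `y₃ ≠ 1`: `ff_next`, induction hypothesis, `ffres_wrs`: contradiction.
 - `y = t ν`: `x u y e = x u r y` (as `y e = r y`) `= x (ur) t ν`: `ff3_lem` (`X` rmin and in `W_{≤b}`: `xmin`).
(A): `s, t ∈ R(xuy)`. Let `l ∈ R(y)`: `l = r` is impossible: `s, t ∈ R(xuyr)` (`rd_of_both`), contradiction to `min`. So `R(y) ⊆ {s,t}`. `y = y'' a'` (`decompR` for `{s,t}`), `a' ≠ 1`. `x u y'' ∈ W_{≤b}` (`min`).
 - `u y''` is `{s,t}`-rmin: so is `x u y''` (`ff_good`), so `s, t ∈ R(a')` (`rd_mul_D`), `s, t ∈ R(uy)`: contradiction to `leuy`.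
 - otherwise `q ∈ {s,t}`, `q ∈ R(uy'')`, `q ∉ R(y'')`; `deodhar` (`y''` is `{r,s}`-lmin as a prefix of `y`): `p ∈ {r,s}`, `y'' q = p y''`, `p ∈ R(u)`. `y'' = 1`: `q = p = s` (`q ≠ r`): `y ∈ D_{st}`, `ff1_lem`. `y'' ≠ 1`: `p = s`: `wall_s` contradiction. `p = r`: `wall_rt` for `y''`: `y'' = t`, `q = r`: contradiction; `y'' = t ν y₃`: `ff_next` with `y₅ = y₃ a' ≠ 1`
   (lengths add), induction hypothesis, `ffres_wrs`: contradiction.
-/

open CoxeterSystem

namespace Pool.Agent.PolyCell

variable {B W : Type*} [Group W] {M : CoxeterMatrix B} (cs : CoxeterSystem M W)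

private theorem FFFirst_mem {i j k : B} (h : k = i ∨ k = j) : cs.simple k ∈ D cs i j := by
  rcases h with rfl | rfl <;> exact Subgroup.subset_closure (by simp)

private theorem FFFirst_ld_t {r s t : B} {b c : ℕ} (hT : T2 M r s t b c) {y : W}
    (hy : Lmin cs r s y) (hy1 : y ≠ 1) : cs.IsLeftDescent y t := by
  obtain ⟨k, hk⟩ := cs.exists_leftDescent_of_ne_one hy1
  rcases hT.all k with rfl | rfl | rfl
  · exact absurd hk hy.1
  · exact absurd hk hy.2
  · exact hk

private theorem FFFirst_lmin {r s : B} {y y₀ z : W} (hy : Lmin cs r s y) (e : y = y₀ * z)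
    (hl : cs.length y = cs.length y₀ + cs.length z) : Lmin cs r s y₀ := by
  have hR : Red cs y₀ z := by
    unfold Red
    rw [← e, hl]
  constructor
  · intro h
    apply hy.1
    rw [e]
    exact ld_mul_of_red cs hR h
  · intro h
    apply hy.2
    rw [e]
    exact ld_mul_of_red cs hR h

private theorem FFFirst_good {r s t : B} {b c : ℕ} (hT : T2 M r s t b c) (hbc : b < c)
    {x u y y₀ z : W} (h : FirstFail cs r s b x u y) (e : y = y₀ * z)
    (hl : cs.length y = cs.length y₀ + cs.length z) (hz : z ≠ 1) :
    Le cs b (x * u * y₀) ∧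
      cs.length (x * u * y₀) = cs.length x + cs.length u + cs.length y₀ ∧ Lmin cs r s y₀ ∧
      ∀ k, cs.IsRightDescent (x * u * y₀) k → cs.IsRightDescent (u * y₀) k := by
  have h1 := h.min y₀ z e hl hz
  have h2 : cs.length (x * u * y₀) = cs.length x + cs.length u + cs.length y₀ := by
    have h3 := h.red
    have h4 := cs.length_mul_le (x * u * y₀) z
    have h5 := cs.length_mul_le (x * u) y₀
    have h6 := cs.length_mul_le x u
    rw [mul_assoc (x * u), ← e] at h4
    omega
  have h3 := FFFirst_lmin cs h.hy e hl
  exact ⟨h1, h2, h3, ff_good cs hT hbc y₀ x u h.hx h.hu h.h2 h3 h2 h1⟩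

/-- the last letter removed -/
private theorem FFFirst_last {y : W} {l : B} (hl : cs.IsRightDescent y l) :
    y = y * cs.simple l * cs.simple l ∧
      cs.length y = cs.length (y * cs.simple l) + cs.length (cs.simple l) ∧
      cs.simple l ≠ 1 := by
  refine ⟨by rw [cs.simple_mul_simple_cancel_right], ?_, ?_⟩
  · rw [cs.length_simple]
    exact (cs.isRightDescent_iff.1 hl).symm
  · intro e
    have h1 := cs.length_simple l
    rw [e, cs.length_one] at h1
    omega

private theorem FFFirst_wall_s {r s t : B} {b c : ℕ} (hT : T2 M r s t b c) (hbc : b < c)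
    {u y : W} {k : B} (hu : u ∈ D cs r s) (hy : Lmin cs r s y) (hy1 : y ≠ 1)
    (hk : ¬ cs.IsRightDescent y k) (h : y * cs.simple k = cs.simple s * y)
    (hs : cs.IsRightDescent u s) (hle : Le cs b (u * y)) : False := by
  have h1 := wall_s cs hT hbc (FFFirst_ld_t cs hT hy hy1) hk h
  have h2 := len_D_mul cs hT.rs hy hu
  have h3 := cs.isRightDescent_iff.1 hs
  have h4 := cs.not_isLeftDescent_iff.1 hy.2
  have h5 : u * cs.simple s * (cs.simple s * y) = u * y := by
    rw [mul_assoc, cs.simple_mul_simple_cancel_left]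
  have hR : Red cs (u * cs.simple s) (cs.simple s * y) := by
    unfold Red
    rw [h5]
    omega
  have h6 := fac_of_suffix cs hR h1
  rw [h5] at h6
  exact hle h6

theorem ffres_wrs {r s t : B} {b c : ℕ} (hT : T2 M r s t b c) {x y : W}
    (h : FFRes cs r s t b c x (wT cs r s) y) : False := by
  have h1 : cs.length (wT cs r s) = b := by rw [length_wT cs hT.rs, hT.mrs]
  have h2 := hT.hb
  have h3 : ∀ i j : B, cs.length (cs.simple i * cs.simple j) ≤ 2 := by
    intro i j
    have h4 := cs.length_mul_le (cs.simple i) (cs.simple j)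
    rw [cs.length_simple, cs.length_simple] at h4
    exact h4
  rcases h with h | h | h
  · have h4 := h3 r s
    rw [← h.1] at h4
    omega
  · have h4 := h3 s r
    rw [← h.1] at h4
    omega
  · rcases h.1 with h5 | h5
    · have h4 := h3 s r
      rw [← h5] at h4
      omega
    · have h6 := h5.2.1
      have h7 := h5.2.2.1
      omega

theorem ff_first {r s t : B} {b c : ℕ} (hT : T2 M r s t b c) (hbc : b < c)
    (h37 : b = 3 → 7 ≤ c) (y : W) :
    ∀ x u : W, FirstFail cs r s b x u y → FFRes cs r s t b c x u y := by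
  induction hn : cs.length y using Nat.strong_induction_on generalizing y with
  | _ n ih =>
  subst hn
  have IH : ∀ z x u : W, cs.length z < cs.length y → FirstFail cs r s b x u z →
      FFRes cs r s t b c x u z := fun z x u hz h => ih _ hz z rfl x u h
  clear ih
  intro x u h
  have hb := hT.hb
  have hst : b < M s t := by rw [hT.mst]; exact hbc
  have hxu : cs.length (x * u) = cs.length x + cs.length u := len_mul_D cs hT.rs h.hx h.hu
  have huy : cs.length (u * y) = cs.length u + cs.length y := len_D_mul cs hT.rs h.hy h.hu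
  have hredxuy : Red cs (x * u) y := by
    unfold Red
    rw [h.red, hxu]
  have hy1 : y ≠ 1 := by
    intro e
    apply h.lexu
    have h1 := h.fac
    rwa [e, mul_one] at h1
  -- the case of two descents
  have hA : cs.IsRightDescent (x * u * y) s → cs.IsRightDescent (x * u * y) t →
      FFRes cs r s t b c x u y := by
    intro hs ht
    obtain ⟨l, hl⟩ := cs.exists_rightDescent_of_ne_one hy1
    have hlx := rd_mul_of_red cs hredxuy hl
    have hlr : l ≠ r := by
      rintro rfl
      obtain ⟨e1, e2, e3⟩ := FFFirst_last cs hl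
      have h1 := (FFFirst_good cs hT hbc h e1 e2 e3).1
      apply h1
      apply fac_of_both cs hT.st hst
      · have := rd_of_both cs hT.rs.symm hs hlx
        rwa [mul_assoc] at this
      · have := rd_of_both cs hT.rt.symm ht hlx
        rwa [mul_assoc] at this
    have hlst : l = s ∨ l = t := by
      rcases hT.all l with h1 | h1 | h1
      · exact absurd h1 hlr
      · exact Or.inl h1
      · exact Or.inr h1
    obtain ⟨y₀, a, hy₀, ha, hya⟩ := decompR cs hT.st y
    have hlya : cs.length y = cs.length y₀ + cs.length a := by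
      rw [hya]
      exact len_mul_D cs hT.st hy₀ ha
    have ha1 : a ≠ 1 := by
      rintro rfl
      rw [mul_one] at hya
      rw [hya] at hl
      rcases hlst with rfl | rfl
      · exact hy₀.1 hl
      · exact hy₀.2 hl
    obtain ⟨g1, g2, g3, g4⟩ := FFFirst_good cs hT hbc h hya hlya ha1
    have huy₀ : cs.length (u * y₀) = cs.length u + cs.length y₀ := len_D_mul cs hT.rs g3 h.hu
    have hle₀ : Le cs b (u * y₀) := by
      have hR : Red cs (u * y₀) a := by
        unfold Red
        rw [mul_assoc, ← hya]
        omega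
      apply le_prefix cs hR
      rw [mul_assoc, ← hya]
      exact h.leuy
    by_cases hm : Rmin cs s t (u * y₀)
    · exfalso
      have hm' : Rmin cs s t (x * u * y₀) := ⟨fun h1 => hm.1 (g4 s h1), fun h1 => hm.2 (g4 t h1)⟩
      rw [hya, ← mul_assoc] at hs ht
      have h1 := (rd_mul_D cs hT.st (Or.inl rfl) hm' ha).1 hs
      have h2 := (rd_mul_D cs hT.st (Or.inr rfl) hm' ha).1 ht
      apply h.leuy
      rw [hya, ← mul_assoc]
      apply fac_of_both cs hT.st hst
      · exact (rd_mul_D cs hT.st (Or.inl rfl) hm ha).2 h1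
      · exact (rd_mul_D cs hT.st (Or.inr rfl) hm ha).2 h2
    · have hq : ∃ q, (q = s ∨ q = t) ∧ cs.IsRightDescent (u * y₀) q ∧
          ¬ cs.IsRightDescent y₀ q := by
        by_contra hcon
        push Not at hcon
        exact hm ⟨fun h1 => hy₀.1 (hcon s (Or.inl rfl) h1), fun h1 => hy₀.2 (hcon t (Or.inr rfl) h1)⟩
      obtain ⟨q, hqst, hq1, hq2⟩ := hq
      obtain ⟨p, hp, hyq, hpu⟩ := deodhar cs hT.rs g3 h.hu hq1 hq2
      by_cases hy01 : y₀ = 1
      · subst hy01
        rw [one_mul, mul_one] at hyq
        have hqp : q = p := rd_simple cs (by rw [← hyq]; exact rd_simple_self cs q)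
        subst hqp
        have hqs : q = s := by
          rcases hqst with h1 | h1
          · exact h1
          · rcases hp with h2 | h2
            · exact absurd (h2.symm.trans h1) hT.rt
            · exact h2
        subst hqs
        rw [one_mul] at hya
        left
        exact ff1_lem cs hT hbc h.hx h.hu h.h2 hpu h.hy (by rw [hya]; exact ha) hy1 h.lexu h.leuy
          h.red hs ht
      · exfalso
        rcases hp with rfl | rfl
        · rcases wall_rt cs hT g3 hy01 hq2 hyq with h1 | h1
          · rcases hqst with h2 | h2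
            · exact hT.rs (h1.2.symm.trans h2)
            · exact hT.rt (h1.2.symm.trans h2)
          · obtain ⟨ν, y₃, e1, hν, hrν, hνl, hνs, hνr, hy₃, hl3⟩ := h1
            have e2 : y = cs.simple t * ν * (y₃ * a) := by
              rw [hya, e1]
              simp only [mul_assoc]
            have h2 := cs.length_mul_le (cs.simple t * ν) (y₃ * a)
            rw [← e2] at h2
            have h3 := cs.length_mul_le (cs.simple t) ν
            rw [cs.length_simple] at h3
            have h4 := cs.length_mul_le y₃ a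
            have h5 : cs.length a ≠ 0 := fun h5 => ha1 (cs.length_eq_zero_iff.1 h5)
            have h6 : y₃ * a ≠ 1 := by
              intro e3
              rw [e3, cs.length_one] at h2
              omega
            obtain ⟨h7, h8⟩ := ff_next cs hT hbc h hpu e2 hν hrν hνl (by omega) h6
            exact ffres_wrs cs hT (IH _ _ _ h8 h7)
        · exact FFFirst_wall_s cs hT hbc h.hu g3 hy01 hq2 hyq hpu hle₀
  rcases fac_step cs h.fac with ⟨i, j, hij, hm, hi, hj⟩ | ⟨e, he, hF⟩
  · -- the labels
    have hrs := hT.mrs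
    have hrt := hT.mrt
    have hsr : M s r = b := by rw [M.symmetric]; exact hrs
    have htr : M t r = 2 := by rw [M.symmetric]; exact hrt
    rcases hT.all i with rfl | rfl | rfl <;> rcases hT.all j with rfl | rfl | rfl
    · exact absurd rfl hij
    · omega
    · omega
    · omega
    · exact absurd rfl hij
    · exact hA hi hj
    · omega
    · exact hA hj hi
    · exact absurd rfl hij
  · -- a letter can be removed
    have hey : ¬ cs.IsRightDescent y e := by
      intro h1
      obtain ⟨e1, e2, e3⟩ := FFFirst_last cs h1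
      have h2 := (FFFirst_good cs hT hbc h e1 e2 e3).1
      apply h2
      rwa [← mul_assoc]
    obtain ⟨l, hl⟩ := cs.exists_rightDescent_of_ne_one hy1
    have hlx := rd_mul_of_red cs hredxuy hl
    have hel : e ≠ l := by
      rintro rfl
      exact hey hl
    by_cases hcA : (e = s ∧ l = t) ∨ (e = t ∧ l = s)
    · rcases hcA with ⟨rfl, rfl⟩ | ⟨rfl, rfl⟩
      · exact hA he hlx
      · exact hA hlx he
    have heuy : cs.IsRightDescent (u * y) e := by
      by_cases hrt : (e = r ∧ l = t) ∨ (e = t ∧ l = r)
      · have hM2 : M e l = 2 := by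
          rcases hrt with ⟨rfl, rfl⟩ | ⟨rfl, rfl⟩
          · exact hT.mrt
          · rw [M.symmetric]; exact hT.mrt
        obtain ⟨e1, e2, e3⟩ := FFFirst_last cs hl
        obtain ⟨g1, g2, g3, g4⟩ := FFFirst_good cs hT hbc h e1 e2 e3
        have h1 := rd_of_both cs hel he hlx
        rw [mul_assoc] at h1
        have h2 := g4 e h1
        have h3 : cs.length (u * (y * cs.simple l)) = cs.length u + cs.length (y * cs.simple l) :=
          len_D_mul cs hT.rs g3 h.hu
        have h4 : u * (y * cs.simple l) * cs.simple l = u * y := by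
          rw [mul_assoc, cs.simple_mul_simple_cancel_right]
        have h5 : ¬ cs.IsRightDescent (u * (y * cs.simple l)) l := by
          intro h6
          have h7 := cs.isRightDescent_iff.1 h6
          rw [h4] at h7
          rw [cs.length_simple] at e2
          omega
        have h6 := rd_comm2 cs hel hM2 h2 h5
        rwa [h4] at h6
      · have hers : (e = r ∨ e = s) ∧ (l = r ∨ l = s) := by
          rcases hT.all e with h1 | h1 | h1 <;> rcases hT.all l with h2 | h2 | h2
          · exact absurd (h1.trans h2.symm) hel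
          · exact ⟨Or.inl h1, Or.inr h2⟩
          · exact absurd (Or.inl ⟨h1, h2⟩) hrt
          · exact ⟨Or.inr h1, Or.inl h2⟩
          · exact absurd (h1.trans h2.symm) hel
          · exact absurd (Or.inl ⟨h1, h2⟩) hcA
          · exact absurd (Or.inr ⟨h1, h2⟩) hrt
          · exact absurd (Or.inr ⟨h1, h2⟩) hcA
          · exact absurd (h1.trans h2.symm) hel
        exact tail_rs cs hT hbc (fun z _ => ff_good cs hT hbc z) h.hx h.hu h.h2 h.hy h.red h.min
          hers.2 hl hers.1 he
    obtain ⟨p, hp, hye, hpu⟩ := deodhar cs hT.rs h.hy h.hu heuy hey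
    rcases hp with rfl | rfl
    · have hur : cs.length (u * cs.simple p) + 1 = cs.length u := cs.isRightDescent_iff.1 hpu
      have hurD : u * cs.simple p ∈ D cs p s :=
        Subgroup.mul_mem _ h.hu (FFFirst_mem cs (Or.inl rfl))
      have hxur : cs.length (x * (u * cs.simple p)) = cs.length x + cs.length (u * cs.simple p) :=
        len_mul_D cs hT.rs h.hx hurD
      rcases wall_rt cs hT h.hy hy1 hey hye with ⟨h1, h2⟩ | h1
      · right; left
        subst h2
        have h3 : x * u * y * cs.simple e = x * (u * cs.simple e) * cs.simple t := by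
          rw [mul_assoc (x * u), hye, h1]
          simp only [mul_assoc]
        rw [h3] at hF
        have ht : ¬ cs.IsRightDescent (x * (u * cs.simple e)) t := by
          intro h4
          have h5 := cs.isRightDescent_iff.1 h4
          have h6 := h.red
          have h7 : x * u * y = x * (u * cs.simple e) * cs.simple t * cs.simple e := by
            rw [← h3, cs.simple_mul_simple_cancel_right]
          have h8 := cs.length_mul_le (x * (u * cs.simple e) * cs.simple t) (cs.simple e)
          rw [← h7, cs.length_simple] at h8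
          have h9 : cs.length y = 1 := by rw [h1, cs.length_simple]
          omega
        have h4 := ff2_lem cs hT hbc h37 h.hx h.hu h.h2 hpu h.lexu ht hF
        rwa [← h1] at h4
      · obtain ⟨ν, y₃, e1, hν, hrν, hνl, hνs, hνr, hy₃, hl3⟩ := h1
        by_cases hy31 : y₃ = 1
        · right; right
          subst hy31
          rw [mul_one] at e1
          rw [cs.length_one, add_zero] at hl3
          have hν1 : ν ≠ 1 := by
            rintro rfl
            rw [cs.length_one] at hνl
            omega
          obtain ⟨g1, g2, g3, g4⟩ := FFFirst_good cs hT hbc h e1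
            (by rw [cs.length_simple]; exact hl3) hν1
          rw [cs.length_simple] at g2
          obtain ⟨m1, m2, m3, m4⟩ := xmin cs hT hbc h.hx h.hu hpu g2 g1
          have ht : ¬ cs.IsRightDescent (x * (u * cs.simple p)) t := by
            intro h4
            have h5 := cs.isRightDescent_iff.1 h4
            omega
          have h3 : x * u * y * cs.simple e = x * (u * cs.simple p) * cs.simple t * ν := by
            rw [mul_assoc (x * u), hye, e1]
            simp only [mul_assoc]
          rw [h3] at hF
          have h4 := ff3_lem cs hT hbc h37 h.hx h.hu h.h2 hpu h.lexu m1 m4 ht hν hrν hνl hνs hνr hF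
          rwa [← e1] at h4
        · exfalso
          obtain ⟨h7, h8⟩ := ff_next cs hT hbc h hpu e1 hν hrν hνl hl3 hy31
          exact ffres_wrs cs hT (IH _ _ _ h8 h7)
    · exact absurd (FFFirst_wall_s cs hT hbc h.hu h.hy hy1 hey hye hpu h.leuy) id

/-- If not good, take a shortest initial segment `y₁` of `y` such that `x u y₁` is not reduced or not in `W_{≤b}` (`y₁ ≠ 1` since `x u` is fine). All proper initial segments `y₀` of `y₁` are good. For `l ∈ R(y₁)`: `R(x u y₁ l) ⊆ R(u y₁ l) ∌ l` (`ff_good`), so `x u y₁` is reduced, so it is in `W_{>b}`.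
(`u y₁` is a prefix of `u y`.) -/
theorem ff_dich {r s t : B} {b c : ℕ} (hT : T2 M r s t b c) (hbc : b < c) {x u y : W}
    (hx : Rmin cs r s x) (hu : u ∈ D cs r s) (h2 : 2 ≤ cs.length u) (hy : Lmin cs r s y)
    (hxu : Le cs b (x * u)) (huy : Le cs b (u * y)) :
    (cs.length (x * u * y) = cs.length x + cs.length u + cs.length y ∧ Le cs b (x * u * y)) ∨
      ∃ y₁ z : W, y = y₁ * z ∧ cs.length y = cs.length y₁ + cs.length z ∧
        FirstFail cs r s b x u y₁ := by
  induction hn : cs.length y using Nat.strong_induction_on generalizing y with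
  | _ n ih =>
  subst hn
  have IH : ∀ z : W, cs.length z < cs.length y → Lmin cs r s z → Le cs b (u * z) →
      (cs.length (x * u * z) = cs.length x + cs.length u + cs.length z ∧ Le cs b (x * u * z)) ∨
      ∃ y₁ z' : W, z = y₁ * z' ∧ cs.length z = cs.length y₁ + cs.length z' ∧
        FirstFail cs r s b x u y₁ := fun z hz h3 h4 => ih _ hz h3 h4 rfl
  clear ih
  have hlxu : cs.length (x * u) = cs.length x + cs.length u := len_mul_D cs hT.rs hx hu
  have hluy : cs.length (u * y) = cs.length u + cs.length y := len_D_mul cs hT.rs hy hu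
  by_cases hy1 : y = 1
  · left
    rw [hy1, mul_one, cs.length_one, add_zero]
    exact ⟨hlxu, hxu⟩
  have hstep : ∀ l, cs.IsRightDescent y l → Lmin cs r s (y * cs.simple l) ∧
      Le cs b (u * (y * cs.simple l)) ∧ cs.length (y * cs.simple l) < cs.length y := by
    intro l hl
    obtain ⟨e1, e2, e3⟩ := FFFirst_last cs hl
    have h3 := FFFirst_lmin cs hy e1 e2
    have h4 := len_D_mul cs hT.rs h3 hu
    rw [cs.length_simple] at e2
    refine ⟨h3, ?_, by omega⟩
    have h5 : u * (y * cs.simple l) * cs.simple l = u * y := by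
      rw [mul_assoc, cs.simple_mul_simple_cancel_right]
    have hR : Red cs (u * (y * cs.simple l)) (cs.simple l) := by
      unfold Red
      rw [h5, cs.length_simple]
      omega
    apply le_prefix cs hR
    rwa [h5]
  by_cases hall : ∀ l, cs.IsRightDescent y l →
      (cs.length (x * u * (y * cs.simple l)) = cs.length x + cs.length u +
        cs.length (y * cs.simple l) ∧ Le cs b (x * u * (y * cs.simple l)))
  swap
  · right
    push Not at hall
    obtain ⟨l, hl, hnot⟩ := hall
    obtain ⟨h3, h4, h5⟩ := hstep l hl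
    rcases IH _ h5 h3 h4 with h6 | ⟨y₁, z, e1, e2, h7⟩
    · exact absurd h6.2 (hnot h6.1)
    · have e3 : y = y₁ * (z * cs.simple l) := by
        rw [← mul_assoc, ← e1, cs.simple_mul_simple_cancel_right]
      refine ⟨y₁, z * cs.simple l, e3, ?_, h7⟩
      have h8 := cs.length_mul_le y₁ (z * cs.simple l)
      rw [← e3] at h8
      have h9 := cs.length_mul_le z (cs.simple l)
      rw [cs.length_simple] at h9
      have h10 := cs.isRightDescent_iff.1 hl
      omega
  · obtain ⟨l, hl⟩ := cs.exists_rightDescent_of_ne_one hy1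
    obtain ⟨h3, h4, h5⟩ := hstep l hl
    obtain ⟨h6, h7⟩ := hall l hl
    have hgood := ff_good cs hT hbc (y * cs.simple l) x u hx hu h2 h3 h6 h7
    have h8 : cs.length (u * (y * cs.simple l)) = cs.length u + cs.length (y * cs.simple l) :=
      len_D_mul cs hT.rs h3 hu
    have h9 : u * (y * cs.simple l) * cs.simple l = u * y := by
      rw [mul_assoc, cs.simple_mul_simple_cancel_right]
    have h10 := cs.isRightDescent_iff.1 hl
    have h11 : ¬ cs.IsRightDescent (u * (y * cs.simple l)) l := by
      intro h12
      have h13 := cs.isRightDescent_iff.1 h12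
      rw [h9] at h13
      omega
    have h12 : ¬ cs.IsRightDescent (x * u * (y * cs.simple l)) l := fun h13 => h11 (hgood l h13)
    have h13 := cs.not_isRightDescent_iff.1 h12
    have h14 : x * u * (y * cs.simple l) * cs.simple l = x * u * y := by
      rw [mul_assoc (x * u), cs.simple_mul_simple_cancel_right]
    rw [h14] at h13
    have hred : cs.length (x * u * y) = cs.length x + cs.length u + cs.length y := by omega
    by_cases hle : Le cs b (x * u * y)
    · exact Or.inl ⟨hred, hle⟩
    · right
      refine ⟨y, 1, by rw [mul_one], by rw [cs.length_one, add_zero], hx, hu, h2, hy, hxu, huy,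
        hred, not_not.1 hle, ?_⟩
      intro y₀ z e hlz hz
      obtain ⟨k, hk⟩ := cs.exists_rightDescent_of_ne_one hz
      have hRyz : Red cs y₀ z := by
        unfold Red
        rw [← e, hlz]
      have hky : cs.IsRightDescent y k := by
        rw [e]
        exact rd_mul_of_red cs hRyz hk
      obtain ⟨h15, h16⟩ := hall k hky
      have h17 : x * u * y₀ * (z * cs.simple k) = x * u * (y * cs.simple k) := by
        rw [e]
        simp only [mul_assoc]
      have h18 := cs.isRightDescent_iff.1 hky
      have h19 := cs.isRightDescent_iff.1 hk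
      have hR : Red cs (x * u * y₀) (z * cs.simple k) := by
        unfold Red
        rw [h17, h15]
        have h20 := cs.length_mul_le (x * u) y₀
        have h21 := cs.length_mul_le (x * u * y₀) (z * cs.simple k)
        rw [h17, h15] at h21
        omega
      apply le_prefix cs hR
      rw [h17]
      exact h16

end Pool.Agent.PolyCell
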