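import Pool.Agent.Tri2.TailRS
import Pool.Agent.Tri2.FFTwo

/-!
# The good case: `R(x u y) ⊆ R(u y)` if `x u y` is reduced and in `W_{≤ b}`

Strong induction on `ℓ(y)`. `y = 1`: `k ∈ R(xu)`: `k = t` contradicts `tb1`; `k ∈ {r,s}`: `rd_mul_D`. `y ≠ 1`, `l ∈ R(y)`, `k ∈ R(xuy)`. `k = l`: `rd_mul_of_red` for `u·y`. `k ≠ l`: `l ∈ R(xuy)` (`rd_mul_of_red`); `M k l ≤ b` (`fac_of_both`), so `{k,l} ≠ {s,t}`.
`{k,l} = {r,t}`: `k ∈ R(xuyl)` (`rd_of_both`); induction for `y l` (`x u y l` is a prefix, reduced, in `W_{≤b}`; `y l` is lmin): `k ∈ R(uyl)`; `l ∉ R(uyl)`; `rd_comm2`: `k ∈ R(uy)`.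
`{k,l} = {r,s}`: `tail_rs` with `q = k`.
-/

open CoxeterSystem

namespace Pool.Agent.PolyCell

variable {B W : Type*} [Group W] {M : CoxeterMatrix B} (cs : CoxeterSystem M W)

/-- the commuting case -/
private theorem FFGood_comm {r s : B} {b : ℕ} {x u y : W} {k l : B} (hrs : r ≠ s)
    (ih : ∀ z, cs.length z < cs.length y → FFA cs r s b z) (hx : Rmin cs r s x)
    (hu : u ∈ D cs r s) (h2 : 2 ≤ cs.length u) (hy : Lmin cs r s y)
    (hlen : cs.length (x * u * y) = cs.length x + cs.length u + cs.length y)
    (hle : Le cs b (x * u * y)) (hkl : k ≠ l) (hm : M k l = 2) (hly : cs.IsRightDescent y l)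
    (hk : cs.IsRightDescent (x * u * y) k) (hl : cs.IsRightDescent (x * u * y) l) :
    cs.IsRightDescent (u * y) k := by
  have e1 := cs.isRightDescent_iff.1 hly
  have huy := len_D_mul cs hrs hy hu
  have e2 : x * u * (y * cs.simple l) = x * u * y * cs.simple l := by rw [mul_assoc (x * u)]
  have e3 := cs.isRightDescent_iff.1 hl
  have hll : y * cs.simple l * cs.simple l = y := cs.simple_mul_simple_cancel_right l
  have hy' : Lmin cs r s (y * cs.simple l) := by
    have hred : Red cs (y * cs.simple l) (cs.simple l) := by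
      show cs.length (y * cs.simple l * cs.simple l) = _
      rw [hll, cs.length_simple]
      omega
    constructor
    · intro h
      have h' := ld_mul_of_red cs hred h
      rw [hll] at h'
      exact hy.1 h'
    · intro h
      have h' := ld_mul_of_red cs hred h
      rw [hll] at h'
      exact hy.2 h'
  have hlen' : cs.length (x * u * (y * cs.simple l)) =
      cs.length x + cs.length u + cs.length (y * cs.simple l) := by
    rw [e2]
    omega
  have hle' : Le cs b (x * u * (y * cs.simple l)) := by
    rw [e2]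
    exact fun hf => hle (fac_of_fac_mul cs hl hf)
  have h5 := ih (y * cs.simple l) (by omega) x u hx hu h2 hy' hlen' hle' k
    (by rw [e2]; exact rd_of_both cs hkl hk hl)
  have h6 : ¬ cs.IsRightDescent (u * (y * cs.simple l)) l := by
    rw [cs.not_isRightDescent_iff]
    have h7 := len_D_mul cs hrs hy' hu
    rw [h7, mul_assoc u, hll, huy]
    omega
  have h8 := rd_comm2 cs hkl hm h5 h6
  rwa [mul_assoc u, hll] at h8

theorem ff_good {r s t : B} {b c : ℕ} (hT : T2 M r s t b c) (hbc : b < c) (y : W) :
    FFA cs r s b y := by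
  induction hn : cs.length y using Nat.strong_induction_on generalizing y with
  | _ n ihn =>
    subst hn
    have ih : ∀ z, cs.length z < cs.length y → FFA cs r s b z := fun z hz => ihn _ hz z rfl
    intro x u hx hu h2 hy hlen hle k hk
    by_cases hy1 : y = 1
    · subst hy1
      rw [mul_one] at hle hk ⊢
      rcases hT.all k with rfl | rfl | rfl
      · exact (rd_mul_D cs hT.rs (Or.inl rfl) hx hu).1 hk
      · exact (rd_mul_D cs hT.rs (Or.inr rfl) hx hu).1 hk
      · exact absurd hk (tb1 cs hT hbc hx hu h2 hle)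
    obtain ⟨l, hly⟩ := cs.exists_rightDescent_of_ne_one hy1
    have huy := len_D_mul cs hT.rs hy hu
    by_cases hkl : k = l
    · subst hkl
      exact rd_mul_of_red cs huy hly
    have hred : Red cs (x * u) y := by
      show cs.length (x * u * y) = cs.length (x * u) + cs.length y
      rw [hlen, len_mul_D cs hT.rs hx hu]
    have hl : cs.IsRightDescent (x * u * y) l := rd_mul_of_red cs hred hly
    have hM : ¬ b < M k l := fun h => hle (fac_of_both cs hkl h hk hl)
    have hle0 : ∀ y₀ z : W, y = y₀ * z → cs.length y = cs.length y₀ + cs.length z → z ≠ 1 →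
        Le cs b (x * u * y₀) := by
      intro y₀ z h0 h1 _
      have hr0 : Red cs (x * u * y₀) z := by
        show cs.length (x * u * y₀ * z) = cs.length (x * u * y₀) + cs.length z
        have e1 : x * u * y₀ * z = x * u * y := by rw [h0, mul_assoc (x * u)]
        have e2 := cs.length_mul_le (x * u * y₀) z
        have e3 := cs.length_mul_le (x * u) y₀
        have e4 := cs.length_mul_le x u
        rw [e1] at e2 ⊢
        omega
      refine le_prefix cs hr0 ?_
      have e1 : x * u * y₀ * z = x * u * y := by rw [h0, mul_assoc (x * u)]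
      rw [e1]
      exact hle
    have hcomm : M k l = 2 → cs.IsRightDescent (u * y) k := fun hm =>
      FFGood_comm cs hT.rs ih hx hu h2 hy hlen hle hkl hm hly hk hl
    have htail : (l = r ∨ l = s) → (k = r ∨ k = s) → cs.IsRightDescent (u * y) k := fun h1 h3 =>
      tail_rs cs hT hbc ih hx hu h2 hy hlen hle0 h1 hly h3 hk
    have hmst := hT.mst
    have hmts : M t s = c := by rw [M.symmetric]; exact hT.mst
    have hmtr : M t r = 2 := by rw [M.symmetric]; exact hT.mrt
    rcases hT.all k with rfl | rfl | rfl
    · rcases hT.all l with rfl | rfl | rfl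
      · exact absurd rfl hkl
      · exact htail (Or.inr rfl) (Or.inl rfl)
      · exact hcomm hT.mrt
    · rcases hT.all l with rfl | rfl | rfl
      · exact htail (Or.inl rfl) (Or.inr rfl)
      · exact absurd rfl hkl
      · exact absurd (by rw [hT.mst]; exact hbc) hM
    · rcases hT.all l with rfl | rfl | rfl
      · exact hcomm hmtr
      · exact absurd (by rw [hmts]; exact hbc) hM
      · exact absurd rfl hkl

end Pool.Agent.PolyCell
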