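import Pool.Agent.Tri2.Defs

/-!
# The three types of first failures
-/

open CoxeterSystem

namespace Pool.Agent.PolyCell

variable {B W : Type*} [Group W] {M : CoxeterMatrix B} (cs : CoxeterSystem M W)

/-- type 1: `u = rs`, `y ∈ D_{st}` -/
def FF1 (r s t : B) (b c : ℕ) (x u y : W) : Prop :=
  u = cs.simple r * cs.simple s ∧ y ∈ D cs s t ∧ cs.IsRightDescent (x * u * y) s ∧
    cs.IsRightDescent (x * u * y) t ∧
    (cs.length y + 2 = c ∨ (cs.length y + 3 = c ∧ Fac cs (b - 1) (x * cs.simple r)))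

/-- type 2: `u = sr`, `y = t` -/
def FF2 (r s t : B) (x u y : W) : Prop :=
  u = cs.simple s * cs.simple r ∧ y = cs.simple t ∧
    cs.IsRightDescent (x * cs.simple s * cs.simple t) s ∧
    cs.IsRightDescent (x * cs.simple s * cs.simple t) t

/-- type 3: `y = t ν`, `r ν = w_{rs}`, `u = sr` or `u = rsr` -/
def FF3 (r s t : B) (b : ℕ) (x u y : W) : Prop :=
  (u = cs.simple s * cs.simple r ∨ (u = cs.simple r * cs.simple s * cs.simple r ∧
      cs.length u = 3 ∧ b = 4 ∧ Fac cs (b - 1) (x * cs.simple r))) ∧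
    ∃ ν : W, y = cs.simple t * ν ∧ ν ∈ D cs r s ∧ cs.simple r * ν = wT cs r s ∧
      cs.length ν + 1 = b ∧ cs.IsLeftDescent ν s ∧ ¬ cs.IsLeftDescent ν r ∧
      cs.IsRightDescent (x * (u * cs.simple r) * cs.simple t * cs.simple s) s ∧
      cs.IsRightDescent (x * (u * cs.simple r) * cs.simple t * cs.simple s) t

def FFRes (r s t : B) (b c : ℕ) (x u y : W) : Prop :=
  FF1 cs r s t b c x u y ∨ FF2 cs r s t x u y ∨ FF3 cs r s t b x u y

end Pool.Agent.PolyCell
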