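import Pool.Agent.Tri2.FFFirst
import Pool.Agent.PolyCell.Geo

/-!
# `Geo` at the level `b < c`

`M i j = b`, `i ≠ j` imply `{i,j} = {r,s}` (`b ≥ 3`, `b < c`, `T2.all`; `wT_symm`, `D` symmetric).
`a3`: induction on `ℓ(u)`: `u = 1`: prefix of `x s_i`. `u = i, j`: `First.fi`, `First.fj`. `ℓ(u) ≥ 2`: `x u ∈ W_{≤b}` (`le_prefix_D`, `First.le`). If `x u ∈ W_{>b-1}`, `fac_step` (exponent `> b - 1`): two descents `i', j'` with `M i' j' ≥ b`: `{r,s}`: then `u = w_{rs}` (`rd_mul_D`, `eq_wT_of_rd`): contradiction; `{s,t}`: contradiction to `x u ∈ W_{≤b}`. Or `e ∈ R(xu)`,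
 `x u e ∈ W_{>b-1}`: `e = t` contradicts `tb1`; `e ∈ {r,s}`: `e ∈ R(u)`, `u e` is shorter and `≠ w_{rs}`: induction.
`vset`: `ff_dich` for `u = w_{rs}` (`ℓ = b ≥ 3`); a first failure contradicts `ff_first`, `ffres_wrs`.
-/

open CoxeterSystem

namespace Pool.Agent.PolyCell

variable {B W : Type*} [Group W] {M : CoxeterMatrix B} (cs : CoxeterSystem M W)

omit W [Group W] cs in
private theorem GeoB_pair {r s t : B} {b c : ℕ} (hT : T2 M r s t b c) (hbc : b < c) {i j : B}
    (hij : i ≠ j) (hm : M i j = b) : (i = r ∧ j = s) ∨ (i = s ∧ j = r) := by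
  have h1 := hT.mrs
  have h2 := hT.mst
  have h3 := hT.mrt
  have h4 := hT.hb
  have h5 : M s r = b := by rw [M.symmetric]; exact h1
  have h6 : M t s = c := by rw [M.symmetric]; exact h2
  have h7 : M t r = 2 := by rw [M.symmetric]; exact h3
  rcases hT.all i with rfl | rfl | rfl <;> rcases hT.all j with rfl | rfl | rfl
  · exact absurd rfl hij
  · exact Or.inl ⟨rfl, rfl⟩
  · omega
  · exact Or.inr ⟨rfl, rfl⟩
  · exact absurd rfl hij
  · omega
  · omega
  · omega
  · exact absurd rfl hij

private theorem GeoB_a3 {r s t : B} {b c : ℕ} (hT : T2 M r s t b c) (hbc : b < c) {x : W}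
    (h : First cs b r s x) (n : ℕ) : ∀ u : W, cs.length u = n → u ∈ D cs r s → u ≠ wT cs r s →
    Le cs (b - 1) (x * u) := by
  induction n using Nat.strong_induction_on with
  | _ n ih =>
    intro u hn hu huw
    have hb := hT.hb
    have hm : M r s ≠ 0 := by
      rw [hT.mrs]
      omega
    rcases Nat.lt_or_ge (cs.length u) 2 with h2 | h2
    · rcases Nat.lt_or_ge (cs.length u) 1 with h3 | h3
      · have h0 : cs.length u = 0 := by omega
        rw [(cs.length_eq_zero_iff).1 h0, mul_one]
        exact le_prefix cs (y := cs.simple r)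
          (by unfold Red; rw [cs.length_simple]; exact (cs.not_isRightDescent_iff).1 h.rmin.1) h.fi
      · obtain ⟨k, hk, hku⟩ := len_one_D h.ne hu (by omega)
        rw [hku]
        rcases hk with rfl | rfl
        · exact h.fi
        · exact h.fj
    · have hle : Le cs b (x * u) := le_prefix_D h.ne hm h.rmin hu h.le
      have ht := tb1 cs hT hbc h.rmin hu h2 hle
      intro hF
      rcases fac_step cs hF with ⟨i', j', hij', hN, hi', hj'⟩ | ⟨e, he, hFe⟩
      · have hi : i' = r ∨ i' = s := by
          rcases hT.all i' with h1 | h1 | h1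
          · exact Or.inl h1
          · exact Or.inr h1
          · exact absurd (h1 ▸ hi') ht
        have hj : j' = r ∨ j' = s := by
          rcases hT.all j' with h1 | h1 | h1
          · exact Or.inl h1
          · exact Or.inr h1
          · exact absurd (h1 ▸ hj') ht
        have hui := (rd_mul_D cs h.ne hi h.rmin hu).1 hi'
        have huj := (rd_mul_D cs h.ne hj h.rmin hu).1 hj'
        rcases hi with rfl | rfl <;> rcases hj with rfl | rfl
        · exact hij' rfl
        · exact huw (eq_wT_of_rd cs h.ne hm hu hui huj)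
        · exact huw (eq_wT_of_rd cs h.ne hm hu huj hui)
        · exact hij' rfl
      · have hi : e = r ∨ e = s := by
          rcases hT.all e with h1 | h1 | h1
          · exact Or.inl h1
          · exact Or.inr h1
          · exact absurd (h1 ▸ he) ht
        have hue := (rd_mul_D cs h.ne hi h.rmin hu).1 he
        have hl := (cs.isRightDescent_iff).1 hue
        have hlu := len_D_le cs h.ne hm hu
        have hu' : u * cs.simple e ∈ D cs r s := (D cs r s).mul_mem hu (simple_mem_D hi)
        refine ih (cs.length (u * cs.simple e)) (by omega) (u * cs.simple e) rfl hu' ?_ ?_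
        · intro h1
          have h3 := length_wT cs h.ne
          rw [← h1] at h3
          omega
        · rw [← mul_assoc]
          exact hFe

theorem geo_b {r s t : B} {b c : ℕ} (hT : T2 M r s t b c) (hbc : b < c)
    (h37 : b = 3 → 7 ≤ c) : Geo cs b := by
  have hv : ∀ x y : W, Rmin cs r s x → Le cs b (x * wT cs r s) → Lmin cs r s y →
      Le cs b (wT cs r s * y) → cs.length (x * wT cs r s * y) = cs.length x + b + cs.length y ∧
        Le cs b (x * wT cs r s * y) := by
    intro x y hx hxN hy hyN
    have hl : cs.length (wT cs r s) = b := by rw [length_wT cs hT.rs, hT.mrs]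
    have hb := hT.hb
    rcases ff_dich cs hT hbc hx (wT_mem cs r s) (by omega) hy hxN hyN with h | h
    · rw [hl] at h
      exact h
    · obtain ⟨y₁, z, -, -, h1⟩ := h
      exact (ffres_wrs cs hT (ff_first cs hT hbc h37 y₁ x (wT cs r s) h1)).elim
  refine ⟨?_, ?_⟩
  · intro i j x u h hu huw
    rcases GeoB_pair hT hbc h.ne h.exp with ⟨rfl, rfl⟩ | ⟨rfl, rfl⟩
    · exact GeoB_a3 cs hT hbc h _ u rfl hu huw
    · have h' : First cs b j i x := by
        refine ⟨h.ne.symm, ?_, ⟨h.rmin.2, h.rmin.1⟩, ?_, h.fj, h.fi⟩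
        · rw [M.symmetric]
          exact h.exp
        · rw [wT_symm]
          exact h.le
      have hu' : u ∈ D cs j i := by
        unfold D
        rw [Set.pair_comm]
        exact hu
      exact GeoB_a3 cs hT hbc h' _ u rfl hu' (by rw [wT_symm]; exact huw)
  · intro i j x y hij hm hx hxN hy hyN
    rcases GeoB_pair hT hbc hij hm with ⟨rfl, rfl⟩ | ⟨rfl, rfl⟩
    · exact hv x y hx hxN hy hyN
    · rw [wT_symm] at hxN hyN ⊢
      exact hv x y ⟨hx.2, hx.1⟩ hxN ⟨hy.2, hy.1⟩ hyN

end Pool.Agent.PolyCell
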