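import Pool.Agent.Tri2.VLem
import Pool.Agent.Tri2.FFOut
import Pool.Agent.Tri2.GeoB

/-!
# First pairs at the level `b < c`

`First cs b i j x`: `M i j = b`, so `{i,j} = {r,s}`; by symmetry `i = r`, `j = s` (`First` is symmetric: `wT_symm`). `x w_{rs} y` is reduced (`geo_b`, `vset`), `T_x T_{w_{rs}} T_y = T_{x w_{rs} y}` (see `kax_of_bnd` in PolyCell/Bnd.lean), so expand `C_{w_T} - T_{w_T}`: `u ≠ w_{rs}`, coefficient `v^{ℓ(u)-b}`, needed: `T_x T_u T_y ∈ Lat (b - 1 - ℓ(u))`.
`ℓ(u) = 0`: A0pS (`x ∈ W_{≤b-1}`, prefix of `x r`). `ℓ(u) = 1`: A1pS (`First.fi`, `First.fj`). `ℓ(u) ≥ 2`: `ff_out` (`x u`, `u y ∈ W_{≤b}`: `le_prefix_D`, `le_suffix_D`): reduced: `lat_T`, `ℓ(u) ≤ b - 1`. `FFE0`: `ℓ(u) = 2`: `v_lem`: `b - 3`; `ℓ(u) = 3`: `Fac (b-1) (x r)` contradicts `First`. `FFE1`: `ℓ(u) = 2`, `Fac (b-1) (x r)`: contradiction;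
`u = s r`, `l = s`, `l' = t`: `T_x T_u T_y = (T_{x₃} T_{w_{st}} T_s T_{y₅} + T_{x₃} T_{w_{st} t} T_{y₅}) - T_x T_{w_{rs}} T_{y₆}`: `v1_lem` (`i = s`, `j = t`) and `w_lem` (`i = r`, `j = s`; `Lmin r s y₆`): `b - 3`. All statements are available for all `n`.
-/

open CoxeterSystem

namespace Pool.Agent.PolyCell

variable {B W : Type*} [Group W] {M : CoxeterMatrix B} {cs : CoxeterSystem M W}
  {C : W → Hk cs}

private theorem K1fB_symm {i j : B} {N : ℕ} {x : W} (h : First cs N i j x) :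
    First cs N j i x :=
  ⟨h.ne.symm, by rw [M.symmetric j i]; exact h.exp, ⟨h.rmin.2, h.rmin.1⟩,
    by rw [wT_symm cs j i]; exact h.le, h.fj, h.fi⟩

private theorem K1fB_d {r s t : B} {b c : ℕ} (hT : T2 M r s t b c) (hbc : b < c)
    (h37 : b = 3 → 7 ≤ c) (hC : IsKL cs C) (hI : IdealN cs C b)
    (h : ∀ n, A0S cs C b n ∧ A1S cs C b n ∧ A0pS cs C b n ∧ A1pS cs C b n ∧ D2S cs C b n ∧
      DCS cs C b n ∧ DCpS cs C b n) {x y u : W} (hx : First cs b r s x) (hy : Lmin cs r s y)
    (hwy : Le cs b (wT cs r s * y)) (hu : u ∈ D cs r s) (huw : u ≠ wT cs r s) :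
    Lat cs C b ((b : ℤ) - 1 - cs.length u) (T cs x * T cs u * T cs y) := by
  have hb := hT.hb
  have hm : M r s ≠ 0 := by rw [hT.mrs]; omega
  rcases Nat.lt_or_ge (cs.length u) 2 with hlt | h2
  · rcases Nat.lt_or_ge (cs.length u) 1 with h0 | h1
    · -- length zero
      have hu1 : u = 1 := cs.length_eq_zero_iff.1 (by omega)
      have hlx : Le cs (b - 1) x := by
        refine le_prefix cs (y := cs.simple r) ?_ hx.fi
        unfold Red
        rw [cs.not_isRightDescent_iff.1 hx.rmin.1, cs.length_simple]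
      have h3 := (h (cs.length x + cs.length y)).2.2.1 x y le_rfl hlx
      rw [hu1, ← one_def', mul_one, cs.length_one]
      exact lat_mono (by push_cast; omega) h3
    · -- length one
      obtain ⟨k, hk⟩ := cs.length_eq_one_iff.1 (show cs.length u = 1 by omega)
      have hkd : cs.IsRightDescent u k := by
        unfold CoxeterSystem.IsRightDescent
        rw [hk, cs.simple_mul_simple_self, cs.length_one, cs.length_simple]
        exact Nat.one_pos
      have hkrs := rd_of_mem_D cs hT.rs hu hkd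
      have h3 : Lat cs C b ((b : ℤ) - 2) (T cs x * T cs (cs.simple k) * T cs y) := by
        have h4 := (h (cs.length x + cs.length y + 1)).2.2.2.1
        rcases hkrs with rfl | rfl
        · exact h4 x y _ le_rfl hx.rmin.1 hy.1 hx.fi
        · exact h4 x y _ le_rfl hx.rmin.2 hy.2 hx.fj
      rw [hk, cs.length_simple]
      exact lat_mono (by push_cast; omega) h3
  · have hub : cs.length u ≤ b - 1 := by
      have h3 := len_D_le cs hT.rs hm hu
      rw [hT.mrs] at h3
      have h4 : cs.length u ≠ b := by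
        intro h5
        exact huw (eq_wT_of_len cs hT.rs hm hu (by rw [hT.mrs]; exact h5))
      omega
    have hxu : Le cs b (x * u) := le_prefix_D hT.rs hm hx.rmin hu hx.le
    have huy : Le cs b (u * y) := le_suffix_D hT.rs hm hy hu hwy
    have hstc : M s t = c := hT.mst
    rcases ff_out cs hT hbc h37 hx.rmin hu h2 hy hxu huy with h3 | h3 | h3
    · obtain ⟨h3, -⟩ := h3
      have hl1 := len_mul_D cs hT.rs hx.rmin hu
      have e : T cs x * T cs u * T cs y = T cs (x * u * y) := by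
        rw [T_mul_T cs (show Red cs x u from hl1), T_mul_T cs (show Red cs (x * u) y by
          unfold Red; rw [h3, hl1])]
      rw [e]
      exact lat_mono (by omega) (lat_T hC _)
    · obtain ⟨x₃, y₄, hx3, hy4, -, he, hlu⟩ := h3
      have hl2 : cs.length u = 2 := by
        rcases hlu with h4 | ⟨-, -, h4⟩
        · exact h4
        · exact absurd h4 hx.fi
      obtain ⟨a0, a1, -, -, d2, -, -⟩ := h (cs.length x₃ + M s t + cs.length y₄)
      have h4 := v_lem hC hI a0 a1 d2 hT.st (by omega) (by omega) hx3 hy4 (Nat.le_succ _)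
      rw [he, hl2]
      exact lat_mono (by push_cast; omega) h4
    · obtain ⟨hl2, x₃, y₅, l, l', hll, hx3, hy5, -, he, hrest⟩ := h3
      rcases hrest with h4 | ⟨-, hls, y₆, hy6, -, he6⟩
      · exact absurd h4 hx.fi
      · have hl' : l' = t := by
          rcases hll with ⟨-, h5⟩ | ⟨h5, -⟩
          · exact h5
          · exact absurd (hls.symm.trans h5) hT.st
        obtain ⟨a0, a1, -, -, d2, -, -⟩ := h (cs.length x₃ + M s t + cs.length y₅)
        have h5 := v1_lem hC hI a0 a1 d2 hT.st (by omega) (by omega) hx3 hy5 (Nat.le_succ _) hll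
        obtain ⟨b0, b1, -, -, e2, -, -⟩ := h (cs.length x + b + cs.length y₆)
        have h6 := w_lem hC b0 b1 e2 (h (cs.length x + b + cs.length y₆ + 1)).2.2.2.2.2.1
          hT.rs hT.mrs hb hx.rmin hy6 (Nat.le_succ _)
        rw [hl', he6, ← he] at h5
        have h7 := lat_sub h5 h6
        rw [add_sub_cancel_right] at h7
        rw [hl2]
        exact lat_mono (by push_cast; omega) h7

private theorem K1fB_core {r s t : B} {b c : ℕ} (hT : T2 M r s t b c) (hbc : b < c)
    (h37 : b = 3 → 7 ≤ c) (hC : IsKL cs C) (hI : IdealN cs C b)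
    (h : ∀ n, A0S cs C b n ∧ A1S cs C b n ∧ A0pS cs C b n ∧ A1pS cs C b n ∧ D2S cs C b n ∧
      DCS cs C b n ∧ DCpS cs C b n) {x y : W} (hx : First cs b r s x) (hy : Lmin cs r s y)
    (hwy : Le cs b (wT cs r s * y)) :
    Lat cs C b (-1) (T cs x * C (wT cs r s) * T cs y - T cs (x * wT cs r s * y)) := by
  classical
  have hb := hT.hb
  have hij := hx.ne
  have hm := hx.exp
  have hm0 : M r s ≠ 0 := by omega
  have hlen := ((geo_b cs hT hbc h37).vset hij hm hx.rmin hx.le hy hwy).1
  have hl1 := len_mul_D cs hij hx.rmin (wT_mem cs r s)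
  rw [length_wT cs hij, hm] at hl1
  have hTT : T cs x * T cs (wT cs r s) * T cs y = T cs (x * wT cs r s * y) := by
    rw [T_mul_T cs (show Red cs x (wT cs r s) by
      unfold Red; rw [hl1, length_wT cs hij, hm]), T_mul_T cs (show Red cs (x * wT cs r s) y by
      unfold Red; rw [hlen, hl1])]
  have e : T cs x * C (wT cs r s) * T cs y - T cs (x * wT cs r s * y) =
      T cs x * (C (wT cs r s) - T cs (wT cs r s)) * T cs y := by
    rw [mul_sub, sub_mul, hTT]
  rw [e]
  refine lat_expand x y _ fun u hu => ?_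
  rw [sub_apply', T_apply] at hu ⊢
  by_cases huw : u = wT cs r s
  · exfalso
    apply hu
    rw [if_pos huw, huw, kl_self cs hC, sub_self]
  rw [if_neg huw, sub_zero] at hu ⊢
  rw [C_wT_apply cs hC hij hm0] at hu ⊢
  split_ifs at hu ⊢ with hD
  · have h1 := lat_smul (dle_v ((cs.length u : ℤ) - M r s))
      (K1fB_d hT hbc h37 hC hI h hx hy hwy hD huw)
    refine lat_mono ?_ h1
    rw [hm]
    omega
  · exact absurd rfl hu

theorem k1f_b {r s t : B} {b c : ℕ} (hT : T2 M r s t b c) (hbc : b < c)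
    (h37 : b = 3 → 7 ≤ c) (hC : IsKL cs C) (hI : IdealN cs C b)
    (h : ∀ n, A0S cs C b n ∧ A1S cs C b n ∧ A0pS cs C b n ∧ A1pS cs C b n ∧ D2S cs C b n ∧
      DCS cs C b n ∧ DCpS cs C b n)
    ⦃i j : B⦄ ⦃x y : W⦄ (hx : First cs b i j x) (hy : Lmin cs i j y)
    (hwy : Le cs b (wT cs i j * y)) :
    Lat cs C b (-1) (T cs x * C (wT cs i j) * T cs y - T cs (x * wT cs i j * y)) := by
  have hb := hT.hb
  have hexp := hx.exp
  have hne := hx.ne
  have hcase : (i = r ∧ j = s) ∨ (i = s ∧ j = r) := by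
    have hrs := hT.mrs
    have hst := hT.mst
    have hrt := hT.mrt
    rcases hT.all i with rfl | rfl | rfl
    · rcases hT.all j with rfl | rfl | rfl
      · exact absurd rfl hne
      · exact Or.inl ⟨rfl, rfl⟩
      · omega
    · rcases hT.all j with rfl | rfl | rfl
      · exact Or.inr ⟨rfl, rfl⟩
      · exact absurd rfl hne
      · omega
    · rcases hT.all j with rfl | rfl | rfl
      · rw [M.symmetric] at hexp
        omega
      · rw [M.symmetric] at hexp
        omega
      · exact absurd rfl hne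
  rcases hcase with ⟨rfl, rfl⟩ | ⟨rfl, rfl⟩
  · exact K1fB_core hT hbc h37 hC hI h hx hy hwy
  · rw [wT_symm cs i j] at hwy ⊢
    exact K1fB_core hT hbc h37 hC hI h (K1fB_symm hx) ⟨hy.2, hy.1⟩ hwy

end Pool.Agent.PolyCell
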