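import Pool.Agent.Tri2.TB

/-!
# `KHyp` at the level `b < c`

`y ≠ 1`: `e ∈ L(y)`, `e ∉ {i,j}`. (Treat the six ordered pairs `(i,j)`; `wT_symm`; `D cs i j = D cs j i` as subgroups: `Set.pair_comm`.)
* `{i,j} = {r,s}`, `e = t`: first alternative with any `l ∈ R(u)` (`tb1`).
* `{i,j} = {r,t}`, `e = s`: `u = w_{rt}` (length `2`: `eq_wT_of_len`), `l = t ∈ R(u)`; `s ∈ R(xu)` would contradict `x u ∈ W_{≤b}` (`fac_of_both`).
* `{i,j} = {s,t}`, `e = r`, `u ≠ w_{st}` (`b < c`). `l ∈ R(u)`. If `r ∉ R(xu)`: first alternative. Let `r ∈ R(xu)`. `l = s`: `r, s ∈ R(xu)`, `t ∈ R(us)` (`rd_prev`), `t ∈ R(xus)`: contradiction to `l2`. `l = t`: `r ∈ R(xut)` (`rd_of_both`), `s ∈ R(ut)` (`rd_prev`), `s ∈ R(xut)`. `ℓ(ut) ≥ 2`: `t ∈ R(uts)`, `t ∈ R(xuts)`: contradiction to `l2` for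
  `a = x u t` (prefix of `x u`). So `u t = s`, `u = s t`, `r, s ∈ R(xs)`. Second alternative with `p = r`, `q = s`: `x s = x₁ w_{rs}` (`both_rd`), `a = w_{rs} s`, `ℓ(a) = b - 1`, `r ∈ R(a)` (`rd_of_both`). `u y = s (t y)`: `s ∈ L(uy)`; `r ∉ L(uy)`: otherwise `l2'` gives `t ∉ L(s u y) = L(t y)`, but `t ∈ L(ty)` (`y` is `{s,t}`-lmin).
  `u y = β y₁` (`decompL` for `{r,s}`): `s ∈ L(β)`, `r ∉ L(β)`, so `β ≠ w_{rs}`. `r ∈ L(ty)` (`y = r y'`, `t y = t r y' = r t y'`: `ℓ(r t y) ≤ ℓ(y) < ℓ(ty)`), so `r ∈ L(sβ)` (`ld_D_mul`), `ℓ(β) ≥ 2`: `b < b - 1 + ℓ(β)`.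
-/

open CoxeterSystem

namespace Pool.Agent.PolyCell

variable {B W : Type*} [Group W] {M : CoxeterMatrix B} (cs : CoxeterSystem M W)

private theorem Kb_D_symm (i j : B) : D cs i j = D cs j i := by
  unfold D
  rw [Set.pair_comm]

private theorem Kb_simple_mem_left (i j : B) : cs.simple i ∈ D cs i j :=
  Subgroup.subset_closure (Set.mem_insert _ _)

private theorem Kb_simple_mem_right (i j : B) : cs.simple j ∈ D cs i j :=
  Subgroup.subset_closure (Set.mem_insert_of_mem _ rfl)

/-- the conclusion of `KHyp` -/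
private def Kb_P (cs : CoxeterSystem M W) (x y u : W) : Prop :=
  (∃ l e : B, l ≠ e ∧ cs.IsRightDescent u l ∧ cs.IsLeftDescent y e ∧
      ¬ cs.IsRightDescent (x * u) e) ∨
    (∃ (p q : B) (x₁ a b y₁ : W), p ≠ q ∧ Rmin cs p q x₁ ∧ Lmin cs p q y₁ ∧ a ∈ D cs p q ∧
      b ∈ D cs p q ∧ a ≠ wT cs p q ∧ b ≠ wT cs p q ∧ cs.IsRightDescent a p ∧
      ¬ cs.IsLeftDescent b p ∧ x = x₁ * a ∧ u * y = b * y₁ ∧
      M p q < cs.length a + cs.length b)

private theorem Kb_ne_one {u : W} (h : 2 ≤ cs.length u) : u ≠ 1 := by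
  rintro rfl
  rw [cs.length_one] at h
  omega

/-- the case `{i,j} = {r,s}` -/
private theorem Kb_rs {r s t : B} {b c : ℕ} (hT : T2 M r s t b c) (hbc : b < c) {x y u : W}
    (hx : Rmin cs r s x) (hy : Lmin cs r s y) (hu : u ∈ D cs r s) (h2 : 2 ≤ cs.length u)
    (hle : Le cs b (x * u)) (hy1 : y ≠ 1) : Kb_P cs x y u := by
  left
  obtain ⟨e, he⟩ := cs.exists_leftDescent_of_ne_one hy1
  obtain ⟨l, hl⟩ := cs.exists_rightDescent_of_ne_one (Kb_ne_one cs h2)
  have het : e = t := by
    rcases hT.all e with h | h | h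
    · exact absurd (h ▸ he) hy.1
    · exact absurd (h ▸ he) hy.2
    · exact h
  subst het
  refine ⟨l, e, ?_, hl, he, tb1 cs hT hbc hx hu h2 hle⟩
  rcases rd_of_mem_D cs hT.rs hu hl with h | h
  · rw [h]
    exact hT.rt
  · rw [h]
    exact hT.st

/-- the case `{i,j} = {r,t}` -/
private theorem Kb_rt {r s t : B} {b c : ℕ} (hT : T2 M r s t b c) (hbc : b < c) {x y u : W}
    (hx : Rmin cs r t x) (hy : Lmin cs r t y) (hu : u ∈ D cs r t) (h2 : 2 ≤ cs.length u)
    (hle : Le cs b (x * u)) (hy1 : y ≠ 1) : Kb_P cs x y u := by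
  left
  obtain ⟨e, he⟩ := cs.exists_leftDescent_of_ne_one hy1
  have hes : e = s := by
    rcases hT.all e with h | h | h
    · exact absurd (h ▸ he) hy.1
    · exact h
    · exact absurd (h ▸ he) hy.2
  subst hes
  have hm : M r t ≠ 0 := by
    rw [hT.mrt]
    norm_num
  have hlen : cs.length u = M r t := by
    have h1 := len_D_le cs hT.rt hm hu
    rw [hT.mrt] at h1 ⊢
    omega
  have huw := eq_wT_of_len cs hT.rt hm hu hlen
  have htu : cs.IsRightDescent u t := by
    rw [huw]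
    exact rd_wT cs hT.rt hm (Or.inr rfl)
  refine ⟨t, e, hT.st.symm, htu, he, fun hs => ?_⟩
  have htx : cs.IsRightDescent (x * u) t := (rd_mul_D cs hT.rt (Or.inr rfl) hx hu).2 htu
  refine hle (fac_of_both cs hT.st ?_ hs htx)
  rw [hT.mst]
  exact hbc

/-- the case `{i,j} = {s,t}` -/
private theorem Kb_st {r s t : B} {b c : ℕ} (hT : T2 M r s t b c) (hbc : b < c) {x y u : W}
    (hx : Rmin cs s t x) (hy : Lmin cs s t y) (hu : u ∈ D cs s t) (h2 : 2 ≤ cs.length u)
    (hle : Le cs b (x * u)) (hle' : Le cs b (u * y)) (hy1 : y ≠ 1) : Kb_P cs x y u := by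
  obtain ⟨e, he⟩ := cs.exists_leftDescent_of_ne_one hy1
  obtain ⟨l, hl⟩ := cs.exists_rightDescent_of_ne_one (Kb_ne_one cs h2)
  have her : e = r := by
    rcases hT.all e with h | h | h
    · exact h
    · exact absurd (h ▸ he) hy.1
    · exact absurd (h ▸ he) hy.2
  subst her
  have hlst := rd_of_mem_D cs hT.st hu hl
  by_cases hr : cs.IsRightDescent (x * u) e
  swap
  · left
    refine ⟨l, e, ?_, hl, he, hr⟩
    rcases hlst with h | h
    · rw [h]
      exact hT.rs.symm
    · rw [h]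
      exact hT.rt.symm
  rcases hlst with rfl | rfl
  · -- `l = s`
    exfalso
    have hs : cs.IsRightDescent (x * u) l := (rd_mul_D cs hT.st (Or.inl rfl) hx hu).2 hl
    obtain ⟨s', hs1, hs2, -, hs3⟩ := rd_prev cs hT.st hu h2 hl
    have hs't : s' = t := hs2.resolve_left hs1
    subst hs't
    have h3 : cs.IsRightDescent (x * (u * cs.simple l)) s' :=
      (rd_mul_D cs hT.st (Or.inr rfl) hx
        ((D cs l s').mul_mem hu (Kb_simple_mem_left cs l s'))).2 hs3
    rw [← mul_assoc] at h3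
    exact l2 cs hT hbc hr hs hle h3
  · -- `l = t`
    have ht : cs.IsRightDescent (x * u) l := (rd_mul_D cs hT.st (Or.inr rfl) hx hu).2 hl
    have hrt : cs.IsRightDescent (x * u * cs.simple l) e := rd_of_both cs hT.rt hr ht
    obtain ⟨s', hs1, hs2, -, hs3⟩ := rd_prev cs hT.st hu h2 hl
    have hs's : s' = s := hs2.resolve_right hs1
    subst hs's
    have hutD : u * cs.simple l ∈ D cs s' l := (D cs s' l).mul_mem hu (Kb_simple_mem_right cs s' l)
    have hsx : cs.IsRightDescent (x * u * cs.simple l) s' := by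
      rw [mul_assoc]
      exact (rd_mul_D cs hT.st (Or.inl rfl) hx hutD).2 hs3
    have hleu : cs.length (u * cs.simple l) + 1 = cs.length u := cs.isRightDescent_iff.1 hl
    have hlext : Le cs b (x * u * cs.simple l) := fun h => hle (fac_of_fac_mul cs ht h)
    have hlen1 : cs.length (u * cs.simple l) ≤ 1 := by
      by_contra hc
      push Not at hc
      obtain ⟨t', ht1, ht2, -, ht3⟩ := rd_prev cs hT.st hutD hc hs3
      have ht't : t' = l := ht2.resolve_left ht1
      subst ht't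
      have h3 : cs.IsRightDescent (x * (u * cs.simple t' * cs.simple s')) t' :=
        (rd_mul_D cs hT.st (Or.inr rfl) hx
          ((D cs s' t').mul_mem hutD (Kb_simple_mem_left cs s' t'))).2 ht3
      rw [← mul_assoc, ← mul_assoc] at h3
      exact l2 cs hT hbc hrt hsx hlext h3
    -- `u = s t`
    have huts : u * cs.simple l = cs.simple s' := by
      have h3 := cs.isRightDescent_iff.1 hs3
      have h4 : cs.length (u * cs.simple l * cs.simple s') = 0 := by omega
      rw [cs.length_eq_zero_iff] at h4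
      rw [eq_inv_of_mul_eq_one_left h4, cs.inv_simple]
    have hust : u = cs.simple s' * cs.simple l := by
      rw [← huts]
      exact (cs.simple_mul_simple_cancel_right l).symm
    -- `x s = x₁ w_{rs}`
    have hxs : x * u * cs.simple l = x * cs.simple s' := by
      rw [mul_assoc, huts]
    rw [hxs] at hrt hsx
    obtain ⟨hm0, x₁, hx₁, hxe, hxl⟩ := both_rd cs hT.rs hrt hsx
    have hwr : cs.IsRightDescent (wT cs e s') e := rd_wT cs hT.rs hm0 (Or.inl rfl)
    have hws : cs.IsRightDescent (wT cs e s') s' := rd_wT cs hT.rs hm0 (Or.inr rfl)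
    have hal : cs.length (wT cs e s' * cs.simple s') + 1 = b := by
      have h3 := cs.isRightDescent_iff.1 hws
      rw [length_wT cs hT.rs, hT.mrs] at h3
      exact h3
    have haD : wT cs e s' * cs.simple s' ∈ D cs e s' :=
      (D cs e s').mul_mem (wT_mem cs e s') (Kb_simple_mem_right cs e s')
    have hxa : x = x₁ * (wT cs e s' * cs.simple s') := by
      rw [← mul_assoc, ← hxe]
      exact (cs.simple_mul_simple_cancel_right s').symm
    -- `u y = β y₁`
    obtain ⟨β, y₁, hy₁, hβ, hβe⟩ := decompL cs hT.rs (u * y)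
    have htu : cs.simple s' * (u * y) = cs.simple l * y := by
      rw [hust, mul_assoc]
      exact cs.simple_mul_simple_cancel_left s'
    have hlenty : cs.length (cs.simple l * y) = cs.length y + 1 := cs.not_isLeftDescent_iff.1 hy.2
    have hlenuy : cs.length (u * y) = cs.length u + cs.length y := len_D_mul cs hT.st hy hu
    have hlu : cs.length u = 2 := by omega
    have hsuy : cs.IsLeftDescent (u * y) s' := by
      unfold CoxeterSystem.IsLeftDescent
      rw [htu]
      omega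
    have htty : cs.IsLeftDescent (cs.simple l * y) l := by
      unfold CoxeterSystem.IsLeftDescent
      have h3 : cs.simple l * (cs.simple l * y) = y := cs.simple_mul_simple_cancel_left l
      rw [h3]
      omega
    have hruy : ¬ cs.IsLeftDescent (u * y) e := by
      intro hc
      have h3 := l2' cs hT hbc hc hsuy hle'
      rw [htu] at h3
      exact h3 htty
    have hsβ : cs.IsLeftDescent β s' := by
      rw [hβe] at hsuy
      exact (ld_D_mul cs hT.rs (Or.inr rfl) hy₁ hβ).1 hsuy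
    have hrβ : ¬ cs.IsLeftDescent β e := by
      rw [hβe] at hruy
      exact fun hc => hruy ((ld_D_mul cs hT.rs (Or.inl rfl) hy₁ hβ).2 hc)
    have hrty : cs.IsLeftDescent (cs.simple l * y) e := by
      unfold CoxeterSystem.IsLeftDescent
      have h3 : cs.simple e * (cs.simple l * y) = cs.simple l * (cs.simple e * y) := by
        rw [← mul_assoc, comm_of_two cs hT.mrt, mul_assoc]
      rw [h3]
      have h4 := cs.length_mul_le (cs.simple l) (cs.simple e * y)
      rw [cs.length_simple] at h4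
      have h5 := cs.isLeftDescent_iff.1 he
      omega
    have hsβD : cs.simple s' * β ∈ D cs e s' := (D cs e s').mul_mem (Kb_simple_mem_right cs e s') hβ
    have hrsβ : cs.IsLeftDescent (cs.simple s' * β) e := by
      rw [← htu, hβe, ← mul_assoc] at hrty
      exact (ld_D_mul cs hT.rs (Or.inl rfl) hy₁ hsβD).1 hrty
    have hβ2 : 2 ≤ cs.length β := by
      have h3 := cs.isLeftDescent_iff.1 hsβ
      have h4 := cs.isLeftDescent_iff.1 hrsβ
      omega
    right
    refine ⟨e, s', x₁, wT cs e s' * cs.simple s', β, y₁, hT.rs, hx₁, hy₁, haD, hβ, ?_, ?_, ?_, hrβ,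
      hxa, hβe, ?_⟩
    · intro hc
      have h3 := length_wT cs hT.rs
      rw [hT.mrs, ← hc] at h3
      omega
    · intro hc
      rw [hc] at hrβ
      exact hrβ (ld_wT cs hT.rs hm0 (Or.inl rfl))
    · exact rd_of_both cs hT.rs hwr hws
    · rw [hT.mrs]
      omega

theorem khyp_b {r s t : B} {b c : ℕ} (hT : T2 M r s t b c) (hbc : b < c) : KHyp cs b := by
  intro i j x y u hij hx hy hu h2 hw hle hle' hy1
  have hsw : ∀ {a b' : B}, Rmin cs a b' x → Rmin cs b' a x := fun h => ⟨h.2, h.1⟩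
  have hsw' : ∀ {a b' : B}, Lmin cs a b' y → Lmin cs b' a y := fun h => ⟨h.2, h.1⟩
  have hu' : u ∈ D cs j i := by
    rw [Kb_D_symm]
    exact hu
  rcases hT.all i with rfl | rfl | rfl <;> rcases hT.all j with rfl | rfl | rfl
  · exact absurd rfl hij
  · exact Kb_rs cs hT hbc hx hy hu h2 hle hy1
  · exact Kb_rt cs hT hbc hx hy hu h2 hle hy1
  · exact Kb_rs cs hT hbc (hsw hx) (hsw' hy) hu' h2 hle hy1
  · exact absurd rfl hij
  · exact Kb_st cs hT hbc hx hy hu h2 hle hle' hy1
  · exact Kb_rt cs hT hbc (hsw hx) (hsw' hy) hu' h2 hle hy1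
  · exact Kb_st cs hT hbc (hsw hx) (hsw' hy) hu' h2 hle hle' hy1
  · exact absurd rfl hij

end Pool.Agent.PolyCell
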