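import Pool.Agent.Tri2.Defs

/-!
# Junctions at the lower levels

`junc_over`: overlap `ℓ(a) + ℓ(b) > m_T`, or `≥ m_T` if `m_T > N`. `dh2` (DH2.lean): `T_a T_b = g + r • C_{w_T}`, `g` supported in
`D_T ∖ {w_T}`, `deg g_c ≤ min(0, L + ℓ(c) - 2m)`, `L = ℓ(a) + ℓ(b) ≤ 2m - 2`. `deg r ≤ L - m`: evaluate at `w_T` (`C_{w_T}(w_T) = 1`: `kl_self`,
`g(w_T) = 0`), `dh1` with `c = w_T`. Terms: `ℓ(c) ≥ 2`: D2S (total length `≤ n` since `ℓ(c) < m ≤ L`); `ℓ(c) = 1`: A1S, `deg g_c ≤ -1`; `ℓ(c) = 0`: A0S,
`deg g_c ≤ -2`. `r • T_x C_{w_T} T_y`: zero modulo `H_{>N}` if `m > N` (see `junc_big` in PolyTri/EJunc.lean); otherwise `m < L` and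
DCS: `L - m + N - m ≤ N - 2`. Copy the structure of the proof of `junc_big` (PolyTri/EJunc.lean).
`junc_two`: any `a, b ≠ w_T`, `ℓ(a) + ℓ(b) ≥ 2`: if `L < m` or (`L = m ≤ N`): `T_a T_b = T_{ab}` (`len_junction`) and D2S of total length `n + 1`
(`ab ≠ w_T` if `L < m`); otherwise `junc_over`.
-/

open CoxeterSystem

namespace Pool.Agent.PolyCell

variable {B W : Type*} [Group W] {M : CoxeterMatrix B} {cs : CoxeterSystem M W}
  {C : W → Hk cs} {N : ℕ}

theorem junc_over {n : ℕ} (hC : IsKL cs C) (hI : IdealN cs C N) (h0 : A0S cs C N n)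
    (h1 : A1S cs C N n) (h2 : D2S cs C N n) (hd : DCS cs C N n) {i j t : B} (hij : i ≠ j)
    (hm : M i j ≠ 0) {x a b y : W} (hx : Rmin cs i j x) (hy : Lmin cs i j y) (ha : a ∈ D cs i j)
    (hb : b ∈ D cs i j) (ha' : a ≠ wT cs i j) (hb' : b ≠ wT cs i j)
    (hat : cs.IsRightDescent a t) (hbt : ¬ cs.IsLeftDescent b t)
    (hl : M i j ≤ cs.length a + cs.length b)
    (hl' : M i j < cs.length a + cs.length b ∨ N < M i j)
    (hn : cs.length x + (cs.length a + cs.length b) + cs.length y ≤ n + 1) :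
    Lat cs C N ((N : ℤ) - 2) (T cs x * T cs a * T cs b * T cs y) := by
  have hm2 := two_le_exp hij hm
  have hla : cs.length a < M i j :=
    lt_of_le_of_ne (len_D_le cs hij hm ha) fun e => ha' (eq_wT_of_len cs hij hm ha e)
  have hlb : cs.length b < M i j :=
    lt_of_le_of_ne (len_D_le cs hij hm hb) fun e => hb' (eq_wT_of_len cs hij hm hb e)
  have hass : T cs x * T cs a * T cs b * T cs y = T cs x * (T cs a * T cs b) * T cs y := by
    rw [mul_assoc (T cs x) (T cs a) (T cs b)]
  rw [hass]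
  obtain ⟨g, r, hab, hsupp, hdle⟩ := dh2 cs hC hij hm ha hb ha' hb' hat hbt hl
  have hgw : g (wT cs i j) = 0 := by
    by_contra h
    exact (hsupp _ h).2 rfl
  have hr : dle ((cs.length a : ℤ) + cs.length b - M i j) r := by
    have h3 := (dh1 cs hij hm ha hb hat hbt hl (wT cs i j)).1
    rw [hab, add_apply', smul_apply', hgw, kl_self cs hC, mul_one, zero_add,
      length_wT cs hij] at h3
    exact dle_mono (by omega) h3
  have hexp : T cs x * (T cs a * T cs b) * T cs y = T cs x * g * T cs y +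
      r • (T cs x * C (wT cs i j) * T cs y) := by
    rw [hab, mul_add, add_mul, mul_smul_comm, smul_mul_assoc]
  rw [hexp]
  refine lat_add (lat_expand x y _ fun c hc => ?_) ?_
  · obtain ⟨hcD, hcw⟩ := hsupp c hc
    have hcl : cs.length c < M i j :=
      lt_of_le_of_ne (len_D_le cs hij hm hcD) fun e => hcw (eq_wT_of_len cs hij hm hcD e)
    have h3 : cs.length c = 0 ∨ cs.length c = 1 ∨ 2 ≤ cs.length c := by omega
    rcases h3 with h3 | h3 | h3
    · have hc1 : c = 1 := cs.length_eq_zero_iff.1 h3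
      have e1 : T cs x * T cs c * T cs y = T cs x * T cs y := by
        rw [hc1, ← one_def' cs, mul_one]
      rw [e1]
      exact lat_mono (by omega) (lat_smul (hdle c).2 (h0 x y (by omega)))
    · obtain ⟨d, hd, rfl⟩ := len_one_D hij hcD h3
      have hxd : ¬ cs.IsRightDescent x d := by
        rcases hd with rfl | rfl
        · exact hx.1
        · exact hx.2
      have hyd : ¬ cs.IsLeftDescent y d := by
        rcases hd with rfl | rfl
        · exact hy.1
        · exact hy.2
      exact lat_mono (by omega) (lat_smul (hdle _).2 (h1 x y d (by omega) hxd hyd))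
    · exact lat_mono (by omega) (lat_smul (hdle c).1
        (h2 hij hm hx hy hcD h3 (fun _ => hcw) (by omega)))
  · rcases Nat.lt_or_ge N (M i j) with hmN | hmN
    · have hfac : Fac cs N (wT cs i j) := by
        refine ⟨i, j, hij, hmN, 1, 1, by rw [one_mul, mul_one], ?_⟩
        rw [length_wT cs hij, cs.length_one]
        omega
      exact lat_of_zero _ (zero_smul' (zero_mul_right hC hI (hI _ hfac (T cs x)).2 (T cs y)))
    · have h3 : M i j < cs.length a + cs.length b := by
        rcases hl' with h | h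
        · exact h
        · omega
      exact lat_mono (by omega) (lat_smul hr (hd hij hm hmN hx hy (by omega)))

theorem junc_two {n : ℕ} (hC : IsKL cs C) (hI : IdealN cs C N) (h0 : A0S cs C N n)
    (h1 : A1S cs C N n) (h2 : D2S cs C N n) (hd : DCS cs C N n) (h2' : D2S cs C N (n + 1))
    {i j t : B} (hij : i ≠ j) (hm : M i j ≠ 0) {x a b y : W} (hx : Rmin cs i j x)
    (hy : Lmin cs i j y) (ha : a ∈ D cs i j) (hb : b ∈ D cs i j) (ha' : a ≠ wT cs i j)
    (hb' : b ≠ wT cs i j) (hat : cs.IsRightDescent a t) (hbt : ¬ cs.IsLeftDescent b t)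
    (hl2 : 2 ≤ cs.length a + cs.length b)
    (hn : cs.length x + (cs.length a + cs.length b) + cs.length y ≤ n + 1) :
    Lat cs C N ((N : ℤ) - 2) (T cs x * T cs a * T cs b * T cs y) := by
  have hshort : cs.length a + cs.length b ≤ M i j →
      (N < M i j → cs.length a + cs.length b < M i j) →
      Lat cs C N ((N : ℤ) - 2) (T cs x * T cs a * T cs b * T cs y) := by
    intro hle hlt
    have hred := len_junction cs hij hm ha hb hat hbt hle
    have hlen : cs.length (a * b) = cs.length a + cs.length b := hred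
    rw [mul_assoc (T cs x) (T cs a) (T cs b), T_mul_T cs hred]
    refine h2' hij hm hx hy (Subgroup.mul_mem _ ha hb) (by omega) (fun h e => ?_) (by omega)
    rw [e, length_wT cs hij] at hlen
    have := hlt h
    omega
  rcases Nat.lt_or_ge (cs.length a + cs.length b) (M i j) with h | h
  · exact hshort h.le fun _ => h
  · rcases Nat.lt_or_ge (M i j) (cs.length a + cs.length b) with h' | h'
    · exact junc_over hC hI h0 h1 h2 hd hij hm hx hy ha hb ha' hb' hat hbt h (Or.inl h') hn
    · rcases Nat.lt_or_ge N (M i j) with hN | hN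
      · exact junc_over hC hI h0 h1 h2 hd hij hm hx hy ha hb ha' hb' hat hbt h (Or.inr hN) hn
      · exact hshort h' fun h'' => absurd h'' (by omega)

/-- `a = w_T`, `m_T ≤ N`: `T_{w_T} = C_{w_T} - ∑_{u ≠ w_T} v^{ℓ(u) - m} T_u`, `C_{w_T} T_b = v^{ℓ(b)} C_{w_T}` (`HPar1_mul_T`); DCS of total length
`n + 1` (given as `hd`: bound `k'` of `T_x C_{w_T} T_y`), and `T_{xu} T_{by}` for `u ≠ w_T` (hypothesis `h`; `T_x T_u = T_{xu}`, `T_b T_y = T_{by}`). -/
theorem junc_w {i j : B} (hC : IsKL cs C) (hij : i ≠ j) (hm : M i j ≠ 0) {x b y : W}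
    (hx : Rmin cs i j x) (hy : Lmin cs i j y) (hb : b ∈ D cs i j) {k k' : ℤ}
    (hd : Lat cs C N k' (T cs x * C (wT cs i j) * T cs y)) (hk : k' + cs.length b ≤ k)
    (h : ∀ u, u ∈ D cs i j → u ≠ wT cs i j → Lat cs C N (k + 1) (T cs (x * u) * T cs (b * y))) :
    Lat cs C N k (T cs x * T cs (wT cs i j) * T cs b * T cs y) := by
  classical
  obtain ⟨g, hg⟩ : ∃ g : Hk cs, g = C (wT cs i j) - T cs (wT cs i j) := ⟨_, rfl⟩
  have hby : Red cs b y := len_D_mul cs hij hy hb
  have e : T cs x * T cs (wT cs i j) * T cs b * T cs y =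
      v (cs.length b : ℤ) • (T cs x * C (wT cs i j) * T cs y) -
        T cs x * g * T cs (b * y) := by
    have e1 : T cs (wT cs i j) = C (wT cs i j) - g := by rw [hg]; abel
    have e2 : T cs x * C (wT cs i j) * T cs b * T cs y =
        v (cs.length b : ℤ) • (T cs x * C (wT cs i j) * T cs y) := by
      rw [mul_assoc (T cs x), HPar1_mul_T cs hC hij hm hb, mul_smul_comm, smul_mul_assoc]
    rw [e1, mul_sub, sub_mul, sub_mul, e2, ← T_mul_T cs hby]
    simp only [mul_assoc]
  rw [e]
  refine lat_sub ?_ (lat_expand x (b * y) g fun u hu => ?_)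
  · exact lat_mono (by omega) (lat_smul (dle_v _) hd)
  · have hgu : g u = C (wT cs i j) u - (if u = wT cs i j then 1 else 0) := by
      rw [hg, sub_apply', T_apply]
    have huw : u ≠ wT cs i j := by
      rintro rfl
      apply hu
      rw [hgu, if_pos rfl, kl_self cs hC, sub_self]
    have hCu : g u = C (wT cs i j) u := by rw [hgu, if_neg huw, sub_zero]
    have huD : u ∈ D cs i j := by
      by_contra hnD
      apply hu
      rw [hCu, C_wT_apply cs hC hij hm, if_neg hnD]
    have hred : Red cs x u := len_mul_D cs hij hx huD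
    rw [T_mul_T cs hred, hCu]
    have h3 : dle (-1) (C (wT cs i j) u) := kl_dle cs hC huw
    exact lat_mono (by omega) (lat_smul h3 (h u huD huw))

end Pool.Agent.PolyCell
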