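import Pool.Agent.Tri2.LJunc

/-!
# The induction for `A0, A1, A0', A1'` from D2S, DCS, DCpS

Variant of `PolyTri/EStep.lean` (copy its structure; `hdich_of_fin`). Differences: the hypotheses at total length `n + 1` are `D2S`, `DCS`,
`DCpS` instead of `DHyp`.
* no common descent (`A0S`, `A0pS`; bound `N - 1`): `x = x₁ a`, `y = b y₁` (pair `{s,h}`), `a ∋ s`, `b ∌ s`, `ℓ(a) ≥ 2`, `b ≠ w_T`. `a ≠ w_T`: `junc_two`. `a = w_T` (so `m ≤ N`
  since `x ∈ W_{≤N}`): then `b = 1` (`b` starts with `h ∈ R(x)` otherwise), D2S `(n+1)` with `u = w_T`.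
* `A1S (n+1)` (bound `N - 1`), `x g ∈ W_{≤N}`, `g y ∈ W_{≤N}` (otherwise `fac_left_lat`, `fac_right_lat`), `h ∈ R(x)` (if `x = 1` trivial: `hdich_of_fin`),
  `x g = x₁ a`, `y = b y₁`. `a ≠ w_T`: `junc_two`. `a = w_T`, so `m ≤ N`: `junc_w` with `k' = N - m` (DCS `(n+1)`), `ℓ(b) ≤ m - 1`, `k = N - 1`, A0S `n` for
  `T_{x₁u}T_{by₁}`.
* `A1pS (n+1)` (bound `N - 2`), `x g ∈ W_{≤N-1}`. `a ≠ w_T`: `junc_two`. `a = w_T`: `m ≤ N - 1`. If `g b = w_T` then `ℓ(b) = m - 1` and
  `w_T y₁ = g y ∈ W_{≤N}`: DCpS (total `≤ n + 1`): `k' = N - 1 - m`, `k = N - 2`; otherwise `ℓ(b) ≤ m - 2`: DCS: `k' = N - m`. The other terms: `x₁u ∈ W_{≤N-1}`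
  (`le_prefix_D`), A0pS `n`.
-/

open CoxeterSystem

namespace Pool.Agent.PolyCell

variable {B W : Type*} [Group W] {M : CoxeterMatrix B} {cs : CoxeterSystem M W}
  {C : W → Hk cs} {N : ℕ}

private theorem LStep_nocommon (hd : HDich cs) (hC : IsKL cs C) (hI : IdealN cs C N) (hN : 2 ≤ N)
    {n : ℕ} (h0 : A0S cs C N n) (h1 : A1S cs C N n)
    (hD : D2S cs C N n) (hCc : DCS cs C N n) (hD' : D2S cs C N (n + 1)) {x y : W}
    (hxN : Le cs N x)
    (hxy : cs.length x + cs.length y ≤ n + 1)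
    (hno : ∀ g, cs.IsRightDescent x g → ¬ cs.IsLeftDescent y g) :
    Lat cs C N ((N : ℤ) - 1) (T cs x * T cs y) := by
  by_cases hx1 : x = 1
  · rw [hx1, ← one_def', one_mul]
    exact lat_mono (by omega) (lat_T hC y)
  obtain ⟨s, hs⟩ := cs.exists_rightDescent_of_ne_one hx1
  have lx := cs.isRightDescent_iff.mp hs
  have ex : x * cs.simple s * cs.simple s = x := cs.simple_mul_simple_cancel_right s
  have nx : ¬ cs.IsRightDescent (x * cs.simple s) s := by
    rw [cs.not_isRightDescent_iff, ex]; omega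
  have hsy := hno s hs
  rcases hd nx hsy with hred | ⟨h, hhs, hm, hhx⟩
  · rw [ex] at hred
    have : Red cs x y := by
      unfold Red; omega
    rw [T_mul_T cs this]
    exact lat_mono (by omega) (lat_T hC _)
  have hsh : s ≠ h := fun e => hhs e.symm
  obtain ⟨x₁, a, hx₁, ha, hxa⟩ := decompR cs hsh x
  obtain ⟨b, y₁, hy₁, hb, hyb⟩ := decompL cs hsh y
  have hsa : cs.IsRightDescent a s := by
    rw [hxa] at hs
    exact (rd_mul_D cs hsh (Or.inl rfl) hx₁ ha).mp hs
  have hsb : ¬ cs.IsLeftDescent b s := by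
    rw [hyb] at hsy
    exact fun hc => hsy ((ld_D_mul cs hsh (Or.inl rfl) hy₁ hb).mpr hc)
  have hasD : a * cs.simple s ∈ D cs s h := Subgroup.mul_mem _ ha (simple_mem_D (Or.inl rfl))
  have hhas : cs.IsRightDescent (a * cs.simple s) h := by
    have e : x * cs.simple s = x₁ * (a * cs.simple s) := by rw [hxa, mul_assoc]
    rw [e] at hhx
    exact (rd_mul_D cs hsh (Or.inr rfl) hx₁ hasD).mp hhx
  have hb' : b ≠ wT cs s h := by
    intro e
    exact hsb (by rw [e]; exact ld_wT cs hsh hm (Or.inl rfl))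
  have la := cs.isRightDescent_iff.mp hsa
  have las := cs.isRightDescent_iff.mp hhas
  have rx : Red cs x₁ a := len_mul_D cs hsh hx₁ ha
  have ry : Red cs b y₁ := len_D_mul cs hsh hy₁ hb
  have lxa : cs.length x = cs.length x₁ + cs.length a := by rw [hxa]; exact rx
  have lyb : cs.length y = cs.length b + cs.length y₁ := by rw [hyb]; exact ry
  have key : T cs x * T cs y = T cs x₁ * T cs a * T cs b * T cs y₁ := by
    rw [hxa, hyb, ← T_mul_T cs rx, ← T_mul_T cs ry]
    simp only [mul_assoc]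
  rw [key]
  by_cases haw : a = wT cs s h
  · -- `a = w_T`, `b = 1`
    have hmN : ¬ N < M s h := by
      intro hmN
      refine hxN (fac_of_both cs hsh hmN ?_ ?_)
      · rw [hxa, haw]
        exact (rd_mul_D cs hsh (Or.inl rfl) hx₁ (wT_mem cs s h)).mpr (rd_wT cs hsh hm (Or.inl rfl))
      · rw [hxa, haw]
        exact (rd_mul_D cs hsh (Or.inr rfl) hx₁ (wT_mem cs s h)).mpr (rd_wT cs hsh hm (Or.inr rfl))
    have hb1 : b = 1 := by
      by_contra hb1
      obtain ⟨c, hc⟩ := cs.exists_leftDescent_of_ne_one hb1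
      rcases ld_of_mem_D cs hsh hb hc with rfl | rfl
      · exact hsb hc
      · have h1 : cs.IsRightDescent a c := by rw [haw]; exact rd_wT cs hsh hm (Or.inr rfl)
        have h2 : cs.IsRightDescent x c := by
          rw [hxa]; exact (rd_mul_D cs hsh (Or.inr rfl) hx₁ ha).mpr h1
        have h3 : cs.IsLeftDescent y c := by
          rw [hyb]; exact (ld_D_mul cs hsh (Or.inr rfl) hy₁ hb).mpr hc
        exact hno c h2 h3
    rw [hb1, ← one_def' cs, mul_one]
    refine lat_mono (by omega) (hD' hsh hm hx₁ hy₁ ha (by omega) (fun h' => absurd h' hmN) ?_)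
    rw [hb1, cs.length_one] at lyb
    omega
  · exact lat_mono (by omega) (junc_two hC hI h0 h1 hD hCc hD' hsh hm hx₁ hy₁ ha hb haw hb' hsa hsb
      (by omega) (by omega))

private theorem LStep_data {x y : W} {g h : B} (hgh : g ≠ h) (hm : M g h ≠ 0)
    (hxg : ¬ cs.IsRightDescent x g) (hyg : ¬ cs.IsLeftDescent y g)
    (hxh : cs.IsRightDescent x h) :
    ∃ x₁ a b y₁, Rmin cs g h x₁ ∧ Lmin cs g h y₁ ∧ a ∈ D cs g h ∧ b ∈ D cs g h ∧
      x * cs.simple g = x₁ * a ∧ cs.simple g * y = cs.simple g * b * y₁ ∧ y = b * y₁ ∧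
      cs.IsRightDescent a g ∧ ¬ cs.IsLeftDescent b g ∧ 2 ≤ cs.length a ∧
      cs.length a ≤ M g h ∧ cs.length b + 1 ≤ M g h ∧ cs.length (cs.simple g * b) = cs.length b + 1 ∧
      cs.length x + 1 = cs.length x₁ + cs.length a ∧ cs.length y = cs.length b + cs.length y₁ ∧
      cs.simple g * b ∈ D cs g h ∧
      T cs x * T cs (cs.simple g) * T cs y = T cs x₁ * T cs a * T cs b * T cs y₁ := by
  obtain ⟨x₁, a', hx₁, ha', rfl⟩ := decompR cs hgh x
  obtain ⟨b, y₁, hy₁, hb, rfl⟩ := decompL cs hgh y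
  have hgD : cs.simple g ∈ D cs g h := simple_mem_D (Or.inl rfl)
  rw [rd_mul_D cs hgh (Or.inr rfl) hx₁ ha'] at hxh
  rw [rd_mul_D cs hgh (Or.inl rfl) hx₁ ha'] at hxg
  rw [ld_D_mul cs hgh (Or.inl rfl) hy₁ hb] at hyg
  have hlx := len_mul_D cs hgh hx₁ ha'
  have hly := len_D_mul cs hgh hy₁ hb
  have hla' : 1 ≤ cs.length a' := by
    have := (cs.isRightDescent_iff).1 hxh
    omega
  have ha : a' * cs.simple g ∈ D cs g h := Subgroup.mul_mem _ ha' hgD
  have hsb : cs.simple g * b ∈ D cs g h := Subgroup.mul_mem _ hgD hb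
  have hla : cs.length (a' * cs.simple g) = cs.length a' + 1 := (cs.not_isRightDescent_iff).1 hxg
  have hlsb : cs.length (cs.simple g * b) = cs.length b + 1 := (cs.not_isLeftDescent_iff).1 hyg
  have hag : cs.IsRightDescent (a' * cs.simple g) g := by
    rw [cs.isRightDescent_iff, cs.simple_mul_simple_cancel_right]
    exact hla.symm
  have hlam := len_D_le cs hgh hm ha
  have hlbm := len_D_le cs hgh hm hsb
  have hT : T cs (x₁ * a') * T cs (cs.simple g) * T cs (b * y₁) =
      T cs x₁ * T cs (a' * cs.simple g) * T cs b * T cs y₁ := by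
    rw [← T_mul_T cs (show Red cs x₁ a' from hlx), ← T_mul_T cs (show Red cs b y₁ from hly),
      ← T_mul_s cs hxg]
    simp only [mul_assoc]
  exact ⟨x₁, a' * cs.simple g, b, y₁, hx₁, hy₁, ha, hb, by rw [mul_assoc], by rw [mul_assoc], rfl,
    hag, hyg, by omega, hlam, by omega, hlsb, by omega, hly, hsb, hT⟩

/-- the triple `x, g, y`: bound `k ≥ N - 2`, and the remaining case `a = w_T`. -/
private theorem LStep_triple (hC : IsKL cs C) (hI : IdealN cs C N)
    {n : ℕ} (h0 : A0S cs C N n) (h1 : A1S cs C N n)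
    (hD : D2S cs C N n) (hCc : DCS cs C N n) (hD' : D2S cs C N (n + 1)) {x y : W} {g h : B}
    (hgh : g ≠ h) (hm : M g h ≠ 0)
    (hlen : cs.length x + cs.length y + 1 ≤ n + 1)
    (hxg : ¬ cs.IsRightDescent x g) (hyg : ¬ cs.IsLeftDescent y g)
    (hxh : cs.IsRightDescent x h)
    (hxN : Le cs N (x * cs.simple g)) {k : ℤ}
    (hk : (N : ℤ) - 2 ≤ k)
    (H : ∀ x₁ b y₁ : W, Rmin cs g h x₁ → Lmin cs g h y₁ → b ∈ D cs g h →
      x * cs.simple g = x₁ * wT cs g h → y = b * y₁ →
      cs.simple g * y = cs.simple g * b * y₁ → M g h ≤ N →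
      cs.length b + 1 ≤ M g h → cs.length (cs.simple g * b) = cs.length b + 1 →
      cs.simple g * b ∈ D cs g h →
      cs.length x + 1 = cs.length x₁ + M g h → cs.length y = cs.length b + cs.length y₁ →
      ∃ k', Lat cs C N k' (T cs x₁ * C (wT cs g h) * T cs y₁) ∧ k' + cs.length b ≤ k ∧
        ∀ u, u ∈ D cs g h → u ≠ wT cs g h →
          Lat cs C N (k + 1) (T cs (x₁ * u) * T cs y)) :
    Lat cs C N k (T cs x * T cs (cs.simple g) * T cs y) := by
  obtain ⟨x₁, a, b, y₁, hx₁, hy₁, ha, hb, hxa, hyb, hyb', hag, hbg, hla2, hlam, hlbm, hlsb, hlx, hly,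
    hsbD, hT⟩ := LStep_data hgh hm hxg hyg hxh
  rw [hT]
  have hb' : b ≠ wT cs g h := by
    intro e
    have := length_wT cs (i := g) (j := h) hgh
    rw [← e] at this
    omega
  by_cases haw : a = wT cs g h
  · have hwD := wT_mem cs g h
    have hmN : M g h ≤ N := by
      by_contra hcon
      push Not at hcon
      rw [hxa, haw] at hxN
      refine hxN (fac_of_both cs hgh hcon ?_ ?_)
      · rw [rd_mul_D cs hgh (Or.inl rfl) hx₁ hwD]
        exact rd_wT cs hgh hm (Or.inl rfl)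
      · rw [rd_mul_D cs hgh (Or.inr rfl) hx₁ hwD]
        exact rd_wT cs hgh hm (Or.inr rfl)
    have hlw := length_wT cs (i := g) (j := h) hgh
    have hla : cs.length a = M g h := by rw [haw, hlw]
    obtain ⟨k', hk1, hk2, hk3⟩ := H x₁ b y₁ hx₁ hy₁ hb (by rw [hxa, haw]) hyb' hyb hmN hlbm hlsb
      hsbD (by omega) hly
    rw [haw]
    refine junc_w hC hgh hm hx₁ hy₁ hb hk1 hk2 fun u hu huw => ?_
    rw [← hyb']
    exact hk3 u hu huw
  · exact lat_mono hk (junc_two hC hI h0 h1 hD hCc hD' hgh hm hx₁ hy₁ ha hb haw hb' hag hbg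
      (by omega) (by omega))

private theorem LStep_rmin {i j d : B} (hd : d = i ∨ d = j) {x : W} (hx : Rmin cs i j x) :
    ¬ cs.IsRightDescent x d := by
  rcases hd with rfl | rfl
  · exact hx.1
  · exact hx.2

theorem lstep (hM : ∀ i j : B, M i j ≠ 0) (hC : IsKL cs C) (hI : IdealN cs C N) (hN : 2 ≤ N)
    (n : ℕ) (h0 : A0S cs C N n) (h1 : A1S cs C N n) (h0p : A0pS cs C N n) (h1p : A1pS cs C N n)
    (hD : D2S cs C N n) (hCc : DCS cs C N n) (hD' : D2S cs C N (n + 1))
    (hCc' : DCS cs C N (n + 1)) (hCp' : DCpS cs C N (n + 1)) :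
    A0S cs C N (n + 1) ∧ A1S cs C N (n + 1) ∧ A0pS cs C N (n + 1) ∧ A1pS cs C N (n + 1) := by
  have hd : HDich cs := hdich_of_fin hM
  refine ⟨?_, ?_, ?_, ?_⟩
  · -- A0
    intro x y hxy
    by_cases hx : Fac cs N x
    · exact lat_mono (by omega) (fac_left_lat hC hI hx fun z hz => h0 z y (by omega))
    by_cases hg : ∃ g, cs.IsRightDescent x g ∧ cs.IsLeftDescent y g
    · obtain ⟨g, hgx, hgy⟩ := hg
      have lx := cs.isRightDescent_iff.mp hgx
      have ly := cs.isLeftDescent_iff.mp hgy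
      refine common_lat hgx hgy (h0 _ _ (by omega)) (h1 _ _ g (by omega) ?_ ?_)
      · rw [cs.not_isRightDescent_iff, cs.simple_mul_simple_cancel_right]; omega
      · rw [cs.not_isLeftDescent_iff, cs.simple_mul_simple_cancel_left]; omega
    · push Not at hg
      exact lat_mono (by omega) (LStep_nocommon hd hC hI hN h0 h1 hD hCc hD' hx hxy hg)
  · -- A1
    intro x y g hlen hxg hyg
    have hlxg := (cs.not_isRightDescent_iff).1 hxg
    have hlyg := (cs.not_isLeftDescent_iff).1 hyg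
    by_cases hxN : Fac cs N (x * cs.simple g)
    · rw [T_mul_s cs hxg]
      exact fac_left_lat hC hI hxN fun z hz => h0 z y (by omega)
    rcases hd hxg hyg with hred | ⟨h, hhg, hm, hxh⟩
    · rw [T_mul_s cs hxg, T_mul_T cs (show Red cs (x * cs.simple g) y by unfold Red; omega)]
      exact lat_mono (by omega) (lat_T hC _)
    · have hgh : g ≠ h := fun e => hhg e.symm
      refine LStep_triple hC hI h0 h1 hD hCc hD' hgh hm hlen hxg hyg hxh hxN (by omega) ?_
      intro x₁ b y₁ hx₁ hy₁ hb hxa hyb hyb' hmN hlb hlsb hsbD hlx hly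
      refine ⟨(N : ℤ) - M g h, hCc' hgh hm hmN hx₁ hy₁ (by omega), by omega, ?_⟩
      intro u hu huw
      have hul : cs.length u < M g h :=
        lt_of_le_of_ne (len_D_le cs hgh hm hu) fun e => huw (eq_wT_of_len cs hgh hm hu e)
      have hlxu := len_mul_D cs hgh hx₁ hu
      exact lat_mono (by omega) (h0 (x₁ * u) y (by omega))
  · -- A0'
    intro x y hxy hxN
    by_cases hg : ∃ g, cs.IsRightDescent x g ∧ cs.IsLeftDescent y g
    · obtain ⟨g, hgx, hgy⟩ := hg
      have lx := cs.isRightDescent_iff.mp hgx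
      have ly := cs.isLeftDescent_iff.mp hgy
      have ex : x * cs.simple g * cs.simple g = x := cs.simple_mul_simple_cancel_right g
      refine common_lat hgx hgy (h0p _ _ (by omega) ?_) ?_
      · refine le_prefix cs (y := cs.simple g) ?_ (by rw [ex]; exact hxN)
        unfold Red
        rw [ex, cs.length_simple]
        exact lx.symm
      · rw [sub_sub]
        refine h1p _ _ g (by omega) ?_ ?_ (by rw [ex]; exact hxN)
        · rw [cs.not_isRightDescent_iff, ex]; omega
        · rw [cs.not_isLeftDescent_iff, cs.simple_mul_simple_cancel_left]; omega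
    · push Not at hg
      exact LStep_nocommon hd hC hI hN h0 h1 hD hCc hD' (le_mono cs (Nat.sub_le _ _) hxN) hxy hg
  · -- A1'
    intro x y g hlen hxg hyg hxN1
    have hlxg := (cs.not_isRightDescent_iff).1 hxg
    have hlyg := (cs.not_isLeftDescent_iff).1 hyg
    have hxN : Le cs N (x * cs.simple g) := le_mono cs (Nat.sub_le _ _) hxN1
    have hxle : Le cs (N - 1) x := le_prefix cs (y := cs.simple g)
      (by unfold Red; rw [cs.length_simple]; exact hlxg) hxN1
    by_cases hyN : Fac cs N (cs.simple g * y)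
    · rw [mul_assoc, s_mul_T cs hyg]
      refine lat_mono (by omega) (fac_right_lat (k := (N : ℤ) - 1) hC hI hyN fun z hz =>
        h0p x z (by omega) hxle)
    rcases hd hxg hyg with hred | ⟨h, hhg, hm, hxh⟩
    · rw [T_mul_s cs hxg, T_mul_T cs (show Red cs (x * cs.simple g) y by unfold Red; omega)]
      exact lat_mono (by omega) (lat_T hC _)
    · have hgh : g ≠ h := fun e => hhg e.symm
      refine LStep_triple hC hI h0 h1 hD hCc hD' hgh hm hlen hxg hyg hxh hxN (by omega) ?_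
      intro x₁ b y₁ hx₁ hy₁ hb hxa hyb hyb' hmN hlb hlsb hsbD hlx hly
      have hwD := wT_mem cs g h
      rw [hxa] at hxN1
      have hmN' : M g h < N := by
        rcases Nat.lt_or_ge (M g h) N with hlt | hge
        · exact hlt
        · exfalso
          refine hxN1 (fac_of_both cs hgh (show N - 1 < M g h by omega) ?_ ?_)
          · rw [rd_mul_D cs hgh (Or.inl rfl) hx₁ hwD]
            exact rd_wT cs hgh hm (Or.inl rfl)
          · rw [rd_mul_D cs hgh (Or.inr rfl) hx₁ hwD]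
            exact rd_wT cs hgh hm (Or.inr rfl)
      have hrest : ∀ u, u ∈ D cs g h → u ≠ wT cs g h →
          Lat cs C N ((N : ℤ) - 2 + 1) (T cs (x₁ * u) * T cs y) := by
        intro u hu huw
        have hul : cs.length u < M g h :=
          lt_of_le_of_ne (len_D_le cs hgh hm hu) fun e => huw (eq_wT_of_len cs hgh hm hu e)
        have hlxu := len_mul_D cs hgh hx₁ hu
        exact lat_mono (by omega) (h0p (x₁ * u) y (by omega) (le_prefix_D hgh hm hx₁ hu hxN1))
      by_cases hgb : cs.simple g * b = wT cs g h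
      · have hlw := length_wT cs (i := g) (j := h) hgh
        rw [hgb] at hlsb
        refine ⟨(N : ℤ) - 1 - M g h, hCp' hgh hm hmN' hx₁ hy₁ hxN1 ?_ (by omega), by omega, hrest⟩
        rw [← hgb, ← hyb']
        exact hyN
      · have hlt : cs.length (cs.simple g * b) < M g h :=
          lt_of_le_of_ne (len_D_le cs hgh hm hsbD) fun e => hgb (eq_wT_of_len cs hgh hm hsbD e)
        exact ⟨(N : ℤ) - M g h, hCc' hgh hm hmN hx₁ hy₁ (by omega), by omega, hrest⟩

private theorem LStep_one {x y : W} (h : cs.length x + cs.length y ≤ 0) :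
    T cs x * T cs y = T cs 1 := by
  have hx : x = 1 := cs.length_eq_zero_iff.1 (by omega)
  have hy : y = 1 := cs.length_eq_zero_iff.1 (by omega)
  rw [hx, hy, ← one_def', one_mul]

/-- induction from `lstep`; `n = 0`: everything is trivial or vacuous (`D2S`, `DCS`, `DCpS` at total length `0` are vacuous: `ℓ(u) ≥ 2`, `M i j ≥ 2`;
for `A0S 0 …` see `EStep.lean`). -/
theorem lstep_all (hM : ∀ i j : B, M i j ≠ 0) (hC : IsKL cs C) (hI : IdealN cs C N) (hN : 2 ≤ N)
    (hs : ∀ n, A0S cs C N n → A1S cs C N n → A0pS cs C N n → A1pS cs C N n → D2S cs C N n →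
      DCS cs C N n → DCpS cs C N n →
      D2S cs C N (n + 1) ∧ DCS cs C N (n + 1) ∧ DCpS cs C N (n + 1)) (n : ℕ) :
    A0S cs C N n ∧ A1S cs C N n ∧ A0pS cs C N n ∧ A1pS cs C N n ∧ D2S cs C N n ∧
      DCS cs C N n ∧ DCpS cs C N n := by
  induction n with
  | zero =>
    refine ⟨fun x y h => ?_, fun x y g h => ?_, fun x y h _ => ?_, fun x y g h => ?_, ?_, ?_, ?_⟩
    · rw [LStep_one h]
      exact lat_mono (by omega) (lat_T hC 1)
    · omega
    · rw [LStep_one h]
      exact lat_mono (by omega) (lat_T hC 1)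
    · omega
    · intro i j x y u _ _ _ _ _ h2 _ hn
      omega
    · intro i j x y hij hm _ _ _ hn
      have := two_le_exp hij hm
      omega
    · intro i j x y hij hm _ _ _ _ _ hn
      have := two_le_exp hij hm
      omega
  | succ n ih =>
    obtain ⟨h0, h1, h0p, h1p, hD, hCc, hCp⟩ := ih
    obtain ⟨hD', hCc', hCp'⟩ := hs n h0 h1 h0p h1p hD hCc hCp
    obtain ⟨a1, a2, a3, a4⟩ := lstep hM hC hI hN n h0 h1 h0p h1p hD hCc hD' hCc' hCp'
    exact ⟨a1, a2, a3, a4, hD', hCc', hCp'⟩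

end Pool.Agent.PolyCell
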