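import Pool.Agent.Tri2.BndTwo
import Pool.Agent.Tri2.Kb
import Pool.Agent.Tri2.DCStepB
import Pool.Agent.Tri2.K1fB

/-!
# Degree bounds at the level `b < c`

`lstep_all` with `d2_step`, `khyp_b`, `dc_step_b`, `dcp_step_b`; `k1f_b`.
-/

open CoxeterSystem

namespace Pool.Agent.PolyCell

variable {B W : Type*} [Group W] {M : CoxeterMatrix B} {cs : CoxeterSystem M W}
  {C : W → Hk cs}

theorem bndC_b {r s t : B} {b c : ℕ} (hT : T2 M r s t b c) (hbc : b < c)
    (h37 : b = 3 → 7 ≤ c) (hC : IsKL cs C) (hI : IdealN cs C b) : BndC cs C b := by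
  have hb := hT.hb
  have H := lstep_all (t2_fin hT) hC hI (by omega) fun n h0 h1 h0p h1p h2 hd _ => by
    have h2' := d2_step (t2_fin hT) hC hI (by omega) (khyp_b cs hT hbc) n h0 h1 h2 hd
    have hd' := dc_step_b hT hbc h37 hC hI n h0 h1 h2 h2'
    exact ⟨h2', hd', dcp_step_b hT hbc h37 hC hI n h0 h1 h0p h1p h2 hd'⟩
  refine ⟨fun x y => (H _).1 x y le_rfl, fun x y hx => (H _).2.2.1 x y le_rfl hx, ?_,
    fun i j x y hx hy hwy => k1f_b hT hbc h37 hC hI H hx hy hwy⟩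
  intro i j x y hij hm hmN hx hy
  exact (H _).2.2.2.2.2.1 hij hm hmN hx hy le_rfl

end Pool.Agent.PolyCell
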