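import Pool.Agent.Tri2.Low
import Pool.Agent.Tri2.GeoB
import Pool.Agent.PolyTop.Top
import Pool.Agent.PolyTri.T3Main

/-!
# The conjecture for all compact hyperbolic triangle groups
-/

open CoxeterSystem

namespace Pool.Agent.PolyCell

variable {W : Type*} [Group W] {M : CoxeterMatrix (Fin 3)}

private theorem MainT2_sum (h : (1 : ℝ) / M 0 1 + 1 / M 0 2 + 1 / M 1 2 < 1) {r s t : Fin 3}
    (hrs : r ≠ s) (hst : s ≠ t) (hrt : r ≠ t) :
    (1 : ℝ) / M r s + 1 / M s t + 1 / M r t < 1 := by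
  have h10 : M 1 0 = M 0 1 := M.symmetric _ _
  have h20 : M 2 0 = M 0 2 := M.symmetric _ _
  have h21 : M 2 1 = M 1 2 := M.symmetric _ _
  have key : ∀ r s t : Fin 3, r ≠ s → s ≠ t → r ≠ t →
      (r = 0 ∧ s = 1 ∧ t = 2) ∨ (r = 0 ∧ s = 2 ∧ t = 1) ∨ (r = 1 ∧ s = 0 ∧ t = 2) ∨
      (r = 1 ∧ s = 2 ∧ t = 0) ∨ (r = 2 ∧ s = 0 ∧ t = 1) ∨ (r = 2 ∧ s = 1 ∧ t = 0) := by decide
  rcases key r s t hrs hst hrt with ⟨rfl, rfl, rfl⟩ | ⟨rfl, rfl, rfl⟩ | ⟨rfl, rfl, rfl⟩ |
    ⟨rfl, rfl, rfl⟩ | ⟨rfl, rfl, rfl⟩ | ⟨rfl, rfl, rfl⟩ <;>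
  (try rw [h10]) <;> (try rw [h20]) <;> (try rw [h21]) <;> linarith

private theorem MainT2_nat {b c : ℕ} (hb : 2 ≤ b) (hbc : b ≤ c)
    (h : (1 : ℝ) / b + 1 / c + 1 / 2 < 1) : 3 ≤ b ∧ (b = 3 → 7 ≤ c) ∧ 5 ≤ c := by
  have hb' : (0 : ℝ) < b := by exact_mod_cast (by omega : 0 < b)
  have hc' : (0 : ℝ) < c := by exact_mod_cast (by omega : 0 < c)
  have h1 : (2 : ℝ) * (b + c) < b * c := by
    have h2 : (1 : ℝ) / b + 1 / c < 1 / 2 := by linarith
    rw [div_add_div _ _ hb'.ne' hc'.ne', div_lt_div_iff₀ (by positivity) (by norm_num)] at h2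
    linarith
  have h3 : 2 * (b + c) < b * c := by exact_mod_cast h1
  have h4 : 3 ≤ b := by
    by_contra hcon
    obtain rfl : b = 2 := by omega
    omega
  refine ⟨h4, ?_, ?_⟩
  · rintro rfl
    omega
  · by_contra hcon
    have : c = 3 ∨ c = 4 := by omega
    have : b = 3 ∨ b = 4 := by omega
    rcases ‹c = 3 ∨ c = 4› with rfl | rfl <;> rcases ‹b = 3 ∨ b = 4› with rfl | rfl <;> omega

private theorem MainT2_right (cs : CoxeterSystem M W) (h0 : ∀ i j, M i j ≠ 0)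
    (h : (1 : ℝ) / M 0 1 + 1 / M 0 2 + 1 / M 1 2 < 1) {r s t : Fin 3}
    (hrs : r ≠ s) (hst : s ≠ t) (hrt : r ≠ t) (h2 : M r t = 2) (hle : M r s ≤ M s t) :
    CellConj cs := by
  have hs := MainT2_sum h hrs hst hrt
  rw [h2] at hs
  have hb2 := PolyTop.Top_two_le hrs h0
  obtain ⟨hb3, h37, hc5⟩ := MainT2_nat hb2 hle (by exact_mod_cast hs)
  have hall : ∀ i : Fin 3, i = r ∨ i = s ∨ i = t := by
    have : ∀ r s t i : Fin 3, r ≠ s → s ≠ t → r ≠ t → i = r ∨ i = s ∨ i = t := by decide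
    exact fun i => this r s t i hrs hst hrt
  have hT : T2 M r s t (M r s) (M s t) := ⟨hrs, hst, hrt, hall, rfl, rfl, h2, hb3, by omega⟩
  have hN : ∀ i j, M i j ≤ M s t := by
    intro i j
    have e1 : M s r = M r s := M.symmetric _ _
    have e2 : M t s = M s t := M.symmetric _ _
    have e3 : M t r = M r t := M.symmetric _ _
    have d1 := M.diagonal r
    have d2 := M.diagonal s
    have d3 := M.diagonal t
    rcases hall i with rfl | rfl | rfl <;> rcases hall j with rfl | rfl | rfl <;> omega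
  have hval : ∀ N, (∃ i j : Fin 3, i ≠ j ∧ M i j = N) → N = 2 ∨ N = M r s ∨ N = M s t := by
    rintro N ⟨i, j, hij, rfl⟩
    have e1 : M s r = M r s := M.symmetric _ _
    have e2 : M t s = M s t := M.symmetric _ _
    have e3 : M t r = M r t := M.symmetric _ _
    rcases hall i with rfl | rfl | rfl <;> rcases hall j with rfl | rfl | rfl <;>
      first
        | exact absurd rfl hij
        | omega
  have hex : ∃ i j : Fin 3, i ≠ j ∧ M i j = M s t := ⟨s, t, hst, rfl⟩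
  refine cellConj_of_bndC hN (PolyTop.noThree_tri cs h0 h hN hex) ?_ ?_
  · intro N _ hNex
    by_cases hc : N = M s t
    · subst hc
      exact PolyTop.geo_tri cs h0 h hN hex
    rcases hval N hNex with rfl | rfl | rfl
    · exact geo_two cs hT
    · exact geo_b cs hT (by omega) h37
    · exact absurd rfl hc
  · intro C hC N hN2 hNex hI
    by_cases hc : N = M s t
    · subst hc
      exact bndC_of_bnd hC (fun _ _ _ _ => PolyTop.geo_tri cs h0 h hN hex)
        (PolyTop.bnd_tri cs h0 h hN hex hC) hN2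
    rcases hval N hNex with rfl | rfl | rfl
    · exact bndC_two hT hC hI
    · exact bndC_b hT (by omega) h37 hC hI
    · exact absurd rfl hc

theorem cellConj_tri (cs : CoxeterSystem M W) (h0 : ∀ i j, M i j ≠ 0)
    (h : (1 : ℝ) / M 0 1 + 1 / M 0 2 + 1 / M 1 2 < 1) : CellConj cs := by
  -- a right angle at `{r,t}`
  have key : ∀ r s t : Fin 3, r ≠ s → s ≠ t → r ≠ t → M r t = 2 → CellConj cs := by
    intro r s t hrs hst hrt h2
    rcases Nat.le_total (M r s) (M s t) with hle | hle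
    · exact MainT2_right cs h0 h hrs hst hrt h2 hle
    · exact MainT2_right cs h0 h hst.symm hrs.symm hrt.symm (by rw [M.symmetric]; exact h2)
        (by rw [M.symmetric t s, M.symmetric s r]; exact hle)
  by_cases h02 : M 0 2 = 2
  · exact key 0 1 2 (by decide) (by decide) (by decide) h02
  by_cases h01 : M 0 1 = 2
  · exact key 0 2 1 (by decide) (by decide) (by decide) h01
  by_cases h12 : M 1 2 = 2
  · exact key 1 0 2 (by decide) (by decide) (by decide) h12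
  -- no right angle
  have g01 := PolyTop.Top_two_le (show (0 : Fin 3) ≠ 1 by decide) h0
  have g02 := PolyTop.Top_two_le (show (0 : Fin 3) ≠ 2 by decide) h0
  have g12 := PolyTop.Top_two_le (show (1 : Fin 3) ≠ 2 by decide) h0
  have e10 : M 1 0 = M 0 1 := M.symmetric _ _
  have e20 : M 2 0 = M 0 2 := M.symmetric _ _
  have e21 : M 2 1 = M 1 2 := M.symmetric _ _
  have hpair : ∀ i j : Fin 3, i ≠ j → (i = 0 ∧ j = 1) ∨ (i = 0 ∧ j = 2) ∨ (i = 1 ∧ j = 2) ∨
      (i = 1 ∧ j = 0) ∨ (i = 2 ∧ j = 0) ∨ (i = 2 ∧ j = 1) := by decide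
  have hM : T3 M := by
    refine ⟨h0, ?_, ?_⟩
    · intro i j hij
      rcases hpair i j hij with ⟨rfl, rfl⟩ | ⟨rfl, rfl⟩ | ⟨rfl, rfl⟩ | ⟨rfl, rfl⟩ | ⟨rfl, rfl⟩ |
        ⟨rfl, rfl⟩ <;> omega
    · intro x y z hxy hyz hxz m1 m2 m3
      have := MainT2_sum h hxy hyz hxz
      rw [m1, m2, m3] at this
      norm_num at this
  have hN : ∀ i j, M i j ≤ M 0 1 + M 0 2 + M 1 2 := by
    intro i j
    by_cases hij : i = j
    · subst hij
      rw [M.diagonal]
      omega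
    · rcases hpair i j hij with ⟨rfl, rfl⟩ | ⟨rfl, rfl⟩ | ⟨rfl, rfl⟩ | ⟨rfl, rfl⟩ | ⟨rfl, rfl⟩ |
        ⟨rfl, rfl⟩ <;> omega
  exact cellConj_T3 hM hN

end Pool.Agent.PolyCell
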