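import Pool.Agent.Tri2.MainT2
import Pool.Agent.PolyCell.MainTF
import Pool.Agent.PolyCell.Poly

/-!
# All polygons
-/

open CoxeterSystem

namespace Pool.Agent.PolyCell

/-- triangles with all exponents finite -/
private theorem PolyAll_tri {M : CoxeterMatrix (ZMod 3)} {a : ZMod 3 → ℕ} (hP : IsPolygon M a)
    (h0 : ∀ k, a k ≠ 0) (h : ∑ k, (1 : ℝ) / a k < 1) {W : Type*} [Group W]
    (cs : CoxeterSystem M W) : CellConj cs := by
  have hadj : ∀ i j : ZMod 3, i ≠ j → j = i + 1 ∨ i = j + 1 := by decide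
  have hM0 : ∀ i j : ZMod 3, M i j ≠ 0 := by
    intro i j
    by_cases hij : i = j
    · subst hij
      rw [M.diagonal]
      exact one_ne_zero
    · rcases hadj i j hij with rfl | rfl
      · rw [hP.1 i]
        exact h0 i
      · rw [M.symmetric, hP.1 j]
        exact h0 j
  have e01 : M 0 1 = a 0 := hP.1 0
  have e12 : M 1 2 = a 1 := hP.1 1
  have e02 : M 0 2 = a 2 := by
    rw [M.symmetric 0 2]
    exact hP.1 2
  have hsum : ∑ k : ZMod 3, (1 : ℝ) / a k = 1 / a 0 + 1 / a 1 + 1 / a 2 :=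
    Fin.sum_univ_three (fun k : Fin 3 => (1 : ℝ) / a k)
  refine cellConj_tri (M := M) cs hM0 ?_
  show (1 : ℝ) / ((M 0 1 : ℕ) : ℝ) + 1 / ((M 0 2 : ℕ) : ℝ) + 1 / ((M 1 2 : ℕ) : ℝ) < 1
  rw [e01, e12, e02]
  rw [hsum] at h
  linarith

theorem cellConj_polygon {n : ℕ} [NeZero n] (hn : 3 ≤ n) {M : CoxeterMatrix (ZMod n)}
    {a : ZMod n → ℕ} (hP : IsPolygon M a) (h3 : n = 3 → ∑ k, (1 : ℝ) / a k < 1) {W : Type*}
    [Group W] (cs : CoxeterSystem M W) : CellConj cs := by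
  obtain ⟨N0, hN0⟩ := poly_bounded M
  by_cases h4 : 4 ≤ n
  · exact cellConj (poly_TF hn hP (Or.inl h4)) hN0
  by_cases h0 : ∃ k, a k = 0
  · exact cellConj (poly_TF hn hP (Or.inr h0)) hN0
  push Not at h0
  obtain rfl : n = 3 := by omega
  refine PolyAll_tri hP h0 ?_ cs
  have := h3 rfl
  convert this

end Pool.Agent.PolyCell
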