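import Pool.Agent.Tri2.Wall

/-!
# The `{r,s}`-tail of `x u y` is the one of `u y`

`y = y'' τ'` (`decompR` for `{r,s}`), `τ' ≠ 1` since `l ∈ R(y)`, so `ℓ(y'') < ℓ(y)` and `x u y'' ∈ W_{≤b}` (`hle` with `z = τ'`), reduced (prefix); `u y''` is a suffix of it, so in `W_{≤b}`; `y''` is `{r,s}`-lmin.
Case 1: `u y''` is `{r,s}`-rmin: so is `x u y''` (`ih`), and `q ∈ R(xuy''τ') ⟺ q ∈ R(τ') ⟺ q ∈ R(uy''τ')` (`rd_mul_D`).
Case 2: `q₂ ∈ {r,s}`, `q₂ ∈ R(uy'')`; `q₂ ∉ R(y'')`; `deodhar`: `p ∈ {r,s}`, `y'' q₂ = p y''`, `p ∈ R(u)`. `y'' ≠ 1` (otherwise `y = τ' ∈ D_{rs}` is lmin, `y = 1`), so `t ∈ L(y'')`. `p = s`: `wall_s`: `s y'' ∈ W_{>b}`, a suffix of `u y''` (`u = u' s`): contradiction. So `p = r`. Put `u₁ = u r`: `u y'' = u₁ y'' q₂`,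
 `u y = u₁ y'' (q₂ τ')`, `x u y = x u₁ y'' (q₂ τ')`, `q₂ τ' ∈ D_{rs}`. Claim: `u₁ y''` and `x u₁ y''` are `{r,s}`-rmin. Then `rd_mul_D` twice finishes.
 `u₁ y''` rmin: let `q₃ ∈ {r,s}`, `q₃ ∈ R(u₁ y'')`. `q₃ ∉ R(y'')`, `deodhar` for `u₁`: `p₃ ∈ {r,s}`, `y'' q₃ = p₃ y''`, `p₃ ∈ R(u₁)`; `r ∉ R(u₁)`, so `p₃ = s`, `wall_s`: `s y'' ∈ W_{>b}`, a suffix of `u₁ y''`, which is a prefix of `u y'' = u₁ y'' q₂`: contradiction.
 `x u₁ y''` rmin: `X = x u₁ t` is `{r,s}`-rmin (`xmin`; `x u t` is a prefix of `x u y''`). `wall_rt` for `y''` (`k = q₂`): `y'' = t`: `x u₁ y'' = X`. Or `y'' = t ν y₃`: `x u₁ y'' = X ν y₃`, a prefix of `x u y'' = x u₁ y'' q₂` (in `W_{≤b}`, reduced); `ih y₃` for `(X, ν, y₃)` (`ℓ(ν) = b - 1 ≥ 2`): a `q' ∈ {r,s}` in `R(X ν y₃)` is in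
 `R(ν y₃)`, so in `R(t ν y₃) = R(y'')` (`rd_mul_of_red`): contradiction.
-/

open CoxeterSystem

namespace Pool.Agent.PolyCell

variable {B W : Type*} [Group W] {M : CoxeterMatrix B} (cs : CoxeterSystem M W)

private theorem TailRS_mem {i j c : B} (hc : c = i ∨ c = j) : cs.simple c ∈ D cs i j := by
  refine Subgroup.subset_closure ?_
  rcases hc with rfl | rfl
  · exact Or.inl rfl
  · exact Or.inr rfl

private theorem TailRS_prod {x y z : W} (h : cs.length (x * y * z) =
    cs.length x + cs.length y + cs.length z) : cs.length (x * y) = cs.length x + cs.length y ∧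
    Red cs (x * y) z ∧ Red cs x (y * z) := by
  have h1 := cs.length_mul_le (x * y) z
  have h2 := cs.length_mul_le x y
  have h3 := cs.length_mul_le x (y * z)
  have h4 := cs.length_mul_le y z
  have h5 : cs.length (x * y * z) = cs.length (x * (y * z)) := by rw [mul_assoc]
  refine ⟨by omega, ?_, ?_⟩
  · change cs.length (x * y * z) = cs.length (x * y) + cs.length z
    omega
  · change cs.length (x * (y * z)) = cs.length x + cs.length (y * z)
    omega

/-- `s y` is a suffix of `v y` if `s ∈ R(v)`, `v ∈ D` -/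
private theorem TailRS_suf {r s : B} (hrs : r ≠ s) {b : ℕ} {v y : W} (hv : v ∈ D cs r s)
    (hy : Lmin cs r s y) (hs : cs.IsRightDescent v s) (hf : Fac cs b (cs.simple s * y)) :
    Fac cs b (v * y) := by
  have e : v * y = v * cs.simple s * (cs.simple s * y) := by
    rw [← mul_assoc, mul_assoc v, cs.simple_mul_simple_self, mul_one]
  have hred : Red cs (v * cs.simple s) (cs.simple s * y) := by
    change cs.length (v * cs.simple s * (cs.simple s * y)) = _
    rw [← e, len_D_mul cs hrs hy hv, (cs.not_isLeftDescent_iff).1 hy.2]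
    have h1 := cs.isRightDescent_iff.1 hs
    omega
  rw [e]
  exact fac_of_suffix cs hred hf

theorem tail_rs {r s t : B} {b c : ℕ} (hT : T2 M r s t b c) (hbc : b < c) {x u y : W}
    (ih : ∀ z, cs.length z < cs.length y → FFA cs r s b z) (hx : Rmin cs r s x)
    (hu : u ∈ D cs r s) (h2 : 2 ≤ cs.length u) (hy : Lmin cs r s y)
    (hlen : cs.length (x * u * y) = cs.length x + cs.length u + cs.length y)
    (hle : ∀ y₀ z : W, y = y₀ * z → cs.length y = cs.length y₀ + cs.length z → z ≠ 1 →
      Le cs b (x * u * y₀))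
    {l : B} (hl : l = r ∨ l = s) (hly : cs.IsRightDescent y l) {q : B} (hq : q = r ∨ q = s)
    (h : cs.IsRightDescent (x * u * y) q) : cs.IsRightDescent (u * y) q := by
  classical
  have hrs := hT.rs
  obtain ⟨y2, τ, hy2, hτ, rfl⟩ := decompR cs hrs y
  have hly2 : cs.length (y2 * τ) = cs.length y2 + cs.length τ := len_mul_D cs hrs hy2 hτ
  have hτ1 : τ ≠ 1 := by
    rintro rfl
    rw [mul_one] at hly
    rcases hl with rfl | rfl
    · exact hy2.1 hly
    · exact hy2.2 hly
  have hτl : 0 < cs.length τ := by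
    rw [Nat.pos_iff_ne_zero]
    exact fun h0 => hτ1 (cs.length_eq_zero_iff.1 h0)
  have hle2 : Le cs b (x * u * y2) := hle y2 τ rfl hly2 hτ1
  have hlen2 : cs.length (x * u * y2) = cs.length x + cs.length u + cs.length y2 := by
    have h1 := cs.length_mul_le (x * u * y2) τ
    have h3 := cs.length_mul_le (x * u) y2
    have h4 := cs.length_mul_le x u
    rw [← mul_assoc] at hlen
    omega
  have hlm2 : Lmin cs r s y2 :=
    ⟨fun h' => hy.1 (ld_mul_of_red cs hly2 h'), fun h' => hy.2 (ld_mul_of_red cs hly2 h')⟩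
  obtain ⟨hlxu, hr1, hr2⟩ := TailRS_prod cs hlen2
  have hle3 : Le cs b (u * y2) := by
    refine le_suffix cs hr2 ?_
    rwa [← mul_assoc]
  have hluy : cs.length (u * y2) = cs.length u + cs.length y2 := len_D_mul cs hrs hlm2 hu
  have hqy2 : ∀ k, (k = r ∨ k = s) → ¬ cs.IsRightDescent y2 k := by
    rintro k (rfl | rfl)
    · exact hy2.1
    · exact hy2.2
  have key : ∃ v : W, Rmin cs r s (v * y2) ∧ Rmin cs r s (x * v * y2) ∧
      ∃ τ' ∈ D cs r s, u * (y2 * τ) = v * y2 * τ' := by
    by_cases hcase : Rmin cs r s (u * y2)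
    · have hsub := ih y2 (by omega) x u hx hu h2 hlm2 hlen2 hle2
      exact ⟨u, hcase, ⟨fun h' => hcase.1 (hsub r h'), fun h' => hcase.2 (hsub s h')⟩, τ, hτ,
        by rw [mul_assoc]⟩
    · have hq2 : ∃ q₂, (q₂ = r ∨ q₂ = s) ∧ cs.IsRightDescent (u * y2) q₂ := by
        by_contra hcon
        push Not at hcon
        exact hcase ⟨hcon r (Or.inl rfl), hcon s (Or.inr rfl)⟩
      obtain ⟨q₂, hq₂, hq₂d⟩ := hq2
      obtain ⟨p, hp, hpe, hpu⟩ := deodhar cs hrs hlm2 hu hq₂d (hqy2 q₂ hq₂)
      have hy21 : y2 ≠ 1 := by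
        rintro rfl
        obtain ⟨k, hk⟩ := cs.exists_leftDescent_of_ne_one hτ1
        have hk' := ld_of_mem_D cs hrs hτ hk
        rw [one_mul] at hy
        rcases hk' with rfl | rfl
        · exact hy.1 hk
        · exact hy.2 hk
      have hty2 : cs.IsLeftDescent y2 t := by
        obtain ⟨k, hk⟩ := cs.exists_leftDescent_of_ne_one hy21
        rcases hT.all k with rfl | rfl | rfl
        · exact absurd hk hlm2.1
        · exact absurd hk hlm2.2
        · exact hk
      rcases hp with hp | hp
      swap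
      · exfalso
        rw [hp] at hpe hpu
        exact hle3 (TailRS_suf cs hrs hu hlm2 hpu
          (wall_s cs hT hbc hty2 (hqy2 q₂ hq₂) hpe))
      rw [hp] at hpe hpu
      have hrD : cs.simple r ∈ D cs r s := TailRS_mem cs (Or.inl rfl)
      have hu₁D : u * cs.simple r ∈ D cs r s := mul_mem hu hrD
      have hu₁l : cs.length (u * cs.simple r) + 1 = cs.length u := cs.isRightDescent_iff.1 hpu
      have hur : u = u * cs.simple r * cs.simple r := by
        rw [mul_assoc, cs.simple_mul_simple_self, mul_one]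
      have heq : u * y2 = u * cs.simple r * y2 * cs.simple q₂ := by
        rw [mul_assoc (u * cs.simple r), hpe, ← mul_assoc, ← hur]
      have hu₁y : cs.length (u * cs.simple r * y2) = cs.length (u * cs.simple r) + cs.length y2 :=
        len_D_mul cs hrs hlm2 hu₁D
      have hnr : ¬ cs.IsRightDescent (u * cs.simple r) r := by
        rw [cs.not_isRightDescent_iff, ← hur]
        omega
      -- `u₁ y''` is rmin
      have c1 : Rmin cs r s (u * cs.simple r * y2) := by
        have c0 : ∀ q₃, (q₃ = r ∨ q₃ = s) → ¬ cs.IsRightDescent (u * cs.simple r * y2) q₃ := by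
          intro q₃ hq₃ hd
          obtain ⟨p₃, hp₃, hp₃e, hp₃u⟩ := deodhar cs hrs hlm2 hu₁D hd (hqy2 q₃ hq₃)
          rcases hp₃ with hp₃ | hp₃
          · rw [hp₃] at hp₃u
            exact hnr hp₃u
          · rw [hp₃] at hp₃u hp₃e
            have hf := TailRS_suf cs hrs hu₁D hlm2 hp₃u
              (wall_s cs hT hbc hty2 (hqy2 q₃ hq₃) hp₃e)
            apply hle3
            rw [heq]
            refine fac_of_prefix cs ?_ hf
            change cs.length (u * cs.simple r * y2 * cs.simple q₂) = _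
            rw [← heq, cs.length_simple]
            omega
        exact ⟨c0 r (Or.inl rfl), c0 s (Or.inr rfl)⟩
      -- lengths of `x u₁ y''`
      have heqx : x * u * y2 = x * (u * cs.simple r) * y2 * cs.simple q₂ := by
        rw [mul_assoc x u y2, heq]
        simp only [mul_assoc]
      have hlx₁ : cs.length (x * (u * cs.simple r) * y2) + 1 =
          cs.length x + cs.length u + cs.length y2 := by
        have h1 := cs.length_mul_le (x * (u * cs.simple r) * y2) (cs.simple q₂)
        have h3 := cs.length_mul_le (x * (u * cs.simple r)) y2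
        have h4 := cs.length_mul_le x (u * cs.simple r)
        rw [← heqx, cs.length_simple] at h1
        omega
      have hlex₁ : Le cs b (x * (u * cs.simple r) * y2) := by
        rw [heqx] at hle2
        refine le_prefix cs ?_ hle2
        change cs.length (x * (u * cs.simple r) * y2 * cs.simple q₂) = _
        rw [← heqx, cs.length_simple]
        omega
      have c2 : Rmin cs r s (x * (u * cs.simple r) * y2) := by
        -- `x u t` is a prefix of `x u y''`
        have hty : y2 = cs.simple t * (cs.simple t * y2) := by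
          rw [cs.simple_mul_simple_cancel_left]
        have htl := cs.isLeftDescent_iff.1 hty2
        have hxut : x * u * y2 = x * u * cs.simple t * (cs.simple t * y2) := by
          rw [mul_assoc (x * u), ← hty]
        have hlxut : cs.length (x * u * cs.simple t) = cs.length x + cs.length u + 1 := by
          have h1 := cs.length_mul_le (x * u * cs.simple t) (cs.simple t * y2)
          have h3 := cs.length_mul_le (x * u) (cs.simple t)
          rw [← hxut] at h1
          rw [cs.length_simple] at h3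
          omega
        have hlext : Le cs b (x * u * cs.simple t) := by
          rw [hxut] at hle2
          refine le_prefix cs ?_ hle2
          change cs.length (x * u * cs.simple t * (cs.simple t * y2)) = _
          rw [← hxut]
          omega
        obtain ⟨hX1, hX2, -, -⟩ := xmin cs hT hbc hx hu hpu hlxut hlext
        rcases wall_rt cs hT hlm2 hy21 (hqy2 q₂ hq₂) hpe with ⟨hyt, -⟩ |
          ⟨ν, y₃, hy₃, hν, -, hνl, -, -, hy₃m, hly₃⟩
        · rw [hyt]
          exact hX1
        · have hb := hT.hb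
          have heX : x * (u * cs.simple r) * y2 =
              x * (u * cs.simple r) * cs.simple t * ν * y₃ := by
            rw [hy₃]
            simp only [mul_assoc]
          rw [heX] at hlx₁ hlex₁ ⊢
          have hsub := ih y₃ (by omega) (x * (u * cs.simple r) * cs.simple t) ν hX1 hν (by omega)
            hy₃m (by omega) hlex₁
          have hredt : Red cs (cs.simple t) (ν * y₃) := by
            change cs.length (cs.simple t * (ν * y₃)) = _
            rw [← mul_assoc, ← hy₃, cs.length_simple, len_D_mul cs hrs hy₃m hν]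
            omega
          have hfin : ∀ k, (k = r ∨ k = s) → ¬ cs.IsRightDescent
              (x * (u * cs.simple r) * cs.simple t * ν * y₃) k := by
            intro k hk hd
            have h5 := rd_mul_of_red cs hredt (hsub k hd)
            rw [← mul_assoc, ← hy₃] at h5
            exact hqy2 k hk h5
          exact ⟨hfin r (Or.inl rfl), hfin s (Or.inr rfl)⟩
      refine ⟨u * cs.simple r, c1, c2, cs.simple q₂ * τ, mul_mem (TailRS_mem cs hq₂) hτ, ?_⟩
      rw [← mul_assoc, heq]
      simp only [mul_assoc]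
  obtain ⟨v, hv1, hv2, τ', hτ', he⟩ := key
  have he2 : x * u * (y2 * τ) = x * v * y2 * τ' := by
    rw [mul_assoc, he]
    simp only [mul_assoc]
  rw [he2, rd_mul_D cs hrs hq hv2 hτ'] at h
  rw [he, rd_mul_D cs hrs hq hv1 hτ']
  exact h

end Pool.Agent.PolyCell
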