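import Pool.Agent.Tri2.Defs

/-!
# `T_x T_{w_T} T_y` and `T_x T_{w_T} T_l T_y`

`v_lem` (`m > N`): `T_{w_T} = C_{w_T} - ∑_{u ≠ w_T} v^{ℓ(u)-m} T_u` (`C_wT_apply`, `kl_self`, `T_apply`; `lat_expand`), `C_{w_T}` is zero modulo `H_{>N}`. Terms: `ℓ(u) ≥ 2`: D2S `n`:
`ℓ(u) - m + N - 2 ≤ N - 3`; `ℓ(u) = 1`: A1S: `1 - m + N - 1`; `ℓ(u) = 0`: A0S: `N - m` (`m ≥ 3`).
`v1_lem`: `l ∈ {i,j}`, `l'` the other one. `T_{w_T} T_l = T_{w_T l} + ξ T_{w_T}` (`T_mul_s'`), and `ξ T_{w_T} = ξ C_{w_T} - ξ ∑_{u ≠ w_T} v^{ℓ(u)-m} T_u`; the elements of `D_T` of length `m - 1` are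
`w_T l`, `w_T l'`, with coefficient `-ξ v^{-1} = -(1 - v^{-2})`. So `T_{w_T} T_l + T_{w_T l'} = ξ C_{w_T} + v^{-2} (T_{w_T l} + T_{w_T l'}) - ∑_{ℓ(u) ≤ m-2} ξ v^{ℓ(u)-m} T_u`: work with the coefficient function of
`h = T_{w_T} T_l + T_{w_T l'} - ξ C_{w_T}`: supported in `D_T`, `h_u` has degree `≤ -1` if `ℓ(u) ≥ 2`, `≤ 2 - m` if `ℓ(u) = 1`, `≤ 1 - m` if `ℓ(u) = 0`, `h_{w_T} = 0`; then `lat_expand`, D2S, A1S, A0S (`m ≥ 4`).
`w_lem` (`m = N ≥ 3`): `T_{w_T} = C_{w_T} - ∑ …`: DCS: `0 ≤ N - 3`; `ℓ(u) ≥ 2`: `ℓ(u) - N + N - 2 ≤ N - 3`; `ℓ(u) = 1`: `1 - N + N - 1 = 0`; `ℓ(u) = 0`: `-N + N = 0`.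
-/

open CoxeterSystem

namespace Pool.Agent.PolyCell

variable {B W : Type*} [Group W] {M : CoxeterMatrix B} {cs : CoxeterSystem M W}
  {C : W → Hk cs} {N : ℕ}

private theorem VLem_exp {n : ℕ} (h0 : A0S cs C N n) (h1 : A1S cs C N n) (h2 : D2S cs C N n)
    {i j : B} (hij : i ≠ j) (hm : M i j ≠ 0) {x y : W} (hx : Rmin cs i j x) (hy : Lmin cs i j y)
    (hn : cs.length x + M i j + cs.length y ≤ n + 1) {k : ℤ} (h : Hk cs)
    (H : ∀ u, h u ≠ 0 → u ∈ D cs i j ∧ u ≠ wT cs i j ∧
      (2 ≤ cs.length u → dle (k - ((N : ℤ) - 2)) (h u)) ∧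
      (cs.length u = 1 → dle (k - ((N : ℤ) - 1)) (h u)) ∧
      (cs.length u = 0 → dle (k - N) (h u))) : Lat cs C N k (T cs x * h * T cs y) := by
  refine lat_expand x y h fun u hu => ?_
  obtain ⟨huD, huw, a2, a1, a0⟩ := H u hu
  have h2m := two_le_exp hij hm
  have hul := len_D_le cs hij hm huD
  have hul' : cs.length u ≠ M i j := fun e => huw (eq_wT_of_len cs hij hm huD e)
  have h3 : cs.length u = 0 ∨ cs.length u = 1 ∨ 2 ≤ cs.length u := by omega
  rcases h3 with h3 | h3 | h3
  · have hc1 : u = 1 := cs.length_eq_zero_iff.1 h3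
    have e1 : T cs x * T cs u * T cs y = T cs x * T cs y := by
      rw [hc1, ← one_def' cs, mul_one]
    rw [e1]
    exact lat_mono (by omega) (lat_smul (a0 h3) (h0 x y (by omega)))
  · obtain ⟨d, hd, rfl⟩ := len_one_D hij huD h3
    have hxd : ¬ cs.IsRightDescent x d := by
      rcases hd with rfl | rfl
      · exact hx.1
      · exact hx.2
    have hyd : ¬ cs.IsLeftDescent y d := by
      rcases hd with rfl | rfl
      · exact hy.1
      · exact hy.2
    exact lat_mono (by omega) (lat_smul (a1 h3) (h1 x y d (by omega) hxd hyd))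
  · exact lat_mono (by omega)
      (lat_smul (a2 h3) (h2 hij hm hx hy huD h3 (fun _ => huw) (by omega)))

private theorem VLem_ne {i j : B} (hij : i ≠ j) (hm : M i j ≠ 0) : cs.simple i ≠ cs.simple j := by
  intro e
  have h := length_alt cs hij (k := 2) (Or.inr (two_le_exp hij hm))
  have h2 : alt cs i j 2 = cs.simple i * cs.simple j := by
    unfold alt
    simp [alternatingWord, wordProd_cons]
  rw [h2, e, cs.simple_mul_simple_self, cs.length_one] at h
  omega

/-- the elements of length `m - 1` -/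
private theorem VLem_pre {i j : B} (hij : i ≠ j) (hm : M i j ≠ 0) {u : W} (hu : u ∈ D cs i j)
    (hl : cs.length u + 1 = M i j) : ∃ g, (g = i ∨ g = j) ∧ u = wT cs i j * cs.simple g := by
  have h1 := (len_compl cs hij hm hu).1
  have h2 : u⁻¹ * wT cs i j ∈ D cs i j :=
    Subgroup.mul_mem _ (Subgroup.inv_mem _ hu) (wT_mem cs i j)
  obtain ⟨g, hg, he⟩ := len_one_D hij h2 (by omega)
  refine ⟨g, hg, ?_⟩
  have h3 : wT cs i j = u * cs.simple g := by rw [← he, mul_inv_cancel_left]
  rw [h3, cs.simple_mul_simple_cancel_right]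

private theorem VLem_zero (hC : IsKL cs C) (hI : IdealN cs C N) {i j : B} (hij : i ≠ j)
    (hmN : N < M i j) (x y : W) : Zero cs C N (T cs x * C (wT cs i j) * T cs y) := by
  have hfac : Fac cs N (wT cs i j) := by
    refine ⟨i, j, hij, hmN, 1, 1, by rw [one_mul, mul_one], ?_⟩
    rw [length_wT cs hij, cs.length_one]
    omega
  exact zero_mul_right hC hI (hI _ hfac (T cs x)).2 (T cs y)

open Classical in
/-- the coefficients of `T_{w_T} - C_{w_T}` -/
private theorem VLem_coef (hC : IsKL cs C) {i j : B} (hij : i ≠ j) (hm : M i j ≠ 0) (u : W) :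
    (T cs (wT cs i j) - C (wT cs i j)) u =
      if u ∈ D cs i j ∧ u ≠ wT cs i j then - v ((cs.length u : ℤ) - M i j) else 0 := by
  rw [sub_apply', T_apply, C_wT_apply cs hC hij hm]
  by_cases h1 : u = wT cs i j
  · rw [if_pos h1, if_pos (by rw [h1]; exact wT_mem cs i j), if_neg (fun h => h.2 h1), h1,
      length_wT cs hij, sub_self, v_zero, sub_self]
  · rw [if_neg h1]
    by_cases h2 : u ∈ D cs i j
    · rw [if_pos h2, if_pos ⟨h2, h1⟩, zero_sub]
    · rw [if_neg h2, if_neg (fun h => h2 h.1), sub_zero]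

private theorem VLem_main {n : ℕ} (hC : IsKL cs C) (h0 : A0S cs C N n) (h1 : A1S cs C N n)
    (h2 : D2S cs C N n) {i j : B} (hij : i ≠ j) (hm3 : 3 ≤ M i j) {x y : W}
    (hx : Rmin cs i j x) (hy : Lmin cs i j y)
    (hn : cs.length x + M i j + cs.length y ≤ n + 1) :
    Lat cs C N ((N : ℤ) - 3) (T cs x * (T cs (wT cs i j) - C (wT cs i j)) * T cs y) := by
  classical
  have hm : M i j ≠ 0 := by omega
  refine VLem_exp h0 h1 h2 hij hm hx hy hn _ fun u hu => ?_
  have hc := VLem_coef hC hij hm u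
  by_cases h3 : u ∈ D cs i j ∧ u ≠ wT cs i j
  · have hul := len_D_le cs hij hm h3.1
    have hul' : cs.length u ≠ M i j := fun e => h3.2 (eq_wT_of_len cs hij hm h3.1 e)
    rw [if_pos h3] at hc
    have hd : dle ((cs.length u : ℤ) - M i j) ((T cs (wT cs i j) - C (wT cs i j)) u) := by
      rw [hc]
      exact dle_neg (dle_v _)
    exact ⟨h3.1, h3.2, fun _ => dle_mono (by omega) hd, fun _ => dle_mono (by omega) hd,
      fun _ => dle_mono (by omega) hd⟩
  · rw [if_neg h3] at hc
    exact absurd hc hu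

private theorem VLem_split {i j : B} (x y : W) : T cs x * T cs (wT cs i j) * T cs y =
    T cs x * (T cs (wT cs i j) - C (wT cs i j)) * T cs y +
      T cs x * C (wT cs i j) * T cs y := by
  rw [mul_sub, sub_mul, sub_add_cancel]

theorem v_lem {n : ℕ} (hC : IsKL cs C) (hI : IdealN cs C N) (h0 : A0S cs C N n)
    (h1 : A1S cs C N n) (h2 : D2S cs C N n) {i j : B} (hij : i ≠ j) (hmN : N < M i j)
    (hm3 : 3 ≤ M i j) {x y : W} (hx : Rmin cs i j x) (hy : Lmin cs i j y)
    (hn : cs.length x + M i j + cs.length y ≤ n + 1) :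
    Lat cs C N ((N : ℤ) - 3) (T cs x * T cs (wT cs i j) * T cs y) := by
  rw [VLem_split (C := C) x y]
  exact lat_add (VLem_main hC h0 h1 h2 hij hm3 hx hy hn)
    (lat_of_zero _ (VLem_zero hC hI hij hmN x y))

theorem v1_lem {n : ℕ} (hC : IsKL cs C) (hI : IdealN cs C N) (h0 : A0S cs C N n)
    (h1 : A1S cs C N n) (h2 : D2S cs C N n) {i j : B} (hij : i ≠ j) (hmN : N < M i j)
    (hm4 : 4 ≤ M i j) {x y : W} (hx : Rmin cs i j x) (hy : Lmin cs i j y)
    (hn : cs.length x + M i j + cs.length y ≤ n + 1) {l l' : B}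
    (hl : (l = i ∧ l' = j) ∨ (l = j ∧ l' = i)) :
    Lat cs C N ((N : ℤ) - 3) (T cs x * T cs (wT cs i j) * T cs (cs.simple l) * T cs y +
      T cs x * T cs (wT cs i j * cs.simple l') * T cs y) := by
  classical
  have hm : M i j ≠ 0 := by omega
  have hlij : l = i ∨ l = j := by
    rcases hl with h | h
    · exact Or.inl h.1
    · exact Or.inr h.1
  have hrl := rd_wT cs hij hm hlij
  have hww := length_wT cs hij
  have e1 : T cs x * T cs (wT cs i j) * T cs (cs.simple l) * T cs y +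
      T cs x * T cs (wT cs i j * cs.simple l') * T cs y =
      T cs x * (T cs (wT cs i j * cs.simple l) + T cs (wT cs i j * cs.simple l') +
        xi • (T cs (wT cs i j) - C (wT cs i j))) * T cs y +
      xi • (T cs x * C (wT cs i j) * T cs y) := by
    rw [mul_assoc (T cs x) (T cs (wT cs i j)), T_mul_s' cs hrl]
    simp only [mul_add, add_mul, mul_smul_comm, smul_mul_assoc, mul_sub, sub_mul, smul_sub]
    abel
  rw [e1]
  refine lat_add ?_ (lat_of_zero _ (zero_smul' (VLem_zero hC hI hij hmN x y)))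
  refine VLem_exp h0 h1 h2 hij hm hx hy hn _ fun u hu => ?_
  have hc := VLem_coef hC hij hm u
  rw [add_apply', add_apply', smul_apply', hc, T_apply, T_apply] at hu ⊢
  have hlD : ∀ t, t = i ∨ t = j → wT cs i j * cs.simple t ∈ D cs i j ∧
      cs.length (wT cs i j * cs.simple t) + 1 = M i j := by
    intro t ht
    refine ⟨Subgroup.mul_mem _ (wT_mem cs i j) (simple_mem_D ht), ?_⟩
    rw [cs.isRightDescent_iff.1 (rd_wT cs hij hm ht), hww]
  have hl'ij : l' = i ∨ l' = j := by
    rcases hl with h | h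
    · exact Or.inr h.2
    · exact Or.inl h.2
  by_cases h3 : u ∈ D cs i j ∧ u ≠ wT cs i j
  · have hul := len_D_le cs hij hm h3.1
    have hul' : cs.length u ≠ M i j := fun e => h3.2 (eq_wT_of_len cs hij hm h3.1 e)
    rw [if_pos h3] at hu ⊢
    have hxiv : dle ((cs.length u : ℤ) - M i j + 1) (xi * -v ((cs.length u : ℤ) - M i j)) := by
      rw [add_comm]
      exact dle_mul dle_xi (dle_neg (dle_v _))
    by_cases h4 : cs.length u + 1 = M i j
    · have h5 : (if u = wT cs i j * cs.simple l then (1 : LP) else 0) +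
          (if u = wT cs i j * cs.simple l' then 1 else 0) = 1 := by
        obtain ⟨g, hg, hgu⟩ := VLem_pre hij hm h3.1 h4
        have hne : wT cs i j * cs.simple l ≠ wT cs i j * cs.simple l' := by
          intro e
          have e' := mul_left_cancel e
          rcases hl with ⟨rfl, rfl⟩ | ⟨rfl, rfl⟩
          · exact VLem_ne hij hm e'
          · exact VLem_ne hij hm e'.symm
        have hgl : g = l ∨ g = l' := by
          rcases hl with h | h <;> rcases hg with h' | h'
          · exact Or.inl (h'.trans h.1.symm)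
          · exact Or.inr (h'.trans h.2.symm)
          · exact Or.inr (h'.trans h.2.symm)
          · exact Or.inl (h'.trans h.1.symm)
        rcases hgl with rfl | rfl
        · rw [if_pos hgu, if_neg (fun e => hne (hgu.symm.trans e)), add_zero]
        · rw [if_pos hgu, if_neg (fun e => hne (e.symm.trans hgu)), zero_add]
      have h6 : (1 : LP) + xi * -v ((cs.length u : ℤ) - M i j) = v (-2) := by
        have e2 : (cs.length u : ℤ) - M i j = -1 := by omega
        rw [e2]
        unfold xi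
        have e3 : v 1 * v (-1) = 1 := by rw [← v_add, add_neg_cancel, v_zero]
        have e4 : v (-1) * v (-1) = v (-2) := by rw [← v_add]; norm_num
        rw [← e4]
        linear_combination -e3
      rw [h5, h6]
      exact ⟨h3.1, h3.2, fun _ => dle_mono (by omega) (dle_v _),
        fun h7 => by omega, fun h7 => by omega⟩
    · have h5 : ∀ t, t = i ∨ t = j → (if u = wT cs i j * cs.simple t then (1 : LP) else 0) = 0 := by
        intro t ht
        rw [if_neg]
        intro e
        apply h4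
        rw [e]
        exact (hlD t ht).2
      rw [h5 l hlij, h5 l' hl'ij, add_zero, zero_add]
      exact ⟨h3.1, h3.2, fun _ => dle_mono (by omega) hxiv, fun _ => dle_mono (by omega) hxiv,
        fun _ => dle_mono (by omega) hxiv⟩
  · exfalso
    apply hu
    rw [if_neg h3, mul_zero, add_zero]
    have h5 : ∀ t, t = i ∨ t = j → (if u = wT cs i j * cs.simple t then (1 : LP) else 0) = 0 := by
      intro t ht
      rw [if_neg]
      intro e
      apply h3
      refine ⟨by rw [e]; exact (hlD t ht).1, ?_⟩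
      intro e'
      have h6 := (hlD t ht).2
      rw [← e, e', hww] at h6
      omega
    rw [h5 l hlij, h5 l' hl'ij, add_zero]

theorem w_lem {n : ℕ} (hC : IsKL cs C) (h0 : A0S cs C N n) (h1 : A1S cs C N n)
    (h2 : D2S cs C N n) (hd : DCS cs C N (n + 1)) {i j : B} (hij : i ≠ j) (hmN : M i j = N)
    (hm3 : 3 ≤ N) {x y : W} (hx : Rmin cs i j x) (hy : Lmin cs i j y)
    (hn : cs.length x + N + cs.length y ≤ n + 1) :
    Lat cs C N ((N : ℤ) - 3) (T cs x * T cs (wT cs i j) * T cs y) := by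
  rw [VLem_split (C := C) x y]
  have hm : M i j ≠ 0 := by omega
  refine lat_add (VLem_main hC h0 h1 h2 hij (by omega) hx hy (by omega)) ?_
  exact lat_mono (by omega) (hd hij hm hmN.le hx hy (by omega))

end Pool.Agent.PolyCell
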